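import Pool.Agent.Helper951_jl.HW2
import Pool.Agent.Helper951_sr.Hash
import Pool.Agent.Helper951_sr.Step

/-!
Project JL (helper951, MP_fe497f_lc). Module Compress: Proposition 7.
-/

namespace Pool.Agent.Helper951_jl

open Finset Pool.Agent.Helper951_sr

/-- all buckets have at most three times the average load -/
def Bal {E Q : Type} [Fintype E] [Fintype Q] [DecidableEq Q] (h : E → Q) : Prop :=
  ∀ q, ((univ.filter (fun e => h e = q)).card : ℝ) ≤ 3 * ((Fintype.card E : ℝ) / Fintype.card Q)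

theorem compress_exp_log {Q : Type} [Fintype Q] [Nonempty Q] :
    Real.exp (-Real.log (4 * Fintype.card Q)) = 1 / (4 * Fintype.card Q) := by
  have hQ : (0 : ℝ) < Fintype.card Q := by exact_mod_cast Fintype.card_pos
  rw [Real.exp_neg, Real.exp_log (by positivity), one_div]

theorem compress_log_nonneg {Q : Type} [Fintype Q] [Nonempty Q] :
    1 ≤ Real.log (4 * Fintype.card Q) := by
  have hQ1 : (1 : ℝ) ≤ Fintype.card Q := by exact_mod_cast Fintype.card_pos
  rw [Real.le_log_iff_exp_le (by positivity)]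
  have := Real.exp_one_lt_d9
  linarith

theorem bal_count {E Q : Type} [Fintype E] [DecidableEq E] [Fintype Q] [DecidableEq Q] [Nonempty Q]
    (hload : 2 * Real.log (4 * Fintype.card Q) ≤ (Fintype.card E : ℝ) / Fintype.card Q) :
    cnt (fun h : E → Q => ¬ Bal h) ≤ 1 / 4 * Fintype.card (E → Q) := by
  classical
  have hQ : (0 : ℝ) < Fintype.card Q := by exact_mod_cast Fintype.card_pos
  have hlog : 1 ≤ Real.log (4 * Fintype.card Q) := compress_log_nonneg
  have hcard : (Fintype.card (E → Q) : ℝ) = (Fintype.card Q : ℝ) ^ Fintype.card E := by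
    rw [Fintype.card_fun]; push_cast; rfl
  have h0 : cnt (fun h : E → Q => ¬ Bal h) ≤ cnt (fun h : E → Q => ∃ q : Q,
      3 * ((Fintype.card E : ℝ) / Fintype.card Q) ≤ ((univ.filter (fun e => h e = q)).card : ℝ)) := by
    apply cnt_mono
    intro h hh
    unfold Bal at hh
    push Not at hh
    obtain ⟨q, hq⟩ := hh
    exact ⟨q, hq.le⟩
  refine h0.trans ?_
  rw [cnt_eq]
  refine hash_load.trans ?_
  rw [hcard]
  refine mul_le_mul_of_nonneg_right ?_ (by positivity)
  have h1 : Real.exp (-(5 / 4) * ((Fintype.card E : ℝ) / Fintype.card Q)) ≤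
      1 / (4 * Fintype.card Q) := by
    rw [← compress_exp_log, Real.exp_le_exp]
    nlinarith
  calc (Fintype.card Q : ℝ) * Real.exp (-(5 / 4) * ((Fintype.card E : ℝ) / Fintype.card Q))
      ≤ Fintype.card Q * (1 / (4 * Fintype.card Q)) := mul_le_mul_of_nonneg_left h1 hQ.le
    _ = 1 / 4 := by field_simp

/-- The masses of the buckets: all but a fraction `exp (-Qp)` of the maps are good. -/
theorem compress_mass {E Q : Type} [Fintype E] [DecidableEq E] [Fintype Q] [DecidableEq Q] [Nonempty Q]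
    (φ Qp : ℝ) (hφ : 0 < φ)
    (hmass : φ * Fintype.card Q * Real.log (4 * Fintype.card Q) ≤ 1)
    (f : E → ℝ) (hf : ∀ e, f e ^ 2 ≤ φ) (hf2 : nsq f ≤ 4) (hQp : 0 ≤ Qp) :
    cnt (fun h : E → Q => ∃ J : Finset Q,
        12 * (J.card : ℝ) / Fintype.card Q + φ * (Qp + 1) < ∑ e, if h e ∈ J then f e ^ 2 else 0)
      ≤ Real.exp (-Qp) * Fintype.card (E → Q) := by
  classical
  have hQ : (0 : ℝ) < Fintype.card Q := by exact_mod_cast Fintype.card_pos
  have hlog : 1 ≤ Real.log (4 * Fintype.card Q) := compress_log_nonneg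
  have hcard : (Fintype.card (E → Q) : ℝ) = (Fintype.card Q : ℝ) ^ Fintype.card E := by
    rw [Fintype.card_fun]; push_cast; rfl
  have hφQ : Real.exp (-1 / (φ / 4 * Fintype.card Q)) ≤ 1 / (4 * Fintype.card Q) := by
    rw [← compress_exp_log, Real.exp_le_exp, neg_div, neg_le_neg_iff, le_div_iff₀ (by positivity)]
    nlinarith
  have h1 := hash_mass (Q := Q) (fun e => f e / 2) (φ / 4) (φ * (Qp + 1) / 4) (by positivity) (by positivity)
    (fun e => by have := hf e; nlinarith) (by
      have : nsq (fun e => f e / 2) = nsq f / 4 := by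
        unfold nsq
        rw [sum_div]
        exact sum_congr rfl fun e _ => by ring
      rw [this]; linarith)
  have h2 : cnt (fun h : E → Q => ∃ J : Finset Q,
        12 * (J.card : ℝ) / Fintype.card Q + φ * (Qp + 1) < ∑ e, if h e ∈ J then f e ^ 2 else 0) ≤
      cnt (fun h : E → Q => ∃ J : Finset Q,
        3 * (J.card : ℝ) / Fintype.card Q + φ * (Qp + 1) / 4 <
          ∑ e, if h e ∈ J then (f e / 2) ^ 2 else 0) := by
    apply cnt_mono
    rintro h ⟨J, hJ⟩
    refine ⟨J, ?_⟩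
    have e1 : ∑ e, (if h e ∈ J then (f e / 2) ^ 2 else 0) = (∑ e, if h e ∈ J then f e ^ 2 else 0) / 4 := by
      rw [sum_div]
      refine sum_congr rfl fun e _ => ?_
      split_ifs <;> ring
    rw [e1]
    have e2 : 3 * (J.card : ℝ) / Fintype.card Q + φ * (Qp + 1) / 4 =
        (12 * (J.card : ℝ) / Fintype.card Q + φ * (Qp + 1)) / 4 := by ring
    rw [e2]
    linarith
  refine h2.trans ?_
  rw [cnt_eq]
  refine h1.trans ?_
  rw [hcard]
  refine mul_le_mul_of_nonneg_right ?_ (by positivity)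
  have h3 : (1 + Real.exp (-1 / (φ / 4 * Fintype.card Q))) ^ Fintype.card Q ≤ Real.exp 1 := by
    have h4 : 1 + Real.exp (-1 / (φ / 4 * Fintype.card Q)) ≤ Real.exp (1 / (4 * Fintype.card Q)) := by
      have := Real.add_one_le_exp (1 / (4 * (Fintype.card Q : ℝ)))
      linarith
    calc (1 + Real.exp (-1 / (φ / 4 * Fintype.card Q))) ^ Fintype.card Q
        ≤ (Real.exp (1 / (4 * Fintype.card Q))) ^ Fintype.card Q :=
          pow_le_pow_left₀ (by positivity) h4 _
      _ = Real.exp (1 / 4) := by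
          rw [← Real.exp_nat_mul]
          congr 1
          field_simp
      _ ≤ Real.exp 1 := by rw [Real.exp_le_exp]; norm_num
  have h5 : Real.exp (-(φ * (Qp + 1) / 4) / (φ / 4)) = Real.exp (-Qp - 1) := by
    congr 1
    field_simp
    ring
  rw [h5]
  calc _ ≤ Real.exp 1 * Real.exp (-Qp - 1) := mul_le_mul_of_nonneg_right h3 (Real.exp_pos _).le
    _ = Real.exp (-Qp) := by rw [← Real.exp_add]; congr 1; ring

/-- The decomposition for a good map. -/
theorem compress_decomp {E Q : Type} [Fintype E] [DecidableEq E] [Fintype Q] [DecidableEq Q]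
    (h : E → Q) (f : E → ℝ) (μ : ℝ)
    (hm : ∀ J : Finset Q, ∑ e, (if h e ∈ J then f e ^ 2 else 0) ≤ 12 * (J.card : ℝ) / Fintype.card Q + μ) :
    ∃ f1 : E → ℝ, (∀ q, ∑ e, (if h e = q then f1 e ^ 2 else 0) ≤ 24 / Fintype.card Q) ∧
      nsq (fun e => f e - f1 e) ≤ 2 * μ := by
  classical
  set J : Finset Q := univ.filter (fun q => 24 / (Fintype.card Q : ℝ) <
    ∑ e, (if h e = q then f e ^ 2 else 0)) with hJ
  have h0 : (0 : ℝ) ≤ 24 / Fintype.card Q := by positivity
  have h1 : (24 / (Fintype.card Q : ℝ)) * J.card ≤ ∑ e, (if h e ∈ J then f e ^ 2 else 0) := by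
    rw [← step_mass_J, mul_comm, ← nsmul_eq_mul]
    exact card_nsmul_le_sum _ _ _ fun q hq => (mem_filter.1 hq).2.le
  have h2 := hm J
  have e1 : (24 / (Fintype.card Q : ℝ)) * J.card = 2 * (12 * (J.card : ℝ) / Fintype.card Q) := by ring
  have h3 : ∑ e, (if h e ∈ J then f e ^ 2 else 0) ≤ 2 * μ := by
    rw [e1] at h1
    linarith
  refine ⟨fun e => if h e ∈ J then 0 else f e, fun q => ?_, ?_⟩
  · by_cases hq : q ∈ J
    · refine le_trans (le_of_eq (sum_eq_zero fun e _ => ?_)) h0
      by_cases he : h e = q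
      · simp [he, hq]
      · simp [he]
    · have h4 : ¬ (24 / (Fintype.card Q : ℝ) < ∑ e, (if h e = q then f e ^ 2 else 0)) := fun h5 =>
        hq (mem_filter.2 ⟨mem_univ _, h5⟩)
      refine le_trans (le_of_eq (sum_congr rfl fun e _ => ?_)) (not_lt.1 h4)
      by_cases he : h e = q
      · simp [he, hq]
      · simp [he]
  · refine le_trans (le_of_eq ?_) h3
    unfold nsq
    refine sum_congr rfl fun e _ => ?_
    simp only []
    split_ifs <;> ring

/-- The estimate of the bad part. -/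
theorem compress_bad {E Q M : Type} [Fintype E] [Fintype Q] [DecidableEq Q] [Fintype M]
    (B : Q → M → ℝ) (rb β A γ : ℝ) (hβ : 1 ≤ β) (hrb : 0 < rb) (hA : 1 ≤ A) (hγ : 0 ≤ γ)
    (h : E → Q) (ε : E → Bool) (g : E → ℝ)
    (hBflat : ∀ (S : Finset Q) (y : M → ℝ),
      ∑ q ∈ S, (mv B y q) ^ 2 ≤ β * (1 / rb + S.card / Fintype.card Q) * nsq y)
    (hload : ∀ q, ((univ.filter (fun e => h e = q)).card : ℝ) ≤ 3 * A)
    (hg : nm g ≤ γ) (Y : Finset (M → ℝ)) (hY1 : ∀ y ∈ Y, nsq y ≤ 1)
    (hY2 : ∀ u : M → ℝ, ∃ y ∈ Y, Real.sqrt (nsq u) ≤ 2 * ∑ i, y i * u i)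
    (hgood : ∀ y ∈ Y, ∑ e, sg (ε e) * (Real.sqrt rb * (step_sm β (mv B y) (h e) * g e)) ≤
      4 * (γ * Real.sqrt β)) :
    nm (fun j => Real.sqrt rb * tv B (GG h ε g) j) ≤ 13 * (γ * Real.sqrt (β * A)) := by
  have hβ0 : 0 < β := by linarith
  obtain ⟨y, hy, h1⟩ := hY2 (fun j => Real.sqrt rb * tv B (GG h ε g) j)
  unfold nm
  refine h1.trans ?_
  have e1 : ∑ i, y i * (Real.sqrt rb * tv B (GG h ε g) i) =
      Real.sqrt rb * ∑ q, mv B y q * GG h ε g q := by
    rw [← step_adj, mul_sum]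
    exact sum_congr rfl fun i _ => by ring
  set fy := step_sm β (mv B y) with hfy
  set gy : Q → ℝ := fun q => mv B y q - fy q with hgy
  have e2 : ∑ q, mv B y q * GG h ε g q = (∑ q, fy q * GG h ε g q) + ∑ q, gy q * GG h ε g q := by
    rw [← sum_add_distrib]
    exact sum_congr rfl fun q _ => by rw [hgy]; ring
  have e3 : Real.sqrt rb * (∑ q, fy q * GG h ε g q) =
      ∑ e, sg (ε e) * (Real.sqrt rb * (fy (h e) * g e)) := by
    unfold GG
    simp only [mul_sum]
    rw [sum_comm]
    refine sum_congr rfl fun e _ => ?_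
    have : ∀ q, Real.sqrt rb * (fy q * (if h e = q then sg (ε e) * g e else 0)) =
        if h e = q then Real.sqrt rb * (fy q * (sg (ε e) * g e)) else 0 := fun q => by
      split_ifs <;> simp
    simp only [this]
    rw [sum_ite_eq]
    simp only [mem_univ, if_true]
    ring
  have hgyn : nsq gy ≤ 2 * β / rb := by
    have h2 := step_split (mv B y) β rb (fun S => by
      refine (hBflat S y).trans ?_
      have h3 : 0 ≤ β * (1 / rb + S.card / Fintype.card Q) := by positivity
      have := mul_le_mul_of_nonneg_left (hY1 y hy) h3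
      linarith)
    refine le_trans (le_of_eq ?_) h2
    unfold nsq
    refine sum_congr rfl fun q _ => ?_
    simp only [hgy, hfy, step_sm]
    split_ifs <;> ring
  have hgn : nsq g ≤ γ ^ 2 := by
    rw [← nm_sq]
    exact pow_le_pow_left₀ (nm_nonneg _) hg 2
  have hGn : nsq (GG h ε g) ≤ 3 * A * nsq g := by
    have := step_bucket h (fun e => sg (ε e)) g (3 * A) (fun q => by
      refine le_trans (le_of_eq ?_) (hload q)
      simp only [step_sg_sq]
      rw [sum_boole])
    exact this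
  have h4 : ∑ q, gy q * GG h ε g q ≤ Real.sqrt (2 * β / rb) * Real.sqrt (3 * A * γ ^ 2) := by
    refine (step_cs_sqrt gy (GG h ε g)).trans ?_
    refine mul_le_mul (Real.sqrt_le_sqrt hgyn) (Real.sqrt_le_sqrt ?_) (Real.sqrt_nonneg _)
      (Real.sqrt_nonneg _)
    refine hGn.trans ?_
    exact mul_le_mul_of_nonneg_left hgn (by linarith)
  have h5 : Real.sqrt rb * (Real.sqrt (2 * β / rb) * Real.sqrt (3 * A * γ ^ 2)) ≤
      5 / 2 * (γ * Real.sqrt (β * A)) := by
    rw [← Real.sqrt_mul (by positivity), ← Real.sqrt_mul (by positivity)]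
    have e5 : rb * (2 * β / rb * (3 * A * γ ^ 2)) = 6 * (γ ^ 2 * (β * A)) := by
      field_simp
      ring
    rw [e5]
    apply Real.sqrt_le_iff.2
    refine ⟨by positivity, ?_⟩
    rw [mul_pow, mul_pow, Real.sq_sqrt (by positivity)]
    have : 0 ≤ γ ^ 2 * (β * A) := by positivity
    nlinarith
  have h6 : Real.sqrt β ≤ Real.sqrt (β * A) := by
    apply Real.sqrt_le_sqrt
    nlinarith
  have h7 := hgood y hy
  rw [← hfy, ← e3] at h7
  rw [e1, e2, mul_add]
  have h8 := (mul_le_mul_of_nonneg_left h4 (Real.sqrt_nonneg rb)).trans h5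
  have h9 := mul_le_mul_of_nonneg_left h6 hγ
  linarith

/-- The final numerical estimate. -/
theorem compress_final {E M : Type} [Fintype E] [Fintype M] (a b : M → ℝ) (v f1 : E → ℝ) (t γ Γ : ℝ)
    (hv : nsq v = 1) (ht : t ≤ 1) (hγ : nm (fun e => v e - f1 e) ≤ γ) (hγΓ : γ ≤ Γ) (hΓ : 80 * Γ ≤ 1)
    (ha : |nsq a - nsq f1| ≤ t) (hb : nm b ≤ 13 * Γ) :
    |nsq (fun j => a j + b j) - 1| ≤ t + 80 * Γ := by
  have hγ0 : 0 ≤ γ := le_trans (nm_nonneg _) hγ
  have hΓ0 : 0 ≤ Γ := hγ0.trans hγΓ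
  have hv1 : nm v = 1 := by unfold nm; rw [hv, Real.sqrt_one]
  have hf1 : nm f1 ≤ 1 + γ := by
    have h := nm_le_add f1 v
    rw [hv1, nm_sub_comm] at h
    linarith
  have hf2 : 1 - γ ≤ nm f1 := by
    have h := nm_le_add v f1
    rw [hv1] at h
    linarith
  have hf3 : nsq f1 ≤ (1 + γ) ^ 2 := by
    rw [← nm_sq]; exact pow_le_pow_left₀ (nm_nonneg _) hf1 2
  have hf4 : (1 - γ) ^ 2 ≤ nsq f1 := by
    rw [← nm_sq]; exact pow_le_pow_left₀ (by linarith) hf2 2
  have ha1 := abs_le.1 ha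
  have ha2 : nsq a ≤ 4 := by nlinarith [ha1.2]
  have ha3 : nm a ≤ 2 := by
    apply nm_le_of_nsq_le _ _ (by norm_num)
    linarith
  have hcs : |∑ j, a j * b j| ≤ 26 * Γ := by
    rw [abs_le]
    have h1 := inner_le a b
    have h2 := inner_le (fun j => -a j) b
    rw [nm_neg] at h2
    have h3 : ∑ j, -a j * b j = -∑ j, a j * b j := by
      rw [← sum_neg_distrib]
      exact sum_congr rfl fun j _ => by ring
    rw [h3] at h2
    have h4 : nm a * nm b ≤ 2 * (13 * Γ) :=
      mul_le_mul ha3 hb (nm_nonneg _) (by norm_num)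
    constructor <;> linarith
  have hcs1 := abs_le.1 hcs
  have hb2 : nsq b ≤ (13 * Γ) ^ 2 := by
    rw [← nm_sq]; exact pow_le_pow_left₀ (nm_nonneg _) hb 2
  have hb0 := nsq_nonneg b
  rw [nsq_add, abs_le]
  constructor
  · nlinarith [ha1.1, hcs1.1]
  · nlinarith [ha1.2, hcs1.2]

theorem compress {E Q M : Type} [Fintype E] [DecidableEq E] [Fintype Q] [DecidableEq Q] [Nonempty Q] [Fintype M]
    [DecidableEq M] [Nonempty M] [Nonempty E] (B : Q → M → ℝ) (rb β A φ δ Qp t : ℝ) (hβ : 1 ≤ β) (hrb : 0 < rb)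
    (hQ : (Fintype.card Q : ℝ) = rb * Fintype.card M) (hA : A = (Fintype.card E : ℝ) / Fintype.card Q)
    (hBiso : ∀ y, nsq (mv B y) = nsq y) (hBrow : ∀ q, nsq (B q) = 1 / rb)
    (hBflat : ∀ (S : Finset Q) (y : M → ℝ),
      ∑ q ∈ S, (mv B y q) ^ 2 ≤ β * (1 / rb + S.card / Fintype.card Q) * nsq y)
    (hload : 2 * Real.log (4 * Fintype.card Q) ≤ A) (hφ : 0 < φ)
    (hmass : φ * Fintype.card Q * Real.log (4 * Fintype.card Q) ≤ 1)
    (v f : E → ℝ) (hv : nsq v = 1) (hf : ∀ e, f e ^ 2 ≤ φ) (hδ : nm (fun e => v e - f e) ≤ δ)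
    (hQp : 0 ≤ Qp) (ht : 0 < t) (ht1 : t ≤ 1)
    (hγ : 80 * ((δ + Real.sqrt (2 * φ * (Qp + 1))) * Real.sqrt (β * A)) ≤ 1) :
    cnt (fun hε : (E → Q) × (E → Bool) => Bal hε.1 ∧
        t + 80 * ((δ + Real.sqrt (2 * φ * (Qp + 1))) * Real.sqrt (β * A))
          < |rb * nsq (tv B (GG hε.1 hε.2 v)) - 1|)
      ≤ (Real.exp (-Qp) + 2 * Real.exp (-t ^ 2 * Fintype.card M / 1769472) + Real.exp (-2 * Fintype.card M))
        * Fintype.card ((E → Q) × (E → Bool)) := by
  classical
  have hβ0 : 0 < β := by linarith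
  have hm0 : (0 : ℝ) < Fintype.card M := by exact_mod_cast Fintype.card_pos
  have hQ0 : (0 : ℝ) < Fintype.card Q := by rw [hQ]; positivity
  have hlog : 1 ≤ Real.log (4 * Fintype.card Q) := compress_log_nonneg
  have hA1 : 1 ≤ A := by linarith
  have hδ0 : 0 ≤ δ := le_trans (nm_nonneg _) hδ
  set γ : ℝ := δ + Real.sqrt (2 * φ * (Qp + 1)) with hγdef
  have hs0 : 0 < Real.sqrt (2 * φ * (Qp + 1)) := Real.sqrt_pos.2 (by positivity)
  have hγ0 : 0 < γ := by rw [hγdef]; linarith
  have hsq1 : 1 ≤ Real.sqrt (β * A) := by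
    rw [Real.one_le_sqrt]
    nlinarith
  set Γ : ℝ := γ * Real.sqrt (β * A) with hΓdef
  have hγΓ : γ ≤ Γ := by
    rw [hΓdef]
    nlinarith
  have hv1 : nm v = 1 := by unfold nm; rw [hv, Real.sqrt_one]
  have hfn : nsq f ≤ 4 := by
    have h := nm_le_add f v
    rw [hv1, nm_sub_comm] at h
    have h2 : nm f ≤ 2 := by linarith
    rw [← nm_sq]
    calc nm f ^ 2 ≤ 2 ^ 2 := pow_le_pow_left₀ (nm_nonneg _) h2 2
      _ = 4 := by norm_num
  have hcardB : (Fintype.card (E → Bool) : ℝ) = 2 ^ Fintype.card E := by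
    rw [Fintype.card_fun, Fintype.card_bool]; push_cast; rfl
  obtain ⟨Y, hYc, hY1, hY2⟩ := exists_net M
  have hsqrb : Real.sqrt rb ^ 2 = rb := Real.sq_sqrt hrb.le
  have hnsc : ∀ (x : M → ℝ), nsq (fun j => Real.sqrt rb * x j) = rb * nsq x := by
    intro x
    unfold nsq
    rw [mul_sum]
    exact sum_congr rfl fun j _ => by rw [mul_pow, hsqrb]
  set c : ℝ := 2 * Real.exp (-t ^ 2 * Fintype.card M / 1769472) + Real.exp (-2 * Fintype.card M) with hc
  have hc0 : 0 ≤ c := by rw [hc]; positivity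
  -- the estimate for one good map
  have hone : ∀ h : E → Q, (∀ J : Finset Q, ∑ e, (if h e ∈ J then f e ^ 2 else 0) ≤
      12 * (J.card : ℝ) / Fintype.card Q + φ * (Qp + 1)) →
      cnt (fun ε : E → Bool => Bal h ∧ t + 80 * Γ < |rb * nsq (tv B (GG h ε v)) - 1|) ≤
        c * 2 ^ Fintype.card E := by
    intro h hmassh
    by_cases hbal : Bal h
    swap
    · have h0 : cnt (fun ε : E → Bool => Bal h ∧ t + 80 * Γ < |rb * nsq (tv B (GG h ε v)) - 1|) = 0 := by
        rw [cnt_eq]
        simp [hbal]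
      rw [h0]
      positivity
    obtain ⟨f1, hf1a, hf1b⟩ := compress_decomp h f _ hmassh
    have hg : nm (fun e => v e - f1 e) ≤ γ := by
      refine (nm_tri v f f1).trans ?_
      rw [hγdef]
      refine add_le_add hδ ?_
      unfold nm
      apply Real.sqrt_le_sqrt
      linarith
    have hgn : nsq (fun e => v e - f1 e) ≤ γ ^ 2 := by
      rw [← nm_sq]; exact pow_le_pow_left₀ (nm_nonneg _) hg 2
    let Ψ : M → E → ℝ := fun j e => Real.sqrt rb * (B (h e) j * f1 e)
    have hΨmv : ∀ η, mv Ψ η = fun j => Real.sqrt rb *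
        tv B (fun q => ∑ e, if h e = q then f1 e * η e else 0) j := by
      intro η
      funext j
      rw [step_tvG, mul_sum]
      unfold mv
      exact sum_congr rfl fun e _ => by simp only [Ψ]; ring
    have hΨκ : ∀ η : E → ℝ, nsq (mv Ψ η) ≤ (24 / Fintype.card M) * nsq η := by
      intro η
      rw [hΨmv, hnsc]
      have h1 := step_tv_le B hBiso (fun q => ∑ e, if h e = q then f1 e * η e else 0)
      have h2 := step_bucket h f1 η _ hf1a
      have h3 := mul_le_mul_of_nonneg_left (h1.trans h2) hrb.le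
      refine h3.trans (le_of_eq ?_)
      rw [hQ]
      field_simp
    have hΨF : ∑ j, ∑ e, Ψ j e ^ 2 = nsq f1 := by
      rw [sum_comm]
      unfold nsq
      refine sum_congr rfl fun e _ => ?_
      simp only [Ψ, mul_pow, hsqrb]
      have h1 := hBrow (h e)
      unfold nsq at h1
      rw [← mul_sum, ← sum_mul, h1]
      field_simp
    have h1 := hw2 Ψ (24 / Fintype.card M) t (by positivity) ht.le (by
      have : 96 * (24 / (Fintype.card M : ℝ)) * Fintype.card M = 2304 := by field_simp; norm_num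
      rw [this]; linarith) hΨκ
    have e1 : -t ^ 2 / (3072 * (24 / (Fintype.card M : ℝ)) ^ 2 * Fintype.card M) =
        -t ^ 2 * Fintype.card M / 1769472 := by
      field_simp
      norm_num
    rw [e1, hΨF] at h1
    let aa : (M → ℝ) → E → ℝ := fun y e =>
      Real.sqrt rb * (step_sm β (mv B y) (h e) * (v e - f1 e))
    have h2 : ∀ y ∈ Y, cnt (fun ε : E → Bool => 4 * (γ * Real.sqrt β) ≤ ∑ e, sg (ε e) * aa y e) ≤
        Real.exp (-4 * Fintype.card M) * 2 ^ Fintype.card E := by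
      intro y hy
      have h3 : nsq (aa y) ≤ 2 * β * γ ^ 2 / Fintype.card M := by
        have h4 : nsq (aa y) ≤ rb * (2 * β / Fintype.card Q) * nsq (fun e => v e - f1 e) := by
          unfold nsq
          rw [mul_sum]
          refine sum_le_sum fun e _ => ?_
          simp only [aa, mul_pow, hsqrb]
          have h5 := step_sm_sq β hβ0 (mv B y) (h e)
          have h6 : 0 ≤ rb * (v e - f1 e) ^ 2 := by positivity
          nlinarith [mul_le_mul_of_nonneg_left h5 h6]
        refine h4.trans ((mul_le_mul_of_nonneg_left hgn (by positivity)).trans (le_of_eq ?_))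
        rw [hQ]
        field_simp
      rw [cnt_eq]
      refine (hoeffding (aa y) (2 * β * γ ^ 2 / Fintype.card M) (4 * (γ * Real.sqrt β))
        (by positivity) (by positivity) h3).trans (le_of_eq ?_)
      congr 2
      rw [mul_pow, mul_pow, Real.sq_sqrt (by positivity)]
      field_simp
      norm_num
    have h3 : cnt (fun ε : E → Bool => ∃ y ∈ Y, 4 * (γ * Real.sqrt β) ≤ ∑ e, sg (ε e) * aa y e) ≤
        Real.exp (-2 * Fintype.card M) * 2 ^ Fintype.card E := by
      calc _ ≤ ∑ y ∈ Y, cnt (fun ε : E → Bool => 4 * (γ * Real.sqrt β) ≤ ∑ e, sg (ε e) * aa y e) :=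
            cnt_exists_le Y (fun y (ε : E → Bool) => 4 * (γ * Real.sqrt β) ≤ ∑ e, sg (ε e) * aa y e)
        _ ≤ Y.card * (Real.exp (-4 * Fintype.card M) * 2 ^ Fintype.card E) := by
            rw [← nsmul_eq_mul]
            exact sum_le_card_nsmul _ _ _ h2
        _ ≤ 5 ^ Fintype.card M * (Real.exp (-4 * Fintype.card M) * 2 ^ Fintype.card E) := by
            gcongr
            exact_mod_cast hYc
        _ = (5 ^ Fintype.card M * Real.exp (-4 * Fintype.card M)) * 2 ^ Fintype.card E := by ring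
        _ ≤ Real.exp (-2 * Fintype.card M) * 2 ^ Fintype.card E := by
            gcongr
            exact step_exp_five _
    have h4 : cnt (fun ε : E → Bool => Bal h ∧ t + 80 * Γ < |rb * nsq (tv B (GG h ε v)) - 1|) ≤
        cnt (fun ε : E → Bool => (t < |nsq (mv Ψ (fun e => sg (ε e))) - nsq f1|) ∨
          ∃ y ∈ Y, 4 * (γ * Real.sqrt β) ≤ ∑ e, sg (ε e) * aa y e) := by
      apply cnt_mono
      rintro ε ⟨-, hε⟩
      by_contra hcon
      push Not at hcon
      obtain ⟨g1, g2⟩ := hcon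
      have hb := compress_bad B rb β A γ hβ hrb hA1 hγ0.le h ε (fun e => v e - f1 e) hBflat
        (by rw [hA]; exact hbal) hg Y hY1 hY2 (fun y hy => (g2 y hy).le)
      have hfin := compress_final (mv Ψ (fun e => sg (ε e)))
        (fun j => Real.sqrt rb * tv B (GG h ε (fun e => v e - f1 e)) j) v f1 t γ Γ hv ht1 hg hγΓ hγ g1 hb
      have e2 : (fun j => mv Ψ (fun e => sg (ε e)) j +
          Real.sqrt rb * tv B (GG h ε (fun e => v e - f1 e)) j) =
          fun j => Real.sqrt rb * tv B (GG h ε v) j := by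
        funext j
        rw [hΨmv]
        simp only []
        unfold GG
        rw [step_tvG, step_tvG, step_tvG, ← mul_add, ← sum_add_distrib]
        congr 1
        exact sum_congr rfl fun e _ => by ring
      rw [e2, hnsc] at hfin
      linarith
    refine h4.trans ((cnt_or_le _ _).trans ?_)
    have := add_le_add h1 h3
    rw [hc]
    linarith
  -- summation over the maps
  have hbadh := compress_mass (Q := Q) φ Qp hφ hmass f hf hfn hQp
  rw [cnt_prod]
  have hstep : ∀ h : E → Q, cnt (fun ε : E → Bool => Bal (h, ε).1 ∧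
      t + 80 * Γ < |rb * nsq (tv B (GG (h, ε).1 (h, ε).2 v)) - 1|) ≤
      c * 2 ^ Fintype.card E + (if (∃ J : Finset Q,
        12 * (J.card : ℝ) / Fintype.card Q + φ * (Qp + 1) < ∑ e, if h e ∈ J then f e ^ 2 else 0)
        then (1 : ℝ) else 0) * 2 ^ Fintype.card E := by
    intro h
    split_ifs with hb
    · have h1 := cnt_le_card (fun ε : E → Bool => Bal (h, ε).1 ∧
        t + 80 * Γ < |rb * nsq (tv B (GG (h, ε).1 (h, ε).2 v)) - 1|)
      rw [hcardB] at h1
      have h2 : 0 ≤ c * 2 ^ Fintype.card E := by positivity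
      linarith
    · push Not at hb
      have := hone h hb
      simpa using this
  refine (sum_le_sum fun h _ => hstep h).trans ?_
  rw [sum_add_distrib, sum_const, card_univ, nsmul_eq_mul, ← sum_mul]
  have hcnt : (∑ h : E → Q, if (∃ J : Finset Q,
        12 * (J.card : ℝ) / Fintype.card Q + φ * (Qp + 1) < ∑ e, if h e ∈ J then f e ^ 2 else 0)
        then (1 : ℝ) else 0) = cnt (fun h : E → Q => ∃ J : Finset Q,
        12 * (J.card : ℝ) / Fintype.card Q + φ * (Qp + 1) < ∑ e, if h e ∈ J then f e ^ 2 else 0) := by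
    rw [cnt_eq, card_filter]
    push_cast
    rfl
  rw [hcnt, Fintype.card_prod]
  push_cast
  rw [show ((Fintype.card (E → Bool) : ℕ) : ℝ) = 2 ^ Fintype.card E from hcardB]
  have h2 : (0 : ℝ) ≤ 2 ^ Fintype.card E := by positivity
  have h3 := mul_le_mul_of_nonneg_right hbadh h2
  rw [hc]
  linarith

end Pool.Agent.Helper951_jl
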