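import Pool.Agent.Helper951_jl.Persist

/-!
Project JL (helper951, MP_fe497f_lc). Module Decay: Corollary 5.
-/

namespace Pool.Agent.Helper951_jl

open Finset Pool.Agent.Helper951_sr

/-- shifting and shortening -/
theorem good_shift {I : Type} [Fintype I] [DecidableEq I] (W : I → I → ℝ) (p cm w J J' s b : ℕ) (D : ℝ)
    (L : ℕ → I → Bool) (hb : b + J ≤ J') (hG : Good W p cm w J' s D L) :
    Good W p cm w J s D (fun i => L (b + i)) := by
  intro c hc1 hc2 u hu j hj
  have h := hG c hc1 hc2 u hu (b + j) (by omega)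
  have e : (fun i => (fun i => L (b + i)) (j + 1 + i)) = fun i => L (b + j + 1 + i) := by
    funext i
    change L (b + (j + 1 + i)) = L (b + j + 1 + i)
    congr 1
    omega
  rw [e]
  exact h

/-- the normalised vectors -/
theorem decay_dist {I : Type} [Fintype I] [DecidableEq I] [Nonempty I] (W : I → I → ℝ) (hW : IsHad W)
    (ε : I → Bool) (S : Finset I) (x : I → ℝ) (hx : 0 < nm x) (hy : 0 < nm (cut S (UU W ε x))) :
    nm (fun i => (nm (cut S (UU W ε x)))⁻¹ * cut S (UU W ε x) i - UU W ε (fun k => (nm x)⁻¹ * x k) i) ^ 2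
      = 2 * (1 - nm (cut S (UU W ε x)) / nm x) := by
  rw [nm_sq, nsq_sub]
  have h1 : nsq (fun i => (nm (cut S (UU W ε x)))⁻¹ * cut S (UU W ε x) i) = 1 := by
    rw [← nm_sq, nm_smul, abs_of_pos (by positivity)]
    field_simp
  have h2 : nsq (fun i => UU W ε (fun k => (nm x)⁻¹ * x k) i) = 1 := by
    change nsq (UU W ε (fun k => (nm x)⁻¹ * x k)) = 1
    rw [UU_nsq W hW, ← nm_sq, nm_smul, abs_of_pos (by positivity)]
    field_simp
  have h3 : ∑ i, (nm (cut S (UU W ε x)))⁻¹ * cut S (UU W ε x) i * UU W ε (fun k => (nm x)⁻¹ * x k) i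
      = nm (cut S (UU W ε x)) / nm x := by
    have h4 : ∀ i, (nm (cut S (UU W ε x)))⁻¹ * cut S (UU W ε x) i * UU W ε (fun k => (nm x)⁻¹ * x k) i
        = (nm (cut S (UU W ε x)))⁻¹ * (nm x)⁻¹ * (cut S (UU W ε x) i ^ 2) := by
      intro i
      rw [UU_smul]
      unfold cut
      split_ifs <;> ring
    rw [sum_congr rfl fun i _ => h4 i, ← mul_sum]
    have h5 : ∑ i, cut S (UU W ε x) i ^ 2 = nm (cut S (UU W ε x)) ^ 2 := by
      rw [nm_sq]
      rfl
    rw [h5]
    field_simp
  rw [h1, h2, h3]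
  ring

theorem decay_block {I : Type} [Fintype I] [DecidableEq I] [Nonempty I] (W : I → I → ℝ) (hW : IsHad W)
    (p cm w J s : ℕ) (D : ℝ) (hp : 1 ≤ p) (hI : Fintype.card I = 2 ^ p) (hD0 : 0 < D) (hD : D * (2 ^ 14 * p ^ 2) ≤ 1)
    (hs : 128 * 2 ^ cm * s ≤ 2 ^ p) (hJ : p * w + 1 ≤ J) (L : ℕ → I → Bool)
    (hG : Good W p cm w J s D (fun i => L (1 + i)))
    (g : ℕ → I → ℝ) (S : ℕ → Finset I) (hS : ∀ j, (S j).card ≤ s)
    (hg : ∀ j, g (j + 1) = cut (S j) (UU W (L j) (g j))) :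
    nm (g (J + 1)) ≤ Real.exp (-1 / (128 * J)) * nm (g 0) := by
  have hJ1 : 1 ≤ J := by omega
  have hJr : (1 : ℝ) ≤ J := by exact_mod_cast hJ1
  have hstep : ∀ j, nm (g (j + 1)) ≤ nm (g j) := by
    intro j
    rw [hg j]
    refine (nm_cut_le _ _).trans ?_
    rw [UU_nm W hW]
  have hanti : ∀ j k, nm (g (j + k)) ≤ nm (g j) := by
    intro j k
    induction k with
    | zero => exact le_refl _
    | succ k ih => exact (hstep (j + k)).trans ih
  rcases eq_or_lt_of_le (nm_nonneg (g (J + 1))) with h0 | h0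
  · rw [← h0]
    exact mul_nonneg (Real.exp_pos _).le (nm_nonneg _)
  have hpos : ∀ j ≤ J + 1, 0 < nm (g j) := by
    intro j hj
    obtain ⟨k, hk⟩ := Nat.exists_eq_add_of_le hj
    have := hanti j k
    rw [← hk] at this
    linarith
  set y : ℕ → I → ℝ := fun j k => (nm (g (j + 1)))⁻¹ * g (j + 1) k with hy
  have hy1 : ∀ j ≤ J, nsq (y j) = 1 := by
    intro j hj
    have h1 := hpos (j + 1) (by omega)
    have h2 : nm (y j) = 1 := by
      simp only [hy]
      rw [nm_smul, abs_of_pos (by positivity)]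
      field_simp
    rw [← nm_sq, h2]
    norm_num
  have hys : ∀ j ≤ J, sz (y j) ≤ s := by
    intro j _
    refine le_trans ?_ (hS j)
    refine le_trans ?_ (sz_cut_le (S j) (UU W (L j) (g j)))
    rw [← hg j]
    unfold sz
    apply card_le_card
    intro i hi
    rw [mem_filter] at hi ⊢
    refine ⟨hi.1, fun h => hi.2 ?_⟩
    simp only [hy]
    rw [h, mul_zero]
  have hper := persist W hW p cm w J s D hp hI hD0 hD hs hJ (fun i => L (1 + i)) hG y hy1 hys
  set ρ : ℕ → ℝ := fun j => nm (g (j + 2)) / nm (g (j + 1)) with hρ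
  have hd : ∀ j ∈ range J, nm (fun i => y (j + 1) i - UU W ((fun i => L (1 + i)) j) (y j) i) ^ 2
      = 2 * (1 - ρ j) := by
    intro j hj
    rw [mem_range] at hj
    have h1 := hpos (j + 1) (by omega)
    have h2 := hpos (j + 2) (by omega)
    have h3 : g (j + 2) = cut (S (j + 1)) (UU W (L (j + 1)) (g (j + 1))) := hg (j + 1)
    have h4 : L (1 + j) = L (j + 1) := by rw [Nat.add_comm]
    simp only [hy, hρ]
    rw [h4]
    have h5 : g (j + 1 + 1) = cut (S (j + 1)) (UU W (L (j + 1)) (g (j + 1))) := hg (j + 1)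
    rw [h5]
    rw [h3] at h2
    exact decay_dist W hW (L (j + 1)) (S (j + 1)) (g (j + 1)) h1 h2
  have hcs : (∑ j ∈ range J, nm (fun i => y (j + 1) i - UU W ((fun i => L (1 + i)) j) (y j) i)) ^ 2 ≤
      J * ∑ j ∈ range J, nm (fun i => y (j + 1) i - UU W ((fun i => L (1 + i)) j) (y j) i) ^ 2 := by
    have := sq_sum_le_card_mul_sum_sq (s := range J)
      (f := fun j => nm (fun i => y (j + 1) i - UU W ((fun i => L (1 + i)) j) (y j) i))
    rwa [card_range] at this
  rw [sum_congr rfl hd, ← mul_sum] at hcs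
  have hsum : 1 / (128 * (J : ℝ)) ≤ ∑ j ∈ range J, (1 - ρ j) := by
    have h1 : (1 / 8 : ℝ) ^ 2 ≤ J * (2 * ∑ j ∈ range J, (1 - ρ j)) :=
      (pow_le_pow_left₀ (by norm_num) hper 2).trans hcs
    rw [div_le_iff₀ (by positivity)]
    nlinarith
  have hprod : ∀ m ≤ J, nm (g (m + 1)) ≤ nm (g 1) * Real.exp (-∑ j ∈ range m, (1 - ρ j)) := by
    intro m
    induction m with
    | zero =>
      intro _
      simp
    | succ m ih =>
      intro hm
      have h1 := ih (by omega)
      have h2 := hpos (m + 1) (by omega)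
      have h3 : nm (g (m + 1 + 1)) = ρ m * nm (g (m + 1)) := by
        simp only [hρ]
        field_simp
      have h4 : ρ m ≤ Real.exp (-(1 - ρ m)) := by
        have := Real.add_one_le_exp (-(1 - ρ m))
        linarith
      rw [h3, sum_range_succ]
      have h5 : -(∑ j ∈ range m, (1 - ρ j) + (1 - ρ m)) = -(1 - ρ m) + -∑ j ∈ range m, (1 - ρ j) := by ring
      rw [h5, Real.exp_add]
      calc ρ m * nm (g (m + 1)) ≤ Real.exp (-(1 - ρ m)) * nm (g (m + 1)) :=
            mul_le_mul_of_nonneg_right h4 h2.le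
        _ ≤ Real.exp (-(1 - ρ m)) * (nm (g 1) * Real.exp (-∑ j ∈ range m, (1 - ρ j))) :=
            mul_le_mul_of_nonneg_left h1 (Real.exp_pos _).le
        _ = _ := by ring
  have hfin := hprod J le_rfl
  have h6 : Real.exp (-∑ j ∈ range J, (1 - ρ j)) ≤ Real.exp (-1 / (128 * J)) := by
    apply Real.exp_le_exp.mpr
    rw [neg_div]
    linarith
  calc nm (g (J + 1)) ≤ nm (g 1) * Real.exp (-∑ j ∈ range J, (1 - ρ j)) := hfin
    _ ≤ nm (g 0) * Real.exp (-1 / (128 * J)) :=
        mul_le_mul (hstep 0) h6 (Real.exp_pos _).le (nm_nonneg _)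
    _ = _ := by ring

theorem decay {I : Type} [Fintype I] [DecidableEq I] [Nonempty I] (W : I → I → ℝ) (hW : IsHad W)
    (p cm w J s M : ℕ) (D : ℝ) (hp : 1 ≤ p) (hI : Fintype.card I = 2 ^ p) (hD0 : 0 < D)
    (hD : D * (2 ^ 14 * p ^ 2) ≤ 1) (hs : 128 * 2 ^ cm * s ≤ 2 ^ p) (hJ : p * w + 1 ≤ J) (L : ℕ → I → Bool)
    (hG : Good W p cm w (M * (J + 1)) s D L)
    (g : ℕ → I → ℝ) (S : ℕ → Finset I) (hS : ∀ j, (S j).card ≤ s)
    (hg : ∀ j, g (j + 1) = cut (S j) (UU W (L j) (g j))) :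
    nm (g (M * (J + 1))) ≤ Real.exp (-M / (128 * J)) * nm (g 0) := by
  induction M with
  | zero => simp
  | succ M ih =>
    have e1 : (M + 1) * (J + 1) = M * (J + 1) + (J + 1) := by ring
    have h1 : Good W p cm w (M * (J + 1)) s D L := by
      intro c hc1 hc2 u hu j hj
      exact hG c hc1 hc2 u hu j (by omega)
    have h2 := ih h1
    have h3 := good_shift W p cm w J ((M + 1) * (J + 1)) s (M * (J + 1) + 1) D L (by omega) hG
    have h4 : Good W p cm w J s D (fun i => (fun j => L (M * (J + 1) + j)) (1 + i)) := by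
      have e2 : (fun i => (fun j => L (M * (J + 1) + j)) (1 + i)) = fun i => L (M * (J + 1) + 1 + i) := by
        funext i
        change L (M * (J + 1) + (1 + i)) = L (M * (J + 1) + 1 + i)
        congr 1
        omega
      rw [e2]
      exact h3
    have h5 := decay_block W hW p cm w J s D hp hI hD0 hD hs hJ (fun j => L (M * (J + 1) + j)) h4
      (fun j => g (M * (J + 1) + j)) (fun j => S (M * (J + 1) + j)) (fun j => hS _) (fun j => hg _)
    have h6 : nm (g ((M + 1) * (J + 1))) ≤ Real.exp (-1 / (128 * J)) * nm (g (M * (J + 1))) := by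
      rw [e1]
      exact h5
    refine h6.trans ((mul_le_mul_of_nonneg_left h2 (Real.exp_pos _).le).trans (le_of_eq ?_))
    rw [← mul_assoc, ← Real.exp_add]
    congr 2
    push_cast
    ring

end Pool.Agent.Helper951_jl
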