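import Pool.Agent.Helper951_jl.Basic

/-!
Project JL (helper951, MP_fe497f_lc). Module Seq: counting sequences of sign vectors.
-/

namespace Pool.Agent.Helper951_jl

open Finset Pool.Agent.Helper951_sr

theorem seq_cons {Ω : Type} [Fintype Ω] (n : ℕ) (P : (Fin (n + 1) → Ω) → Prop) :
    cnt P = ∑ ε : Ω, cnt (fun L : Fin n → Ω => P (Fin.cons ε L)) := by
  have h := cnt_equiv (Fin.consEquiv (fun _ : Fin (n + 1) => Ω)) P
  rw [← h, cnt_prod]
  rfl

/-- an event whose conditional probability given all but one coordinate is at most `β` has probability at most `β` -/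
theorem seq_update {Ω : Type} [Fintype Ω] (J : ℕ) (P : (Fin J → Ω) → Prop) (j : Fin J) (β : ℝ)
    (h : ∀ L : Fin J → Ω, cnt (fun ε : Ω => P (Function.update L j ε)) ≤ β * Fintype.card Ω) :
    cnt P ≤ β * Fintype.card (Fin J → Ω) := by
  classical
  cases J with
  | zero => exact j.elim0
  | succ n =>
    have e := cnt_equiv (Fin.insertNthEquiv (fun _ : Fin (n + 1) => Ω) j) P
    have h1 : cnt P = ∑ L : Fin n → Ω, cnt (fun ε : Ω => P (j.insertNth ε L)) := by
      rw [← e, cnt_prod]
      simp only [cnt_eq, card_filter]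
      push_cast
      rw [sum_comm]
      rfl
    rw [h1]
    by_cases hΩ : Nonempty Ω
    · obtain ⟨ω⟩ := hΩ
      have h2 : ∀ L : Fin n → Ω, cnt (fun ε : Ω => P (j.insertNth ε L)) ≤ β * Fintype.card Ω := by
        intro L
        have h3 := h (j.insertNth ω L)
        have h4 : ∀ ε, Function.update (j.insertNth ω L : Fin (n + 1) → Ω) j ε = j.insertNth ε L := by
          intro ε
          exact Fin.update_insertNth (α := fun _ => Ω) j ω ε L
        simp_rw [h4] at h3
        exact h3
      refine (sum_le_sum fun L _ => h2 L).trans (le_of_eq ?_)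
      rw [sum_const, nsmul_eq_mul, card_univ, Fintype.card_fun, Fintype.card_fun, Fintype.card_fin, Fintype.card_fin]
      push_cast
      ring
    · rw [not_nonempty_iff] at hΩ
      have h2 : ∀ L : Fin n → Ω, cnt (fun ε : Ω => P (j.insertNth ε L)) = 0 := by
        intro L
        rw [cnt_eq]
        simp
      simp_rw [h2]
      have : IsEmpty (Fin (n + 1) → Ω) := ⟨fun f => hΩ.elim (f 0)⟩
      simp

theorem ex_cons_zero {I : Type} {n : ℕ} (ε : I → Bool) (L : Fin n → I → Bool) :
    ex (Fin.cons ε L : Fin (n + 1) → I → Bool) 0 = ε := by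
  unfold ex
  rw [dif_pos (Nat.succ_pos n)]
  rfl

theorem ex_cons_succ {I : Type} {n : ℕ} (ε : I → Bool) (L : Fin n → I → Bool) (i : ℕ) :
    ex (Fin.cons ε L : Fin (n + 1) → I → Bool) (i + 1) = ex L i := by
  unfold ex
  by_cases h : i < n
  · rw [dif_pos h, dif_pos (Nat.succ_lt_succ h)]
    exact Fin.cons_succ (α := fun _ => I → Bool) ε L ⟨i, h⟩
  · rw [dif_neg h, dif_neg (fun h' => h (Nat.lt_of_succ_lt_succ h'))]

theorem alive_count {I : Type} [Fintype I] [DecidableEq I] [Nonempty I] (W : I → I → ℝ) (hW : IsHad W) (s : ℕ)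
    (D τ β : ℝ) (hβ : 0 ≤ β)
    (hB : ∀ v : I → ℝ, nsq v ≤ 1 → cnt (fun ε : I → Bool => Bev W s D τ v ε) ≤ β * 2 ^ Fintype.card I)
    (J n : ℕ) (hn : n ≤ J) (v : I → ℝ) (hv : nsq v ≤ 1) :
    cnt (fun L : Fin J → I → Bool => alive W s D τ n v (ex L)) ≤ β ^ n * Fintype.card (Fin J → I → Bool) := by
  classical
  have hΩ : (Fintype.card (I → Bool) : ℝ) = 2 ^ Fintype.card I := by
    rw [Fintype.card_fun, Fintype.card_bool]
    push_cast
    rfl
  induction n generalizing J v with
  | zero =>
    rw [pow_zero, one_mul]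
    exact cnt_le_card _
  | succ n ih =>
    obtain ⟨J, rfl⟩ : ∃ J', J = J' + 1 := ⟨J - 1, by omega⟩
    rw [seq_cons]
    have h1 : ∀ ε : I → Bool, cnt (fun L : Fin J → I → Bool =>
          alive W s D τ (n + 1) v (ex (Fin.cons ε L : Fin (J + 1) → I → Bool)))
        ≤ if Bev W s D τ v ε then β ^ n * Fintype.card (Fin J → I → Bool) else 0 := by
      intro ε
      split_ifs with hb
      · refine le_trans (cnt_mono ?_) (ih J (by omega) (UU W ε v) (by rw [UU_nsq W hW]; exact hv))
        intro L hL
        have h2 := hL.2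
        rw [ex_cons_zero] at h2
        simp_rw [ex_cons_succ] at h2
        exact h2
      · refine le_of_eq ?_
        rw [cnt_eq]
        have : (univ.filter fun L : Fin J → I → Bool =>
          alive W s D τ (n + 1) v (ex (Fin.cons ε L : Fin (J + 1) → I → Bool))) = ∅ := by
          rw [filter_eq_empty_iff]
          intro L _ hL
          have h2 := hL.1
          rw [ex_cons_zero] at h2
          exact hb h2
        rw [this]
        simp
    refine (sum_le_sum fun ε _ => h1 ε).trans ?_
    rw [← sum_filter, sum_const, nsmul_eq_mul, ← cnt_eq]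
    have h3 := hB v hv
    have h4 : 0 ≤ β ^ n * (Fintype.card (Fin J → I → Bool) : ℝ) := by positivity
    calc cnt (fun ε : I → Bool => Bev W s D τ v ε) * (β ^ n * Fintype.card (Fin J → I → Bool))
        ≤ (β * 2 ^ Fintype.card I) * (β ^ n * Fintype.card (Fin J → I → Bool)) := mul_le_mul_of_nonneg_right h3 h4
      _ = β ^ (n + 1) * (Fintype.card (Fin (J + 1) → I → Bool)) := by
          rw [Fintype.card_fun (α := Fin (J + 1)), Fintype.card_fun (α := Fin J), Fintype.card_fin, Fintype.card_fin]
          push_cast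
          rw [pow_succ, pow_succ, ← hΩ]
          rw [Fintype.card_fun, Fintype.card_bool]
          push_cast
          ring

theorem window_count {I : Type} [Fintype I] [DecidableEq I] [Nonempty I] (W : I → I → ℝ) (hW : IsHad W) (s : ℕ)
    (D τ β : ℝ) (hβ : 0 ≤ β)
    (hB : ∀ v : I → ℝ, nsq v ≤ 1 → cnt (fun ε : I → Bool => Bev W s D τ v ε) ≤ β * 2 ^ Fintype.card I)
    (J n j : ℕ) (hn : j + 1 + n ≤ J) (u : I → ℝ) (hu : nsq u ≤ 1) :
    cnt (fun L : Fin J → I → Bool => alive W s D τ n (UU W (ex L j) u) (fun i => ex L (j + 1 + i)))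
      ≤ β ^ n * Fintype.card (Fin J → I → Bool) := by
  classical
  induction j generalizing J with
  | zero =>
    obtain ⟨J, rfl⟩ : ∃ J', J = J' + 1 := ⟨J - 1, by omega⟩
    rw [seq_cons]
    have h1 : ∀ ε : I → Bool, cnt (fun L : Fin J → I → Bool =>
        alive W s D τ n (UU W (ex (Fin.cons ε L : Fin (J + 1) → I → Bool) 0) u)
          (fun i => ex (Fin.cons ε L : Fin (J + 1) → I → Bool) (0 + 1 + i)))
        ≤ β ^ n * Fintype.card (Fin J → I → Bool) := by
      intro ε
      refine le_trans (cnt_mono ?_) (alive_count W hW s D τ β hβ hB J n (by omega) (UU W ε u)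
        (by rw [UU_nsq W hW]; exact hu))
      intro L hL
      rw [ex_cons_zero] at hL
      have h2 : (fun i => ex (Fin.cons ε L : Fin (J + 1) → I → Bool) (0 + 1 + i)) = ex L := by
        funext i
        have : 0 + 1 + i = i + 1 := by ring
        rw [this, ex_cons_succ]
      rw [h2] at hL
      exact hL
    refine (sum_le_sum fun ε _ => h1 ε).trans (le_of_eq ?_)
    rw [sum_const, nsmul_eq_mul, card_univ, Fintype.card_fun (α := Fin (J + 1)), Fintype.card_fun (α := Fin J),
      Fintype.card_fin, Fintype.card_fin]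
    push_cast
    ring
  | succ j ih =>
    obtain ⟨J, rfl⟩ : ∃ J', J = J' + 1 := ⟨J - 1, by omega⟩
    rw [seq_cons]
    have h1 : ∀ ε : I → Bool, cnt (fun L : Fin J → I → Bool =>
        alive W s D τ n (UU W (ex (Fin.cons ε L : Fin (J + 1) → I → Bool) (j + 1)) u)
          (fun i => ex (Fin.cons ε L : Fin (J + 1) → I → Bool) (j + 1 + 1 + i)))
        ≤ β ^ n * Fintype.card (Fin J → I → Bool) := by
      intro ε
      refine le_trans (cnt_mono ?_) (ih J (by omega))
      intro L hL
      rw [ex_cons_succ] at hL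
      have h2 : (fun i => ex (Fin.cons ε L : Fin (J + 1) → I → Bool) (j + 1 + 1 + i))
          = fun i => ex L (j + 1 + i) := by
        funext i
        have : j + 1 + 1 + i = (j + 1 + i) + 1 := by ring
        rw [this, ex_cons_succ]
      rw [h2] at hL
      exact hL
    refine (sum_le_sum fun ε _ => h1 ε).trans (le_of_eq ?_)
    rw [sum_const, nsmul_eq_mul, card_univ, Fintype.card_fun (α := Fin (J + 1)), Fintype.card_fun (α := Fin J),
      Fintype.card_fin, Fintype.card_fin]
    push_cast
    ring

end Pool.Agent.Helper951_jl
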