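import Pool.Agent.Helper951_jl.Layer
import Pool.Agent.Helper951_jl.Seq
import Pool.Agent.Helper951_jl.Decay

/-!
Project JL (helper951, MP_fe497f_lc). Module Flatten: Theorem 6.
-/

namespace Pool.Agent.Helper951_jl

open Finset Pool.Agent.Helper951_sr

/-- the bad event of layer `j` -/
def fbad {I : Type} [Fintype I] (W : I → I → ℝ) (τ0 τ1 mu : ℝ) (L : ℕ → I → Bool) (x : I → ℝ) (j : ℕ) : Prop :=
  nsq (fS W τ0 τ1 L x j) ≤ 9 ∧ 2 * mu < nsq (high τ1 (UU W (L j) (fS W τ0 τ1 L x j)))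

/-- the flat part has small coordinates -/
theorem flatten_fS_sq {I : Type} [Fintype I] (W : I → I → ℝ) (τ0 τ1 lam : ℝ) (hτ0 : 0 < τ0) (hτ1 : 0 < τ1)
    (hlam : 2 * (τ0 + τ1) ≤ lam) (L : ℕ → I → Bool) (x : I → ℝ) (j : ℕ) (i : I) :
    fS W τ0 τ1 L x j i ^ 2 ≤ lam := by
  cases j with
  | zero =>
    change (0 : ℝ) ^ 2 ≤ lam
    nlinarith
  | succ j =>
    change (low τ0 (UU W (L j) (gS W τ0 L x j)) i + low τ1 (UU W (L j) (fS W τ0 τ1 L x j)) i) ^ 2 ≤ lam
    have h1 := low_sq_le τ0 hτ0.le (UU W (L j) (gS W τ0 L x j)) i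
    have h2 := low_sq_le τ1 hτ1.le (UU W (L j) (fS W τ0 τ1 L x j)) i
    set a := low τ0 (UU W (L j) (gS W τ0 L x j)) i
    set b := low τ1 (UU W (L j) (fS W τ0 τ1 L x j)) i
    nlinarith [sq_nonneg (a - b)]

/-- the spiky part depends only on the earlier layers -/
theorem flatten_gS_congr {I : Type} [Fintype I] (W : I → I → ℝ) (τ0 : ℝ) (L L' : ℕ → I → Bool) (x : I → ℝ) (j : ℕ)
    (h : ∀ k < j, L k = L' k) : gS W τ0 L x j = gS W τ0 L' x j := by
  induction j with
  | zero => rfl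
  | succ j ih =>
    change high τ0 (UU W (L j) (gS W τ0 L x j)) = high τ0 (UU W (L' j) (gS W τ0 L' x j))
    rw [ih fun k hk => h k (by omega), h j (by omega)]

/-- the flat part depends only on the earlier layers -/
theorem flatten_fS_congr {I : Type} [Fintype I] (W : I → I → ℝ) (τ0 τ1 : ℝ) (L L' : ℕ → I → Bool) (x : I → ℝ)
    (j : ℕ) (h : ∀ k < j, L k = L' k) : fS W τ0 τ1 L x j = fS W τ0 τ1 L' x j := by
  induction j with
  | zero => rfl
  | succ j ih =>
    funext i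
    change low τ0 (UU W (L j) (gS W τ0 L x j)) i + low τ1 (UU W (L j) (fS W τ0 τ1 L x j)) i =
      low τ0 (UU W (L' j) (gS W τ0 L' x j)) i + low τ1 (UU W (L' j) (fS W τ0 τ1 L' x j)) i
    rw [ih fun k hk => h k (by omega), h j (by omega),
      flatten_gS_congr W τ0 L L' x j fun k hk => h k (by omega)]

/-- the spiky part does not grow -/
theorem flatten_gS_nsq {I : Type} [Fintype I] [DecidableEq I] [Nonempty I] (W : I → I → ℝ) (hW : IsHad W)
    (τ0 : ℝ) (L : ℕ → I → Bool) (x : I → ℝ) (j : ℕ) : nsq (gS W τ0 L x j) ≤ nsq x := by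
  induction j with
  | zero => exact le_rfl
  | succ j ih =>
    change nsq (high τ0 (UU W (L j) (gS W τ0 L x j))) ≤ nsq x
    refine (nsq_high_le _ _).trans ?_
    rw [UU_nsq W hW]
    exact ih

theorem flatten_ex_update {I : Type} {J : ℕ} (L : Fin J → I → Bool) (j : Fin J) (ε : I → Bool) (k : ℕ)
    (hk : k < (j : ℕ)) : ex (Function.update L j ε) k = ex L k := by
  unfold ex
  have h : k < J := hk.trans j.2
  rw [dif_pos h, dif_pos h, Function.update_of_ne]
  intro h'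
  have := congrArg Fin.val h'
  simp only at this
  omega

theorem flatten_ex_self {I : Type} {J : ℕ} (L : Fin J → I → Bool) (j : Fin J) (ε : I → Bool) :
    ex (Function.update L j ε) (j : ℕ) = ε := by
  unfold ex
  rw [dif_pos j.2]
  exact Function.update_self j ε L

theorem flat_bad_count {I : Type} [Fintype I] [DecidableEq I] [Nonempty I] (W : I → I → ℝ) (hW : IsHad W)
    (J : ℕ) (τ0 τ1 lam Q mu : ℝ) (hτ0 : 0 < τ0) (hτ1 : 288 * Real.log (2 * Fintype.card I) ≤ τ1 * Fintype.card I)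
    (hτ1' : 0 < τ1) (hlam : 2 * (τ0 + τ1) ≤ lam) (hQ : 0 ≤ Q)
    (hmu : mu = 16 * lam * (Q + 2 * Real.log (2 * Fintype.card I))) (x : I → ℝ) :
    cnt (fun L : Fin J → I → Bool => ∃ j < J, fbad W τ0 τ1 mu (ex L) x j)
      ≤ J * Real.exp (-Q) * Fintype.card (Fin J → I → Bool) := by
  classical
  have h0 : cnt (fun L : Fin J → I → Bool => ∃ j < J, fbad W τ0 τ1 mu (ex L) x j)
      ≤ cnt (fun L : Fin J → I → Bool => ∃ j ∈ (univ : Finset (Fin J)), fbad W τ0 τ1 mu (ex L) x (j : ℕ)) := by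
    apply cnt_mono
    rintro L ⟨j, hj, h⟩
    exact ⟨⟨j, hj⟩, mem_univ _, h⟩
  refine h0.trans ((cnt_exists_le _ _).trans ?_)
  have h1 : ∀ j ∈ (univ : Finset (Fin J)), cnt (fun L : Fin J → I → Bool => fbad W τ0 τ1 mu (ex L) x (j : ℕ))
      ≤ Real.exp (-Q) * Fintype.card (Fin J → I → Bool) := by
    intro j _
    apply seq_update J _ j
    intro L
    have hΩ : (Fintype.card (I → Bool) : ℝ) = 2 ^ Fintype.card I := by
      rw [Fintype.card_fun, Fintype.card_bool]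
      push_cast
      rfl
    rw [hΩ]
    set w : I → ℝ := fS W τ0 τ1 (ex L) x (j : ℕ) with hw
    have h2 : ∀ ε : I → Bool, fS W τ0 τ1 (ex (Function.update L j ε)) x (j : ℕ) = w := by
      intro ε
      exact flatten_fS_congr W τ0 τ1 _ _ x _ fun k hk => flatten_ex_update L j ε k hk
    have h3 : ∀ ε : I → Bool, fbad W τ0 τ1 mu (ex (Function.update L j ε)) x (j : ℕ) ↔
        (nsq w ≤ 9 ∧ 2 * mu < nsq (high τ1 (UU W ε w))) := by
      intro ε
      unfold fbad
      rw [h2, flatten_ex_self]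
    simp_rw [h3]
    by_cases h9 : nsq w ≤ 9
    · refine le_trans (cnt_mono (Q := fun ε : I → Bool =>
        2 * (16 * lam * (Q + 2 * Real.log (2 * Fintype.card I))) < nsq (high τ1 (UU W ε w))) ?_)
        (flat_layer W hW w 9 lam Q τ1 h9 (by norm_num) (by linarith)
          (flatten_fS_sq W τ0 τ1 lam hτ0 hτ1' hlam (ex L) x _) hQ (by linarith))
      rintro ε ⟨-, h⟩
      rw [hmu] at h
      exact h
    · have h4 : cnt (fun ε : I → Bool => nsq w ≤ 9 ∧ 2 * mu < nsq (high τ1 (UU W ε w)))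
          ≤ cnt (fun _ : I → Bool => False) := by
        apply cnt_mono
        rintro ε ⟨h, -⟩
        exact h9 h
      refine h4.trans ?_
      rw [cnt_eq]
      simp only [filter_false, card_empty, Nat.cast_zero]
      positivity
  refine (sum_le_sum h1).trans (le_of_eq ?_)
  rw [sum_const, nsmul_eq_mul, card_univ, Fintype.card_fin]
  ring

theorem flat_det {I : Type} [Fintype I] [DecidableEq I] [Nonempty I] (W : I → I → ℝ) (hW : IsHad W)
    (J : ℕ) (τ0 τ1 lam mu : ℝ) (hτ0 : 0 < τ0) (hτ1' : 0 < τ1) (hlam : 2 * (τ0 + τ1) ≤ lam) (hmu : 0 ≤ mu)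
    (hJ : J * Real.sqrt (2 * mu) ≤ 1) (L : ℕ → I → Bool) (x : I → ℝ) (hx : nsq x = 1)
    (hgood : ∀ j < J, ¬ fbad W τ0 τ1 mu L x j) :
    (∀ i, traj W L x J i = gS W τ0 L x J i + fS W τ0 τ1 L x J i + eS W τ0 τ1 L x J i) ∧
      (∀ i, fS W τ0 τ1 L x J i ^ 2 ≤ lam) ∧ nm (eS W τ0 τ1 L x J) ≤ J * Real.sqrt (2 * mu) := by
  have key : ∀ n ≤ J, (∀ i, traj W L x n i = gS W τ0 L x n i + fS W τ0 τ1 L x n i + eS W τ0 τ1 L x n i) ∧
      nm (eS W τ0 τ1 L x n) ≤ n * Real.sqrt (2 * mu) := by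
    intro n
    induction n with
    | zero =>
      intro _
      refine ⟨fun i => ?_, ?_⟩
      · change x i = x i + 0 + 0
        ring
      · change nm (fun _ : I => (0 : ℝ)) ≤ _
        rw [nm_zero]
        simp
    | succ n ih =>
      intro hn
      obtain ⟨ih1, ih2⟩ := ih (by omega)
      have hs0 : 0 ≤ Real.sqrt (2 * mu) := Real.sqrt_nonneg _
      have hnJ : (n : ℝ) * Real.sqrt (2 * mu) ≤ 1 := by
        refine le_trans ?_ hJ
        have : (n : ℝ) ≤ J := by exact_mod_cast (by omega : n ≤ J)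
        exact mul_le_mul_of_nonneg_right this hs0
      have hf : nm (fS W τ0 τ1 L x n) ≤ 3 := by
        have e1 : fS W τ0 τ1 L x n = fun i => (traj W L x n i - gS W τ0 L x n i) - eS W τ0 τ1 L x n i := by
          funext i
          rw [ih1 i]
          ring
        have h1 := nm_sub_le (fun i => traj W L x n i - gS W τ0 L x n i) (eS W τ0 τ1 L x n)
        have h2 := nm_sub_le (traj W L x n) (gS W τ0 L x n)
        have h3 : nm (traj W L x n) = 1 := by
          unfold nm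
          rw [traj_norm W hW, hx, Real.sqrt_one]
        have h4 : nm (gS W τ0 L x n) ≤ 1 := by
          apply nm_le_of_nsq_le _ _ zero_le_one
          rw [one_pow, ← hx]
          exact flatten_gS_nsq W hW τ0 L x n
        rw [e1]
        linarith
      have hf9 : nsq (fS W τ0 τ1 L x n) ≤ 9 := by
        rw [← nm_sq]
        have := nm_nonneg (fS W τ0 τ1 L x n)
        nlinarith
      have hng := hgood n (by omega)
      have hh : nsq (high τ1 (UU W (L n) (fS W τ0 τ1 L x n))) ≤ 2 * mu := by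
        by_contra hcon
        exact hng ⟨hf9, not_le.1 hcon⟩
      have hh2 : nm (high τ1 (UU W (L n) (fS W τ0 τ1 L x n))) ≤ Real.sqrt (2 * mu) := by
        unfold nm
        exact Real.sqrt_le_sqrt hh
      refine ⟨fun i => ?_, ?_⟩
      · change UU W (L n) (traj W L x n) i =
          high τ0 (UU W (L n) (gS W τ0 L x n)) i +
          (low τ0 (UU W (L n) (gS W τ0 L x n)) i + low τ1 (UU W (L n) (fS W τ0 τ1 L x n)) i) +
          (UU W (L n) (eS W τ0 τ1 L x n) i + high τ1 (UU W (L n) (fS W τ0 τ1 L x n)) i)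
        have e1 : traj W L x n = fun i => (gS W τ0 L x n i + fS W τ0 τ1 L x n i) + eS W τ0 τ1 L x n i := by
          funext i
          exact ih1 i
        have e2 : UU W (L n) (traj W L x n) i = UU W (L n) (gS W τ0 L x n) i + UU W (L n) (fS W τ0 τ1 L x n) i
            + UU W (L n) (eS W τ0 τ1 L x n) i := by
          rw [e1, UU_add W (L n) (fun i => gS W τ0 L x n i + fS W τ0 τ1 L x n i) (eS W τ0 τ1 L x n),
            UU_add W (L n) (gS W τ0 L x n) (fS W τ0 τ1 L x n)]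
        have e3 := low_add_high τ0 (UU W (L n) (gS W τ0 L x n)) i
        have e4 := low_add_high τ1 (UU W (L n) (fS W τ0 τ1 L x n)) i
        rw [e2]
        linarith
      · change nm (fun i => UU W (L n) (eS W τ0 τ1 L x n) i + high τ1 (UU W (L n) (fS W τ0 τ1 L x n)) i) ≤ _
        refine (nm_add_le _ _).trans ?_
        rw [UU_nm W hW]
        push_cast
        linarith
  obtain ⟨h1, h2⟩ := key J le_rfl
  exact ⟨h1, flatten_fS_sq W τ0 τ1 lam hτ0 hτ1' hlam L x J, h2⟩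

/-- Theorem 6, general parameters. -/
theorem flatten {I : Type} [Fintype I] [DecidableEq I] [Nonempty I] (W : I → I → ℝ) (hW : IsHad W)
    (p cm w J s M : ℕ) (D : ℝ) (hp : 1 ≤ p) (hI : Fintype.card I = 2 ^ p) (hD0 : 0 < D)
    (hD : D * (2 ^ 14 * p ^ 2) ≤ 1) (hs : 128 * 2 ^ cm * s ≤ 2 ^ p) (hJ : p * w + 1 ≤ J)
    (hM : 256 * J * p ≤ M)
    (τ0 τ1 lam Q mu : ℝ) (hτ0 : 0 < τ0) (hτs : 1 / τ0 < s + 1)
    (hτ1 : 288 * Real.log (2 * 2 ^ p) ≤ τ1 * 2 ^ p)
    (hlam : 2 * (τ0 + τ1) ≤ lam) (hQ : 0 ≤ Q)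
    (hmu : mu = 16 * lam * (Q + 2 * Real.log (2 * 2 ^ p)))
    (hJmu : (M * (J + 1) : ℕ) * Real.sqrt (2 * mu) ≤ 1) (x : I → ℝ) (hx : nsq x = 1) :
    cnt (fun L : Fin (M * (J + 1)) → I → Bool => Good W p cm w (M * (J + 1)) s D (ex L) ∧
        ¬ ∃ f : I → ℝ, (∀ i, f i ^ 2 ≤ lam) ∧
          nm (fun i => traj W (ex L) x (M * (J + 1)) i - f i)
            ≤ 1 / 2 ^ p + (M * (J + 1) : ℕ) * Real.sqrt (2 * mu))
      ≤ (M * (J + 1) : ℕ) * Real.exp (-Q) * Fintype.card (Fin (M * (J + 1)) → I → Bool) := by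
  have hI' : (Fintype.card I : ℝ) = 2 ^ p := by
    rw [hI]
    push_cast
    rfl
  have hlogpos : 0 < Real.log (2 * 2 ^ p) := by
    apply Real.log_pos
    have : (1 : ℝ) ≤ 2 ^ p := one_le_pow₀ (by norm_num)
    linarith
  have h2p : (0 : ℝ) < 2 ^ p := by positivity
  have hτ1' : 0 < τ1 := by
    by_contra hneg
    push Not at hneg
    have h1 : τ1 * 2 ^ p ≤ 0 := mul_nonpos_of_nonpos_of_nonneg hneg h2p.le
    linarith
  have hlam0 : 0 < lam := by linarith
  have hmu0 : 0 ≤ mu := by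
    rw [hmu]
    positivity
  refine le_trans (cnt_mono ?_) (flat_bad_count W hW (M * (J + 1)) τ0 τ1 lam Q mu hτ0
    (by rw [hI']; exact hτ1) hτ1' hlam hQ (by rw [hI']; exact hmu) x)
  rintro L ⟨hG, hnf⟩
  by_contra hcon
  push Not at hcon
  apply hnf
  obtain ⟨h1, h2, h3⟩ := flat_det W hW (M * (J + 1)) τ0 τ1 lam mu hτ0 hτ1' hlam hmu0 hJmu (ex L) x hx hcon
  refine ⟨fS W τ0 τ1 (ex L) x (M * (J + 1)), h2, ?_⟩
  have e1 : (fun i => traj W (ex L) x (M * (J + 1)) i - fS W τ0 τ1 (ex L) x (M * (J + 1)) i)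
      = fun i => gS W τ0 (ex L) x (M * (J + 1)) i + eS W τ0 τ1 (ex L) x (M * (J + 1)) i := by
    funext i
    rw [h1 i]
    ring
  rw [e1]
  refine (nm_add_le _ _).trans (add_le_add ?_ h3)
  -- the spiky part decays
  have hS : ∀ j, ∃ S : Finset I, S.card ≤ s ∧
      gS W τ0 (ex L) x (j + 1) = cut S (UU W (ex L j) (gS W τ0 (ex L) x j)) := by
    intro j
    obtain ⟨S, hS1, -, hS3⟩ := high_eq_cut τ0 hτ0 (UU W (ex L j) (gS W τ0 (ex L) x j))
    refine ⟨S, ?_, hS1⟩
    have h4 : (S.card : ℝ) * τ0 ≤ 1 := by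
      refine hS3.trans ?_
      rw [UU_nsq W hW, ← hx]
      exact flatten_gS_nsq W hW τ0 (ex L) x j
    have h5 : (S.card : ℝ) ≤ 1 / τ0 := by
      rw [le_div_iff₀ hτ0]
      exact h4
    have h6 : (S.card : ℝ) < s + 1 := lt_of_le_of_lt h5 hτs
    have h7 : S.card < s + 1 := by exact_mod_cast h6
    omega
  choose S hS1 hS2 using hS
  have hdec := decay W hW p cm w J s M D hp hI hD0 hD hs hJ (ex L) hG (gS W τ0 (ex L) x) S hS1 hS2
  have hx1 : nm (gS W τ0 (ex L) x 0) = 1 := by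
    change nm x = 1
    unfold nm
    rw [hx, Real.sqrt_one]
  rw [hx1, mul_one] at hdec
  refine hdec.trans ?_
  have hJ0 : (0 : ℝ) < J := by
    have : 0 < J := by omega
    exact_mod_cast this
  have hM' : (256 : ℝ) * J * p ≤ M := by exact_mod_cast hM
  have h8 : -(M : ℝ) / (128 * J) ≤ -(2 * p) := by
    rw [div_le_iff₀ (by positivity)]
    nlinarith
  have h9 : Real.exp (-(M : ℝ) / (128 * J)) ≤ Real.exp (-(2 * p)) := Real.exp_le_exp.2 h8
  refine h9.trans ?_
  rw [Real.exp_neg, one_div]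
  apply inv_anti₀ h2p
  have h10 : (2 : ℝ) ≤ Real.exp 2 := by
    have := Real.add_one_le_exp (2 : ℝ)
    linarith
  calc (2 : ℝ) ^ p ≤ (Real.exp 2) ^ p := pow_le_pow_left₀ (by norm_num) h10 p
    _ = Real.exp (2 * p) := by
        rw [← Real.exp_nat_mul]
        ring_nf

end Pool.Agent.Helper951_jl
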