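import Pool.Agent.Helper951_jl.Basic
import Pool.Agent.Helper951_sr.Cost
import Pool.Agent.Helper951_sr.FastRip

/-!
Project JL (helper951, MP_fe497f_lc). Module Trans: cost and linearity of the transform.
-/

namespace Pool.Agent.Helper951_jl

open Finset Pool.Agent.Helper951_sr

theorem UU_fast {I : Type} [Fintype I] [DecidableEq I] (W : I → I → ℝ) (T : ℕ) (hT : FastMap T (mv W))
    (ε : I → Bool) : FastMap (T + 4 * Fintype.card I) (UU W ε) := by
  have h1 := fast_comp (fast_comp (fast_diag (fun i : I => sg (ε i))) hT)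
    (fast_diag (fun _ : I => (Real.sqrt (Fintype.card I))⁻¹))
  refine fast_congr (fast_mono h1 (by omega)) fun x j => ?_
  unfold UU mv
  rfl

theorem traj_fast {I : Type} [Fintype I] [DecidableEq I] (W : I → I → ℝ) (T : ℕ) (hT : FastMap T (mv W))
    (L : ℕ → I → Bool) (J : ℕ) : FastMap (J * (T + 4 * Fintype.card I)) (fun x => traj W L x J) := by
  induction J with
  | zero =>
    rw [zero_mul]
    exact fast_reindex (fun i : I => i)
  | succ J ih =>
    rw [Nat.succ_mul]
    exact fast_comp ih (UU_fast W T hT (L J))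

theorem traj_nsq {I : Type} [Fintype I] [DecidableEq I] [Nonempty I] (W : I → I → ℝ) (hW : IsHad W)
    (L : ℕ → I → Bool) (x : I → ℝ) (J : ℕ) : nsq (traj W L x J) = nsq x := by
  induction J with
  | zero => rfl
  | succ J ih =>
    change nsq (UU W (L J) (traj W L x J)) = nsq x
    rw [UU_nsq W hW, ih]

/-- The matrix of the trajectory map. -/
theorem traj_mv {I : Type} [Fintype I] [DecidableEq I] (W : I → I → ℝ) (L : ℕ → I → Bool) (J : ℕ) :
    ∃ R : I → I → ℝ, ∀ x : I → ℝ, mv R x = traj W L x J := by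
  induction J with
  | zero =>
    refine ⟨fun j i => if i = j then 1 else 0, fun x => ?_⟩
    funext j
    change ∑ i, (if i = j then (1 : ℝ) else 0) * x i = x j
    simp
  | succ J ih =>
    obtain ⟨R, hR⟩ := ih
    refine ⟨fun j i => (Real.sqrt (Fintype.card I))⁻¹ * ∑ k, W j k * (sg (L J k) * R k i), fun x => ?_⟩
    funext j
    change ∑ i, ((Real.sqrt (Fintype.card I))⁻¹ * ∑ k, W j k * (sg (L J k) * R k i)) * x i =
      (Real.sqrt (Fintype.card I))⁻¹ * ∑ k, W j k * (sg (L J k) * traj W L x J k)
    rw [← hR x]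
    simp only [mv, mul_sum, sum_mul]
    rw [sum_comm]
    refine sum_congr rfl fun k _ => sum_congr rfl fun i _ => ?_
    ring

end Pool.Agent.Helper951_jl
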