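import Pool.Agent.Helper951_jl.GoodCount
import Pool.Agent.Helper951_jl.Flatten
import Pool.Agent.Helper951_jl.Compress
import Pool.Agent.Helper951_jl.Trans
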