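import Pool.Agent.Helper951_jl.JDefs

/-!
Project JL (helper951, MP_fe497f_lc). Module Basic: counting, norms, one layer.
-/

namespace Pool.Agent.Helper951_jl

open Finset Pool.Agent.Helper951_sr

/-! ### Counting -/

theorem cnt_eq {α : Type} [Fintype α] (P : α → Prop) [DecidablePred P] :
    cnt P = ((univ.filter P).card : ℝ) := by
  unfold cnt
  congr 1
  congr

theorem cnt_nonneg {α : Type} [Fintype α] (P : α → Prop) : 0 ≤ cnt P := by
  unfold cnt
  positivity

theorem cnt_mono {α : Type} [Fintype α] {P Q : α → Prop} (h : ∀ a, P a → Q a) : cnt P ≤ cnt Q := by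
  classical
  rw [cnt_eq, cnt_eq]
  exact_mod_cast card_le_card (fun a ha => by
    rw [mem_filter] at ha ⊢
    exact ⟨ha.1, h a ha.2⟩)

theorem cnt_le_card {α : Type} [Fintype α] (P : α → Prop) : cnt P ≤ Fintype.card α := by
  classical
  rw [cnt_eq]
  exact_mod_cast card_le_univ _

theorem cnt_or_le {α : Type} [Fintype α] (P Q : α → Prop) : cnt (fun a => P a ∨ Q a) ≤ cnt P + cnt Q := by
  classical
  rw [cnt_eq, cnt_eq, cnt_eq, filter_or]
  exact_mod_cast card_union_le _ _

theorem cnt_exists_le {α ι : Type} [Fintype α] (s : Finset ι) (P : ι → α → Prop) :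
    cnt (fun a => ∃ i ∈ s, P i a) ≤ ∑ i ∈ s, cnt (P i) := by
  classical
  have h : (univ.filter (fun a => ∃ i ∈ s, P i a)) ⊆ s.biUnion (fun i => univ.filter (P i)) := by
    intro a ha
    rw [mem_filter] at ha
    obtain ⟨-, i, hi, hP⟩ := ha
    rw [mem_biUnion]
    exact ⟨i, hi, by simp [hP]⟩
  rw [cnt_eq]
  have h2 := (card_le_card h).trans card_biUnion_le
  calc ((univ.filter (fun a => ∃ i ∈ s, P i a)).card : ℝ) ≤ ((∑ i ∈ s, (univ.filter (P i)).card : ℕ) : ℝ) := by
        exact_mod_cast h2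
    _ = ∑ i ∈ s, cnt (P i) := by
        push_cast
        exact sum_congr rfl fun i _ => (cnt_eq (P i)).symm

theorem cnt_add_not {α : Type} [Fintype α] (P : α → Prop) : cnt P + cnt (fun a => ¬ P a) = Fintype.card α := by
  classical
  rw [cnt_eq, cnt_eq]
  have := card_filter_add_card_filter_not (s := (univ : Finset α)) P
  rw [card_univ] at this
  exact_mod_cast this

theorem cnt_prod {α β : Type} [Fintype α] [Fintype β] (P : α × β → Prop) :
    cnt P = ∑ a, cnt (fun b => P (a, b)) := by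
  classical
  simp only [cnt_eq, card_filter]
  push_cast
  rw [Fintype.sum_prod_type]

theorem cnt_equiv {α β : Type} [Fintype α] [Fintype β] (e : α ≃ β) (P : β → Prop) :
    cnt (fun a => P (e a)) = cnt P := by
  classical
  simp only [cnt_eq, card_filter]
  push_cast
  exact Equiv.sum_comp e (fun b => if P b then (1 : ℝ) else 0)

/-! ### Norms -/

theorem nsq_nonneg {I : Type} [Fintype I] (x : I → ℝ) : 0 ≤ nsq x := sum_nonneg fun _ _ => sq_nonneg _

theorem nm_nonneg {I : Type} [Fintype I] (x : I → ℝ) : 0 ≤ nm x := Real.sqrt_nonneg _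

theorem nm_sq {I : Type} [Fintype I] (x : I → ℝ) : nm x ^ 2 = nsq x := Real.sq_sqrt (nsq_nonneg x)

theorem nm_zero {I : Type} [Fintype I] : nm (fun _ : I => (0 : ℝ)) = 0 := by
  simp [nm, nsq]

theorem nm_eq_zero {I : Type} [Fintype I] (x : I → ℝ) (h : nm x = 0) : ∀ i, x i = 0 := by
  have h1 : nsq x = 0 := by rw [← nm_sq, h]; norm_num
  intro i
  have h2 := (sum_eq_zero_iff_of_nonneg (fun i _ => sq_nonneg (x i))).1 h1 i (mem_univ i)
  exact pow_eq_zero_iff (by norm_num) |>.1 h2

theorem nm_le_of_nsq_le {I : Type} [Fintype I] (x : I → ℝ) (a : ℝ) (ha : 0 ≤ a) (h : nsq x ≤ a ^ 2) : nm x ≤ a := by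
  unfold nm
  rw [Real.sqrt_le_left ha]
  exact h

theorem nm_smul {I : Type} [Fintype I] (c : ℝ) (x : I → ℝ) : nm (fun i => c * x i) = |c| * nm x := by
  have h : nsq (fun i => c * x i) = c ^ 2 * nsq x := by
    unfold nsq
    rw [mul_sum]
    exact sum_congr rfl fun i _ => by ring
  unfold nm
  rw [h, Real.sqrt_mul (sq_nonneg c), Real.sqrt_sq_eq_abs]

theorem nm_neg {I : Type} [Fintype I] (x : I → ℝ) : nm (fun i => -x i) = nm x := by
  unfold nm nsq
  simp

theorem inner_le {I : Type} [Fintype I] (x y : I → ℝ) : ∑ i, x i * y i ≤ nm x * nm y := by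
  have h := sum_mul_sq_le_sq_mul_sq univ x y
  have h2 : ∑ i, x i * y i ≤ Real.sqrt ((∑ i, x i ^ 2) * ∑ i, y i ^ 2) := by
    apply Real.le_sqrt_of_sq_le
    exact h
  rw [Real.sqrt_mul (sum_nonneg fun i _ => sq_nonneg (x i))] at h2
  exact h2

theorem nsq_add {I : Type} [Fintype I] (x y : I → ℝ) :
    nsq (fun i => x i + y i) = nsq x + 2 * ∑ i, x i * y i + nsq y := by
  unfold nsq
  rw [mul_sum, ← sum_add_distrib, ← sum_add_distrib]
  exact sum_congr rfl fun i _ => by ring

theorem nsq_sub {I : Type} [Fintype I] (x y : I → ℝ) :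
    nsq (fun i => x i - y i) = nsq x - 2 * ∑ i, x i * y i + nsq y := by
  unfold nsq
  rw [mul_sum, ← sum_sub_distrib, ← sum_add_distrib]
  exact sum_congr rfl fun i _ => by ring

theorem nm_add_le {I : Type} [Fintype I] (x y : I → ℝ) : nm (fun i => x i + y i) ≤ nm x + nm y := by
  apply nm_le_of_nsq_le _ _ (add_nonneg (nm_nonneg x) (nm_nonneg y))
  rw [nsq_add, add_sq, nm_sq, nm_sq]
  have := inner_le x y
  nlinarith

theorem nm_sub_le {I : Type} [Fintype I] (x y : I → ℝ) : nm (fun i => x i - y i) ≤ nm x + nm y := by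
  have h := nm_add_le x (fun i => -y i)
  rw [nm_neg] at h
  simpa [sub_eq_add_neg] using h

theorem nm_sub_comm {I : Type} [Fintype I] (x y : I → ℝ) : nm (fun i => x i - y i) = nm (fun i => y i - x i) := by
  rw [← nm_neg (fun i => x i - y i)]
  congr 1
  funext i
  ring

/-- triangle inequality for differences -/
theorem nm_tri {I : Type} [Fintype I] (x y z : I → ℝ) :
    nm (fun i => x i - z i) ≤ nm (fun i => x i - y i) + nm (fun i => y i - z i) := by
  have h := nm_add_le (fun i => x i - y i) (fun i => y i - z i)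
  simpa using h

/-- reverse triangle inequality -/
theorem nm_le_add {I : Type} [Fintype I] (x y : I → ℝ) : nm x ≤ nm y + nm (fun i => x i - y i) := by
  have h := nm_add_le y (fun i => x i - y i)
  simpa using h

/-! ### Restrictions -/

theorem nsq_cut_compl {I : Type} [Fintype I] [DecidableEq I] (S : Finset I) (x : I → ℝ) :
    nsq (cut S x) + nsq (fun i => x i - cut S x i) = nsq x := by
  unfold nsq cut
  rw [← sum_add_distrib]
  refine sum_congr rfl fun i _ => ?_
  by_cases h : i ∈ S <;> simp [h]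

theorem nsq_cut_le {I : Type} [Fintype I] [DecidableEq I] (S : Finset I) (x : I → ℝ) : nsq (cut S x) ≤ nsq x := by
  have h := nsq_cut_compl S x
  have h2 := nsq_nonneg (fun i => x i - cut S x i)
  linarith

theorem nm_cut_le {I : Type} [Fintype I] [DecidableEq I] (S : Finset I) (x : I → ℝ) : nm (cut S x) ≤ nm x :=
  Real.sqrt_le_sqrt (nsq_cut_le S x)

theorem inner_cut {I : Type} [Fintype I] [DecidableEq I] (S : Finset I) (x y : I → ℝ) :
    ∑ i, cut S x i * y i = ∑ i, x i * cut S y i := by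
  refine sum_congr rfl fun i _ => ?_
  unfold cut
  split_ifs <;> ring

theorem sz_cut_le {I : Type} [Fintype I] [DecidableEq I] (S : Finset I) (x : I → ℝ) : sz (cut S x) ≤ S.card := by
  unfold sz cut
  apply card_le_card
  intro i hi
  rw [mem_filter] at hi
  by_contra h
  simp [h] at hi

theorem low_add_high {I : Type} (τ : ℝ) (v : I → ℝ) (i : I) : low τ v i + high τ v i = v i := by
  unfold low high
  split_ifs <;> ring

theorem nsq_low_add_high {I : Type} [Fintype I] (τ : ℝ) (v : I → ℝ) : nsq (low τ v) + nsq (high τ v) = nsq v := by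
  unfold nsq low high
  rw [← sum_add_distrib]
  refine sum_congr rfl fun i _ => ?_
  split_ifs <;> ring

theorem nsq_low_le {I : Type} [Fintype I] (τ : ℝ) (v : I → ℝ) : nsq (low τ v) ≤ nsq v := by
  have h := nsq_low_add_high τ v
  have h2 := nsq_nonneg (high τ v)
  linarith

theorem nsq_high_le {I : Type} [Fintype I] (τ : ℝ) (v : I → ℝ) : nsq (high τ v) ≤ nsq v := by
  have h := nsq_low_add_high τ v
  have h2 := nsq_nonneg (low τ v)
  linarith

theorem low_sq_le {I : Type} (τ : ℝ) (hτ : 0 ≤ τ) (v : I → ℝ) (i : I) : low τ v i ^ 2 ≤ τ := by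
  unfold low
  split_ifs with h
  · exact h
  · simpa using hτ

/-- `high` is a restriction to a set of size less than `nsq v / τ`. -/
theorem high_eq_cut {I : Type} [Fintype I] [DecidableEq I] (τ : ℝ) (hτ : 0 < τ) (v : I → ℝ) :
    ∃ S : Finset I, high τ v = cut S v ∧ low τ v = cut Sᶜ v ∧ (S.card : ℝ) * τ ≤ nsq v := by
  classical
  refine ⟨univ.filter (fun i => ¬ v i ^ 2 ≤ τ), ?_, ?_, ?_⟩
  · funext i
    unfold high cut
    by_cases h : v i ^ 2 ≤ τ
    · simp [h]
    · simp only [mem_filter, mem_univ, true_and, h, not_false_eq_true, if_true, if_false]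
  · funext i
    unfold low cut
    by_cases h : v i ^ 2 ≤ τ
    · simp [h]
    · simp [h]
  · unfold nsq
    calc ((univ.filter (fun i => ¬ v i ^ 2 ≤ τ)).card : ℝ) * τ
        = ∑ i ∈ univ.filter (fun i => ¬ v i ^ 2 ≤ τ), τ := by rw [sum_const, nsmul_eq_mul]
      _ ≤ ∑ i ∈ univ.filter (fun i => ¬ v i ^ 2 ≤ τ), v i ^ 2 := by
          refine sum_le_sum fun i hi => ?_
          rw [mem_filter] at hi
          exact (not_le.1 hi.2).le
      _ ≤ ∑ i, v i ^ 2 := sum_le_sum_of_subset_of_nonneg (filter_subset _ _) fun i _ _ => sq_nonneg _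

/-- the same with the mass of the large part -/
theorem high_eq_cut' {I : Type} [Fintype I] [DecidableEq I] (τ : ℝ) (hτ : 0 < τ) (v : I → ℝ) :
    ∃ S : Finset I, high τ v = cut S v ∧ low τ v = cut Sᶜ v ∧ (S.card : ℝ) * τ ≤ nsq (high τ v) := by
  classical
  refine ⟨univ.filter (fun i => ¬ v i ^ 2 ≤ τ), ?_, ?_, ?_⟩
  · funext i
    unfold high cut
    by_cases h : v i ^ 2 ≤ τ
    · simp [h]
    · simp only [mem_filter, mem_univ, true_and, h, not_false_eq_true, if_true, if_false]
  · funext i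
    unfold low cut
    by_cases h : v i ^ 2 ≤ τ
    · simp [h]
    · simp [h]
  · unfold nsq high
    calc ((univ.filter (fun i => ¬ v i ^ 2 ≤ τ)).card : ℝ) * τ
        = ∑ i ∈ univ.filter (fun i => ¬ v i ^ 2 ≤ τ), τ := by rw [sum_const, nsmul_eq_mul]
      _ ≤ ∑ i ∈ univ.filter (fun i => ¬ v i ^ 2 ≤ τ), (if v i ^ 2 ≤ τ then 0 else v i) ^ 2 := by
          refine sum_le_sum fun i hi => ?_
          rw [mem_filter] at hi
          rw [if_neg hi.2]
          exact (not_le.1 hi.2).le
      _ ≤ ∑ i, (if v i ^ 2 ≤ τ then 0 else v i) ^ 2 :=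
          sum_le_sum_of_subset_of_nonneg (filter_subset _ _) fun i _ _ => sq_nonneg _

/-! ### One layer -/

theorem UU_add {I : Type} [Fintype I] (W : I → I → ℝ) (ε : I → Bool) (x y : I → ℝ) (j : I) :
    UU W ε (fun i => x i + y i) j = UU W ε x j + UU W ε y j := by
  unfold UU
  rw [← mul_add, ← sum_add_distrib]
  congr 1
  exact sum_congr rfl fun i _ => by ring

theorem UU_sub {I : Type} [Fintype I] (W : I → I → ℝ) (ε : I → Bool) (x y : I → ℝ) (j : I) :
    UU W ε (fun i => x i - y i) j = UU W ε x j - UU W ε y j := by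
  unfold UU
  rw [← mul_sub, ← sum_sub_distrib]
  congr 1
  exact sum_congr rfl fun i _ => by ring

theorem UU_smul {I : Type} [Fintype I] (W : I → I → ℝ) (ε : I → Bool) (c : ℝ) (x : I → ℝ) (j : I) :
    UU W ε (fun i => c * x i) j = c * UU W ε x j := by
  unfold UU
  simp only [mul_sum]
  exact sum_congr rfl fun i _ => by ring

theorem UU_zero {I : Type} [Fintype I] (W : I → I → ℝ) (ε : I → Bool) (j : I) :
    UU W ε (fun _ => 0) j = 0 := by
  unfold UU
  simp

theorem basic_sg_sq (b : Bool) : sg b * sg b = 1 := by cases b <;> norm_num [sg]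

theorem basic_sqrt {I : Type} [Fintype I] [Nonempty I] :
    ((Real.sqrt (Fintype.card I))⁻¹) * ((Real.sqrt (Fintype.card I))⁻¹) * (Fintype.card I : ℝ) = 1 := by
  have h : (0 : ℝ) < Fintype.card I := by exact_mod_cast Fintype.card_pos
  rw [← mul_inv, Real.mul_self_sqrt h.le]
  field_simp

/-- the Hadamard matrix has columns of squared norm `N` -/
theorem basic_had {I : Type} [Fintype I] [DecidableEq I] (W : I → I → ℝ) (hW : IsHad W) (y : I → ℝ) :
    ∑ j, (∑ i, W j i * y i) ^ 2 = Fintype.card I * nsq y := by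
  obtain ⟨-, hW2, hW3⟩ := hW
  have h1 : ∀ j, (∑ i, W j i * y i) ^ 2 = ∑ i, ∑ k, (y i * y k) * (W i j * W k j) := by
    intro j
    rw [sq, sum_mul_sum]
    refine sum_congr rfl fun i _ => sum_congr rfl fun k _ => ?_
    rw [hW2 j i, hW2 j k]
    ring
  simp_rw [h1]
  rw [sum_comm]
  have h2 : ∀ i, ∑ j, ∑ k, (y i * y k) * (W i j * W k j) = Fintype.card I * y i ^ 2 := by
    intro i
    rw [sum_comm]
    have h3 : ∀ k, ∑ j, (y i * y k) * (W i j * W k j) = if i = k then y i * y k * Fintype.card I else 0 := by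
      intro k
      rw [← mul_sum, hW3 i k]
      split_ifs <;> ring
    simp_rw [h3]
    rw [sum_ite_eq]
    simp only [mem_univ, if_true]
    ring
  simp_rw [h2]
  unfold nsq
  rw [mul_sum]

theorem basic_had2 {I : Type} [Fintype I] [DecidableEq I] (W : I → I → ℝ) (hW : IsHad W) (z : I → ℝ) (k : I) :
    ∑ j, W k j * (∑ i, W j i * z i) = Fintype.card I * z k := by
  obtain ⟨-, hW2, hW3⟩ := hW
  simp_rw [mul_sum]
  rw [sum_comm]
  have h : ∀ i, ∑ j, W k j * (W j i * z i) = if k = i then (Fintype.card I : ℝ) * z i else 0 := by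
    intro i
    have h1 : ∀ j, W k j * (W j i * z i) = W k j * W i j * z i := by
      intro j
      rw [hW2 j i]
      ring
    simp_rw [h1]
    rw [← sum_mul, hW3 k i]
    split_ifs <;> ring
  simp_rw [h]
  rw [sum_ite_eq]
  simp

theorem UU_nsq {I : Type} [Fintype I] [DecidableEq I] [Nonempty I] (W : I → I → ℝ) (hW : IsHad W) (ε : I → Bool)
    (x : I → ℝ) : nsq (UU W ε x) = nsq x := by
  have h1 : nsq (UU W ε x) = ((Real.sqrt (Fintype.card I))⁻¹) ^ 2 * ∑ j, (∑ i, W j i * (sg (ε i) * x i)) ^ 2 := by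
    unfold nsq UU
    rw [mul_sum]
    exact sum_congr rfl fun j _ => by ring
  rw [h1, basic_had W hW]
  have h2 : nsq (fun i => sg (ε i) * x i) = nsq x := by
    unfold nsq
    refine sum_congr rfl fun i _ => ?_
    have := basic_sg_sq (ε i)
    nlinarith
  rw [h2, sq, ← mul_assoc, basic_sqrt, one_mul]

theorem UU_nm {I : Type} [Fintype I] [DecidableEq I] [Nonempty I] (W : I → I → ℝ) (hW : IsHad W) (ε : I → Bool)
    (x : I → ℝ) : nm (UU W ε x) = nm x := by
  unfold nm
  rw [UU_nsq W hW]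

/-- the layers preserve distances -/
theorem UU_dist {I : Type} [Fintype I] [DecidableEq I] [Nonempty I] (W : I → I → ℝ) (hW : IsHad W) (ε : I → Bool)
    (x y : I → ℝ) : nm (fun i => UU W ε x i - UU W ε y i) = nm (fun i => x i - y i) := by
  rw [← UU_nm W hW ε (fun i => x i - y i)]
  congr 1
  funext j
  rw [UU_sub]

theorem UI_nsq {I : Type} [Fintype I] [DecidableEq I] [Nonempty I] (W : I → I → ℝ) (hW : IsHad W) (ε : I → Bool)
    (z : I → ℝ) : nsq (UI W ε z) = nsq z := by
  have h1 : nsq (UI W ε z) = ((Real.sqrt (Fintype.card I))⁻¹) ^ 2 * ∑ j, (∑ i, W j i * z i) ^ 2 := by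
    unfold nsq UI
    rw [mul_sum]
    refine sum_congr rfl fun j _ => ?_
    have := basic_sg_sq (ε j)
    calc _ = (sg (ε j) * sg (ε j)) * ((Real.sqrt (Fintype.card I))⁻¹ ^ 2 * (∑ i, W j i * z i) ^ 2) := by ring
      _ = _ := by rw [this, one_mul]
  rw [h1, basic_had W hW, sq, ← mul_assoc, basic_sqrt, one_mul]

theorem UU_UI {I : Type} [Fintype I] [DecidableEq I] [Nonempty I] (W : I → I → ℝ) (hW : IsHad W) (ε : I → Bool)
    (z : I → ℝ) (j : I) : UU W ε (UI W ε z) j = z j := by
  unfold UU UI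
  have h1 : ∀ i, W j i * (sg (ε i) * (sg (ε i) * ((Real.sqrt (Fintype.card I))⁻¹ * ∑ k, W i k * z k)))
      = (Real.sqrt (Fintype.card I))⁻¹ * (W j i * ∑ k, W i k * z k) := by
    intro i
    have := basic_sg_sq (ε i)
    calc _ = (sg (ε i) * sg (ε i)) * ((Real.sqrt (Fintype.card I))⁻¹ * (W j i * ∑ k, W i k * z k)) := by ring
      _ = _ := by rw [this, one_mul]
  simp_rw [h1]
  rw [← mul_sum, basic_had2 W hW, ← mul_assoc, ← mul_assoc, basic_sqrt, one_mul]

theorem UU_adj {I : Type} [Fintype I] [DecidableEq I] [Nonempty I] (W : I → I → ℝ) (hW : IsHad W) (ε : I → Bool)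
    (x z : I → ℝ) : ∑ j, z j * UU W ε x j = ∑ i, UI W ε z i * x i := by
  obtain ⟨-, hW2, -⟩ := hW
  unfold UU UI
  simp only [mul_sum, sum_mul]
  rw [sum_comm]
  refine sum_congr rfl fun i _ => sum_congr rfl fun j _ => ?_
  rw [hW2 j i]
  ring

/-- a layer applied to a vector with few nonzero coordinates has small coordinates -/
theorem UU_sup {I : Type} [Fintype I] [DecidableEq I] [Nonempty I] (W : I → I → ℝ) (hW : IsHad W) (ε : I → Bool)
    (x : I → ℝ) (j : I) : UU W ε x j ^ 2 ≤ sz x * nsq x / Fintype.card I := by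
  obtain ⟨hW1, -, -⟩ := hW
  have hN : (0 : ℝ) < Fintype.card I := by exact_mod_cast Fintype.card_pos
  have h1 : ∑ i, W j i * (sg (ε i) * x i) = ∑ i ∈ univ.filter (fun i => x i ≠ 0), W j i * (sg (ε i) * x i) := by
    rw [sum_filter]
    refine sum_congr rfl fun i _ => ?_
    split_ifs with h
    · rfl
    · rw [not_not.1 h]
      ring
  have h2 : (∑ i, W j i * (sg (ε i) * x i)) ^ 2 ≤ sz x * nsq x := by
    rw [h1]
    have h3 := sum_mul_sq_le_sq_mul_sq (univ.filter (fun i => x i ≠ 0)) (fun i => W j i * sg (ε i)) x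
    have h4 : ∑ i ∈ univ.filter (fun i => x i ≠ 0), (W j i * sg (ε i)) ^ 2 = sz x := by
      unfold sz
      rw [card_eq_sum_ones]
      push_cast
      refine sum_congr rfl fun i _ => ?_
      have h5 := basic_sg_sq (ε i)
      rcases hW1 j i with h | h <;> rw [h] <;> nlinarith
    have h6 : ∑ i ∈ univ.filter (fun i => x i ≠ 0), x i ^ 2 ≤ nsq x :=
      sum_le_sum_of_subset_of_nonneg (filter_subset _ _) fun i _ _ => sq_nonneg _
    rw [h4] at h3
    have h7 : ∑ i ∈ univ.filter (fun i => x i ≠ 0), W j i * (sg (ε i) * x i)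
        = ∑ i ∈ univ.filter (fun i => x i ≠ 0), W j i * sg (ε i) * x i :=
      sum_congr rfl fun i _ => by ring
    rw [h7]
    exact h3.trans (mul_le_mul_of_nonneg_left h6 (by positivity))
  have h8 : UU W ε x j ^ 2 = (∑ i, W j i * (sg (ε i) * x i)) ^ 2 / Fintype.card I := by
    unfold UU
    rw [mul_pow, inv_pow, Real.sq_sqrt hN.le]
    field_simp
  rw [h8]
  exact div_le_div_of_nonneg_right h2 hN.le

end Pool.Agent.Helper951_jl
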