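import Pool.Agent.Helper951_jl.Ensemble

/-!
Project JL (helper951, MP_fe497f_lc). Module Core: the choice of the parameters.
-/

namespace Pool.Agent.Helper951_jl

open Finset Pool.Agent.Helper951_sr

theorem fin_log2l : 1 / 2 ≤ Real.log 2 := by
  have := Real.log_two_gt_d9; linarith

theorem fin_log2u : Real.log 2 ≤ 7 / 10 := by
  have := Real.log_two_lt_d9; linarith

theorem fin_logpow (n : ℕ) : Real.log (2 ^ n) ≤ 7 / 10 * n := by
  rw [Real.log_pow]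
  have h := fin_log2u
  have hn : (0 : ℝ) ≤ n := Nat.cast_nonneg n
  nlinarith

theorem fin_log_two (p : ℕ) (hp : 1 ≤ p) : Real.log (2 * 2 ^ p) ≤ 7 / 5 * p := by
  have h := fin_logpow (p + 1)
  have e : (2 : ℝ) * 2 ^ p = 2 ^ (p + 1) := by rw [pow_succ]; ring
  rw [e]
  have hp' : (1 : ℝ) ≤ p := by exact_mod_cast hp
  push_cast at h
  linarith

theorem fin_log_four (p : ℕ) (hp : 1 ≤ p) : Real.log (4 * 2 ^ p) ≤ 21 / 10 * p := by
  have h := fin_logpow (p + 2)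
  have e : (4 : ℝ) * 2 ^ p = 2 ^ (p + 2) := by rw [pow_add]; ring
  rw [e]
  have hp' : (1 : ℝ) ≤ p := by exact_mod_cast hp
  push_cast at h
  linarith

theorem fin_log_two_nonneg (p : ℕ) : 0 ≤ Real.log (2 * 2 ^ p) := by
  apply Real.log_nonneg
  have : (1 : ℝ) ≤ 2 ^ p := one_le_pow₀ (by norm_num)
  linarith

theorem fin_log_four_nonneg (p : ℕ) : 0 ≤ Real.log (4 * 2 ^ p) := by
  apply Real.log_nonneg
  have : (1 : ℝ) ≤ 2 ^ p := one_le_pow₀ (by norm_num)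
  linarith

theorem fin_pow_le (p : ℕ) : (p : ℝ) ≤ 2 ^ p := by
  exact_mod_cast (Nat.lt_two_pow_self (n := p)).le

theorem fin_sq_two (x y : ℝ) : (x + y) ^ 2 ≤ 2 * x ^ 2 + 2 * y ^ 2 := by
  nlinarith [sq_nonneg (x - y)]

/-- the number of layers -/
def fin_J (p : ℕ) : ℕ := p * (2 ^ 30 * p ^ 3) + 1

def fin_Jt (p : ℕ) : ℕ := (256 * fin_J p * p) * (fin_J p + 1)

theorem fin_Jt_le (p : ℕ) (hp : 1 ≤ p) : fin_Jt p ≤ 2 ^ 70 * p ^ 9 := by
  unfold fin_Jt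
  have h4 : 1 ≤ p ^ 4 := Nat.one_le_pow _ _ hp
  have h1 : fin_J p + 1 ≤ 2 ^ 31 * p ^ 4 := by
    unfold fin_J
    have : p * (2 ^ 30 * p ^ 3) = 2 ^ 30 * p ^ 4 := by ring
    omega
  have h2 : fin_J p ≤ 2 ^ 31 * p ^ 4 := by omega
  calc 256 * fin_J p * p * (fin_J p + 1) ≤ 256 * (2 ^ 31 * p ^ 4) * p * (2 ^ 31 * p ^ 4) := by gcongr
    _ = 2 ^ 70 * p ^ 9 := by ring

theorem fin_Jt_pos (p : ℕ) (hp : 1 ≤ p) : 1 ≤ fin_Jt p := by
  unfold fin_Jt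
  have : 0 < 256 * fin_J p * p * (fin_J p + 1) := by
    unfold fin_J
    positivity
  omega

theorem fin_log_Jt (p : ℕ) (hp : 1 ≤ p) : Real.log (16 * fin_Jt p) ≤ 60 * p := by
  have h1 : (fin_Jt p : ℝ) ≤ 2 ^ 70 * p ^ 9 := by exact_mod_cast fin_Jt_le p hp
  have h0 : (1 : ℝ) ≤ fin_Jt p := by exact_mod_cast fin_Jt_pos p hp
  have h2 : (16 : ℝ) * fin_Jt p ≤ 2 ^ (74 + 9 * p) := by
    calc (16 : ℝ) * fin_Jt p ≤ 16 * (2 ^ 70 * p ^ 9) := by gcongr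
      _ ≤ 16 * (2 ^ 70 * (2 ^ p) ^ 9) := by
          gcongr
          exact fin_pow_le p
      _ = 2 ^ (74 + 9 * p) := by rw [← pow_mul, pow_add]; ring
  have h3 := (Real.log_le_log (by positivity) h2).trans (fin_logpow _)
  have hp' : (1 : ℝ) ≤ p := by exact_mod_cast hp
  push_cast at h3
  linarith

theorem fin_g3 (p : ℕ) (hp : 1 ≤ p) : (p : ℝ) * (fin_Jt p : ℕ) * Real.exp (-1000 * p) ≤ 1 / 2 := by
  have h1 : (fin_Jt p : ℝ) ≤ 2 ^ 70 * p ^ 9 := by exact_mod_cast fin_Jt_le p hp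
  have hp' : (1 : ℝ) ≤ p := by exact_mod_cast hp
  have h2 : (p : ℝ) * (fin_Jt p : ℕ) ≤ 2 ^ (70 + 10 * p) := by
    calc (p : ℝ) * (fin_Jt p : ℕ) ≤ p * (2 ^ 70 * p ^ 9) := by gcongr
      _ = 2 ^ 70 * p ^ 10 := by ring
      _ ≤ 2 ^ 70 * (2 ^ p) ^ 10 := by
          gcongr
          exact fin_pow_le p
      _ = 2 ^ (70 + 10 * p) := by rw [← pow_mul, pow_add]; ring
  have h3 : Real.exp (-1000 * p) ≤ 1 / 2 ^ (71 + 10 * p) := by
    rw [le_div_iff₀ (by positivity)]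
    have h4 : (2 : ℝ) ^ (71 + 10 * p) = Real.exp (Real.log (2 ^ (71 + 10 * p))) := by
      rw [Real.exp_log (by positivity)]
    rw [h4, ← Real.exp_add, Real.exp_le_one_iff]
    have h5 := fin_logpow (71 + 10 * p)
    push_cast at h5
    linarith
  calc (p : ℝ) * (fin_Jt p : ℕ) * Real.exp (-1000 * p) ≤ 2 ^ (70 + 10 * p) * (1 / 2 ^ (71 + 10 * p)) := by gcongr
    _ = 1 / 2 := by
        have e : (2 : ℝ) ^ (71 + 10 * p) = 2 * 2 ^ (70 + 10 * p) := by rw [← pow_succ']; congr 1; ring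
        rw [e]
        field_simp

/-- The random matrices, explicit dimensions `k = 2 ^ b`, `d = 2 ^ p`. -/
theorem jl_core (p b : ℕ) (q ε P : ℝ) (hp : 1 ≤ p) (hε0 : 0 < ε) (hε1 : ε < 1) (hP0 : 0 < P) (hP : P ≤ 1 / 2)
    (hq : q = Real.log (1 / P)) (hb : 2 ^ 27 * (q / ε ^ 2) ≤ 2 ^ b) (hbp : b + 1 ≤ p)
    (h1 : (2 : ℝ) ^ 40 * p ^ 4 * 2 ^ b ≤ 2 ^ p) (h2 : (2 : ℝ) ^ 200 * 2 ^ 60 * p ^ 28 * (q / ε ^ 2) ≤ 2 ^ p) :
    ∃ (r : ℕ) (A : Fin r → Fin (2 ^ b) → Fin (2 ^ p) → ℝ), 0 < r ∧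
      (∀ i, FastMap (2 ^ 74 * p ^ 10 * 2 ^ p) (mv (A i))) ∧
      ∀ x : Fin (2 ^ p) → ℝ, nsq x = 1 → cnt (fun i => ε < |nsq (mv (A i) x) - 1|) ≤ P * r := by
  have hp' : (1 : ℝ) ≤ p := by exact_mod_cast hp
  have hp0 : (0 : ℝ) < p := by linarith
  -- q
  have hq2 : 1 / 2 ≤ q := by
    rw [hq]
    refine fin_log2l.trans (Real.log_le_log (by norm_num) ?_)
    rw [le_div_iff₀ hP0]
    linarith
  have hq0 : 0 < q := by linarith
  have heq : Real.exp (-q) = P := by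
    rw [hq, ← Real.log_inv, Real.exp_log (by positivity)]
    simp
  -- lg
  set lg := Nat.clog 2 p with hlg
  have hlg1 : (p : ℝ) ≤ 2 ^ lg := by exact_mod_cast Nat.le_pow_clog (by norm_num) p
  have hlg2 : (2 : ℝ) ^ lg ≤ 2 * p := by
    rcases Nat.lt_or_ge 1 p with h | h
    · have h3 : 2 ^ (lg - 1) < p := Nat.pow_pred_clog_lt_self (by norm_num) h
      have h4 : 1 ≤ lg := Nat.clog_pos (by norm_num) h
      have h5 : 2 ^ lg = 2 * 2 ^ (lg - 1) := by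
        rw [← pow_succ']; congr 1; omega
      have h6 : 2 ^ lg ≤ 2 * p := by omega
      exact_mod_cast h6
    · have h3 : p = 1 := by omega
      rw [hlg, h3]
      norm_num
  set cm := 22 + 3 * lg with hcm
  set a := 36 + 4 * lg with ha
  have hcm1 : (2 : ℝ) ^ 22 * p ^ 3 ≤ 2 ^ cm := by
    calc (2 : ℝ) ^ 22 * p ^ 3 ≤ 2 ^ 22 * (2 ^ lg) ^ 3 := by gcongr
      _ = 2 ^ cm := by rw [hcm, pow_add, ← pow_mul]; congr 2; ring
  have hcm2 : (2 : ℝ) ^ cm ≤ 2 ^ 25 * p ^ 3 := by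
    calc (2 : ℝ) ^ cm = 2 ^ 22 * (2 ^ lg) ^ 3 := by rw [hcm, pow_add, ← pow_mul]; congr 2; ring
      _ ≤ 2 ^ 22 * (2 * p) ^ 3 := by gcongr
      _ = 2 ^ 25 * p ^ 3 := by ring
  have ha1 : (2 : ℝ) ^ 36 * p ^ 4 ≤ 2 ^ a := by
    calc (2 : ℝ) ^ 36 * p ^ 4 ≤ 2 ^ 36 * (2 ^ lg) ^ 4 := by gcongr
      _ = 2 ^ a := by rw [ha, pow_add, ← pow_mul]; congr 2; ring
  have ha2 : (2 : ℝ) ^ a ≤ 2 ^ 40 * p ^ 4 := by
    calc (2 : ℝ) ^ a = 2 ^ 36 * (2 ^ lg) ^ 4 := by rw [ha, pow_add, ← pow_mul]; congr 2; ring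
      _ ≤ 2 ^ 36 * (2 * p) ^ 4 := by gcongr
      _ = 2 ^ 40 * p ^ 4 := by ring
  have hb1 : (1 : ℝ) ≤ 2 ^ b := one_le_pow₀ (by norm_num)
  have hab : a + b ≤ p := by
    have h3 : (2 : ℝ) ^ (a + b) ≤ 2 ^ p := by
      rw [pow_add]
      exact (mul_le_mul_of_nonneg_right ha2 (by positivity)).trans h1
    exact (pow_le_pow_iff_right₀ (by norm_num)).1 h3
  have hcmp : cm + 7 ≤ p := by
    have h3 : (2 : ℝ) ^ (cm + 7) ≤ 2 ^ p := by
      calc (2 : ℝ) ^ (cm + 7) = 2 ^ cm * 2 ^ 7 := pow_add _ _ _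
        _ ≤ (2 ^ 25 * p ^ 3) * 2 ^ 7 := by gcongr
        _ = 2 ^ 32 * p ^ 3 * 1 * 1 := by ring
        _ ≤ 2 ^ 40 * p ^ 3 * p * 2 ^ b := by gcongr <;> norm_num
        _ = 2 ^ 40 * p ^ 4 * 2 ^ b := by ring
        _ ≤ 2 ^ p := h1
    exact (pow_le_pow_iff_right₀ (by norm_num)).1 h3
  set s := 2 ^ (p - (cm + 7)) with hs
  have hs2 : (2 : ℝ) ^ p = 2 ^ (cm + 7) * s := by
    rw [hs]
    push_cast
    rw [← pow_add]
    congr 1
    omega
  have hs2' : 2 ^ p = 2 ^ (cm + 7) * s := by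
    rw [hs, ← pow_add]
    congr 1
    omega
  set N : ℝ := 2 ^ p with hN
  have hN0 : 0 < N := by positivity
  set D : ℝ := 1 / (2 ^ 14 * p ^ 2) with hD
  have hD0 : 0 < D := by positivity
  set τ0 : ℝ := 2 ^ (cm + 7) / N with hτ0
  set τ1 : ℝ := 2 ^ 9 * p / N with hτ1
  set lam : ℝ := 2 * (τ0 + τ1) with hlam
  have hlamN : lam * N ≤ 2 ^ 34 * p ^ 3 := by
    have e : lam * N = 2 * 2 ^ 7 * 2 ^ cm + 2 ^ 10 * p := by
      rw [hlam, hτ0, hτ1, pow_add]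
      field_simp
    rw [e]
    have hp3 : (p : ℝ) ≤ p ^ 3 := by
      calc (p : ℝ) = p * 1 := by ring
        _ ≤ p * p ^ 2 := by
            apply mul_le_mul_of_nonneg_left _ hp0.le
            exact one_le_pow₀ hp'
        _ = p ^ 3 := by ring
    linarith
  have hlam0 : 0 < lam := by positivity
  set Jt := fin_Jt p with hJt
  have hJt1 : (1 : ℝ) ≤ Jt := by exact_mod_cast fin_Jt_pos p hp
  have hJt2 : (Jt : ℝ) ≤ 2 ^ 70 * p ^ 9 := by exact_mod_cast fin_Jt_le p hp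
  set Q : ℝ := q + Real.log (16 * Jt) with hQ
  have hlogJ : Real.log (16 * Jt) ≤ 60 * p := fin_log_Jt p hp
  have hlogJ0 : 0 ≤ Real.log (16 * Jt) := Real.log_nonneg (by linarith)
  have hQ0 : 0 ≤ Q := by linarith
  set mu : ℝ := 16 * lam * (Q + 2 * Real.log (2 * N)) with hmu
  have hlogN := fin_log_two p hp
  have hlogN0 := fin_log_two_nonneg p
  have hpq : (p : ℝ) ≤ 2 * (p * q) := by
    calc (p : ℝ) = p * 1 := (mul_one _).symm
      _ ≤ p * (2 * q) := mul_le_mul_of_nonneg_left (by linarith) hp0.le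
      _ = 2 * (p * q) := by ring
  have hQ2 : Q + 2 * Real.log (2 * N) ≤ 2 ^ 8 * (p * q) := by
    have h3 : q ≤ p * q := le_mul_of_one_le_left hq0.le hp'
    rw [hQ]
    linarith
  have hmu0 : 0 ≤ mu := by
    rw [hmu]
    have : 0 ≤ Q + 2 * Real.log (2 * N) := by linarith
    positivity
  have hmuN : mu * N ≤ 2 ^ 46 * (p ^ 4 * q) := by
    calc mu * N = 16 * (lam * N) * (Q + 2 * Real.log (2 * N)) := by rw [hmu]; ring
      _ ≤ 16 * (2 ^ 34 * p ^ 3) * (2 ^ 8 * (p * q)) := by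
          apply mul_le_mul _ hQ2 (by linarith) (by positivity)
          exact mul_le_mul_of_nonneg_left hlamN (by norm_num)
      _ = 2 ^ 46 * (p ^ 4 * q) := by ring
  -- the square of `Jt √(2 mu)`
  set G : ℝ := Jt * Real.sqrt (2 * mu) with hG
  have hG0 : 0 ≤ G := by positivity
  have hGN : G ^ 2 * N ≤ 2 ^ 187 * (p ^ 22 * q) := by
    calc G ^ 2 * N = Jt ^ 2 * (2 * (mu * N)) := by
          rw [hG, mul_pow, Real.sq_sqrt (by positivity)]; ring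
      _ ≤ (2 ^ 70 * p ^ 9) ^ 2 * (2 * (2 ^ 46 * (p ^ 4 * q))) := by
          gcongr
      _ = 2 ^ 187 * (p ^ 22 * q) := by ring
  have hqN : 2 ^ 200 * 2 ^ 60 * (p ^ 28 * q) ≤ ε ^ 2 * N := by
    have h3 := mul_le_mul_of_nonneg_left h2 (by positivity : 0 ≤ ε ^ 2)
    calc 2 ^ 200 * 2 ^ 60 * (p ^ 28 * q) = ε ^ 2 * (2 ^ 200 * 2 ^ 60 * p ^ 28 * (q / ε ^ 2)) := by field_simp
      _ ≤ ε ^ 2 * N := h3
  have hε2 : ε ^ 2 ≤ 1 := pow_le_one₀ hε0.le hε1.le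
  have hp22 : (p : ℝ) ^ 22 ≤ p ^ 28 := pow_le_pow_right₀ hp' (by norm_num)
  have hG1 : G ≤ 1 := by
    have h3 : G ^ 2 * N ≤ 1 * N := by
      calc G ^ 2 * N ≤ 2 ^ 187 * (p ^ 22 * q) := hGN
        _ ≤ 2 ^ 187 * (p ^ 28 * q) := by gcongr
        _ ≤ 2 ^ 200 * 2 ^ 60 * (p ^ 28 * q) := by
            apply mul_le_mul_of_nonneg_right _ (by positivity)
            norm_num
        _ ≤ ε ^ 2 * N := hqN
        _ ≤ 1 * N := by gcongr
    have h4 : G ^ 2 ≤ 1 := le_of_mul_le_mul_right h3 hN0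
    exact (sq_le_one_iff₀ hG0).1 h4
  set δ : ℝ := 1 / N + G with hδ
  have hδ0 : 0 ≤ δ := by positivity
  have hδN : δ ^ 2 * N ≤ 2 ^ 189 * (p ^ 22 * q) := by
    have h3 : δ ^ 2 ≤ 2 * (1 / N) ^ 2 + 2 * G ^ 2 := by
      exact fin_sq_two _ _
    have h4 : (1 / N) ^ 2 * N ≤ 1 := by
      have : (1 / N) ^ 2 * N = 1 / N := by field_simp
      rw [this, div_le_one hN0]
      exact one_le_pow₀ (by norm_num)
    have h5 : 1 ≤ 2 * (p ^ 22 * q) := by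
      have h6 : (1 : ℝ) ≤ p ^ 22 := one_le_pow₀ hp'
      have h7 : q ≤ p ^ 22 * q := le_mul_of_one_le_left hq0.le h6
      linarith
    calc δ ^ 2 * N ≤ (2 * (1 / N) ^ 2 + 2 * G ^ 2) * N := by gcongr
      _ = 2 * ((1 / N) ^ 2 * N) + 2 * (G ^ 2 * N) := by ring
      _ ≤ 2 * (2 * (p ^ 22 * q)) + 2 * (2 ^ 187 * (p ^ 22 * q)) := by linarith
      _ ≤ 2 ^ 189 * (p ^ 22 * q) := by
          have : 0 ≤ (p : ℝ) ^ 22 * q := by positivity
          linarith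
  set Qp : ℝ := q + Real.log 16 with hQp
  have hlog16 : Real.log 16 ≤ 14 / 5 := by
    have h3 := fin_logpow 4
    norm_num at h3
    linarith
  have hlog160 : 0 ≤ Real.log 16 := Real.log_nonneg (by norm_num)
  have hQp0 : 0 ≤ Qp := by linarith
  set V : ℝ := Real.sqrt (2 * lam * (Qp + 1)) with hV
  have hV0 : 0 ≤ V := Real.sqrt_nonneg _
  have hVN : V ^ 2 * N ≤ 2 ^ 39 * (p ^ 3 * q) := by
    calc V ^ 2 * N = 2 * (lam * N) * (Qp + 1) := by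
          rw [hV, Real.sq_sqrt (by positivity)]; ring
      _ ≤ 2 * (2 ^ 34 * p ^ 3) * (9 * q) := by
          apply mul_le_mul _ _ (by linarith) (by positivity)
          · exact mul_le_mul_of_nonneg_left hlamN (by norm_num)
          · linarith
      _ ≤ 2 ^ 39 * (p ^ 3 * q) := by
          have h3 : 0 ≤ (p : ℝ) ^ 3 * q := by positivity
          have e : 2 * (2 ^ 34 * (p : ℝ) ^ 3) * (9 * q) = 18 * 2 ^ 34 * (p ^ 3 * q) := by ring
          rw [e]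
          linarith
  have hδV : (δ + V) ^ 2 * N ≤ 2 ^ 191 * (p ^ 22 * q) := by
    have h3 : (δ + V) ^ 2 ≤ 2 * δ ^ 2 + 2 * V ^ 2 := fin_sq_two _ _
    have h4 : (p : ℝ) ^ 3 ≤ p ^ 22 := pow_le_pow_right₀ hp' (by norm_num)
    have h5 : (p : ℝ) ^ 3 * q ≤ p ^ 22 * q := by gcongr
    calc (δ + V) ^ 2 * N ≤ (2 * δ ^ 2 + 2 * V ^ 2) * N := by gcongr
      _ = 2 * (δ ^ 2 * N) + 2 * (V ^ 2 * N) := by ring
      _ ≤ 2 * (2 ^ 189 * (p ^ 22 * q)) + 2 * (2 ^ 39 * (p ^ 22 * q)) := by linarith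
      _ ≤ 2 ^ 191 * (p ^ 22 * q) := by
          have : 0 ≤ (p : ℝ) ^ 22 * q := by positivity
          linarith
  set β : ℝ := 240 * (b + 1) * Real.log (2 * 2 ^ (p - a)) with hβ
  have hpa : (2 : ℝ) ^ (p - a) ≤ N := pow_le_pow_right₀ (by norm_num) (by omega)
  have hpaN : (2 : ℝ) ^ (p - a) * 2 ^ a = N := by
    rw [← pow_add, hN]
    congr 1
    omega
  have hlog2pa : Real.log (2 * 2 ^ (p - a)) ≤ 7 / 5 * p :=
    (Real.log_le_log (by positivity) (by linarith)).trans hlogN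
  have hlog4pa : Real.log (4 * 2 ^ (p - a)) ≤ 21 / 10 * p :=
    (Real.log_le_log (by positivity) (by linarith)).trans (fin_log_four p hp)
  have hlog4pa0 : 0 ≤ Real.log (4 * 2 ^ (p - a)) := fin_log_four_nonneg (p - a)
  have hlog2pa0 : 0 ≤ Real.log (2 * 2 ^ (p - a)) := fin_log_two_nonneg (p - a)
  have hβ0 : 0 ≤ β := by positivity
  have hβ2 : β ≤ 2 ^ 9 * p ^ 2 := by
    have h3 : ((b : ℝ) + 1) ≤ p := by exact_mod_cast hbp
    calc β ≤ 240 * p * (7 / 5 * p) := by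
          rw [hβ]
          gcongr
      _ = 336 * (p : ℝ) ^ 2 := by ring
      _ ≤ 2 ^ 9 * p ^ 2 := by
          apply mul_le_mul_of_nonneg_right _ (by positivity)
          norm_num
  set Z : ℝ := Real.sqrt (β * 2 ^ a) with hZ
  have hZ0 : 0 ≤ Z := Real.sqrt_nonneg _
  have hZ2 : Z ^ 2 ≤ 2 ^ 49 * p ^ 6 := by
    calc Z ^ 2 = β * 2 ^ a := by rw [hZ, Real.sq_sqrt (by positivity)]
      _ ≤ (2 ^ 9 * p ^ 2) * (2 ^ 40 * p ^ 4) := by gcongr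
      _ = 2 ^ 49 * p ^ 6 := by ring
  have hγ : 80 * ((δ + V) * Z) ≤ ε / 2 := by
    have h3 : (80 * ((δ + V) * Z)) ^ 2 * N ≤ (ε / 2) ^ 2 * N := by
      calc (80 * ((δ + V) * Z)) ^ 2 * N = 6400 * ((δ + V) ^ 2 * N) * Z ^ 2 := by ring
        _ ≤ 6400 * (2 ^ 191 * (p ^ 22 * q)) * (2 ^ 49 * p ^ 6) := by gcongr
        _ = 6400 * 2 ^ 240 * (p ^ 28 * q) := by ring
        _ ≤ 1 / 4 * (2 ^ 200 * 2 ^ 60) * (p ^ 28 * q) := by
            apply mul_le_mul_of_nonneg_right _ (by positivity)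
            norm_num
        _ = (1 / 4) * (2 ^ 200 * 2 ^ 60 * (p ^ 28 * q)) := by ring
        _ ≤ (1 / 4) * (ε ^ 2 * N) := by gcongr
        _ = (ε / 2) ^ 2 * N := by ring
    have h4 := le_of_mul_le_mul_right h3 hN0
    exact (pow_le_pow_iff_left₀ (by positivity) (by positivity) (by norm_num)).1 h4
  have hM : 256 * fin_J p * p * (fin_J p + 1) = Jt := rfl
  have k1 : D * (2 ^ 14 * (p : ℝ) ^ 2) ≤ 1 := by
    rw [hD]
    field_simp
    exact le_refl _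
  have k2 : 128 * 2 ^ cm * s ≤ 2 ^ p := by
    have e : 2 ^ (cm + 7) * s = 128 * 2 ^ cm * s := by rw [Nat.pow_add]; ring
    rw [hs2', e]
  have k3 : p * (2 ^ 30 * p ^ 3) + 1 ≤ fin_J p := by
    unfold fin_J
    exact le_refl _
  have k4 : ∀ c, cm < c → 64 * Real.log (4 * 2 ^ p) ≤ D * 2 ^ c := by
    intro c hc
    have h3 := fin_log_four p hp
    have h4 : (2 : ℝ) ^ cm ≤ 2 ^ c := pow_le_pow_right₀ (by norm_num) hc.le
    rw [hD, div_mul_eq_mul_div, le_div_iff₀ (by positivity), one_mul]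
    calc 64 * Real.log (4 * 2 ^ p) * (2 ^ 14 * (p : ℝ) ^ 2) ≤ 64 * (21 / 10 * p) * (2 ^ 14 * (p : ℝ) ^ 2) := by gcongr
      _ = (64 * (21 / 10) * 2 ^ 14) * (p : ℝ) ^ 3 := by ring
      _ ≤ (2 : ℝ) ^ 22 * (p : ℝ) ^ 3 := by
          apply mul_le_mul_of_nonneg_right _ (by positivity)
          norm_num
      _ ≤ 2 ^ c := hcm1.trans h4
  have k5 : 16 * Real.log (2 * 2 ^ p) * (s : ℝ) ≤ D * 2 ^ p := by
    rw [hD, div_mul_eq_mul_div, le_div_iff₀ (by positivity), one_mul]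
    calc 16 * Real.log (2 * 2 ^ p) * (s : ℝ) * (2 ^ 14 * (p : ℝ) ^ 2)
        ≤ 16 * (7 / 5 * p) * (s : ℝ) * (2 ^ 14 * (p : ℝ) ^ 2) := by gcongr
      _ = (16 * (7 / 5) * 2 ^ 14) * ((p : ℝ) ^ 3 * s) := by ring
      _ ≤ (2 ^ 7 * 2 ^ 22) * ((p : ℝ) ^ 3 * s) := by
          apply mul_le_mul_of_nonneg_right _ (by positivity)
          norm_num
      _ = 2 ^ 7 * ((2 : ℝ) ^ 22 * (p : ℝ) ^ 3) * s := by ring
      _ ≤ 2 ^ 7 * 2 ^ cm * (s : ℝ) := by gcongr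
      _ = 2 ^ (cm + 7) * (s : ℝ) := by rw [pow_add]; ring
      _ = 2 ^ p := hs2.symm
  have k6 : 65536 * (p : ℝ) ≤ ((2 ^ 30 * p ^ 3 : ℕ) : ℝ) * D := by
    rw [hD]
    push_cast
    rw [mul_one_div, le_div_iff₀ (by positivity)]
    have e : 65536 * (p : ℝ) * (2 ^ 14 * p ^ 2) = 2 ^ 30 * p ^ 3 := by ring
    rw [e]
    norm_num
  have k7 : (p : ℝ) * ((256 * fin_J p * p * (fin_J p + 1) : ℕ) : ℝ) * Real.exp (-1000 * p) ≤ 1 / 2 := by
    rw [hM]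
    exact fin_g3 p hp
  have k8 : 0 < τ0 := by positivity
  have hs1 : (0 : ℝ) < s := by
    rw [hs]
    positivity
  have k9 : 1 / τ0 < (s : ℝ) + 1 := by
    have e : N / 2 ^ (cm + 7) = s := by
      rw [div_eq_iff (by positivity)]
      linarith
    rw [hτ0, one_div_div, e]
    linarith
  have k10 : 288 * Real.log (2 * 2 ^ p) ≤ τ1 * 2 ^ p := by
    have e : τ1 * 2 ^ p = 2 ^ 9 * p := by
      rw [hτ1, hN]
      field_simp
    rw [e]
    linarith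
  have k11 : ((256 * fin_J p * p * (fin_J p + 1) : ℕ) : ℝ) * Real.sqrt (2 * mu) ≤ 1 := by
    rw [hM]
    exact hG1
  have k12 : 2 * Real.log (4 * 2 ^ (p - a)) ≤ 2 ^ a := by
    have h4 : (p : ℝ) ≤ (p : ℝ) ^ 4 := by
      calc (p : ℝ) = p * 1 := by ring
        _ ≤ p * (p : ℝ) ^ 3 := by
            apply mul_le_mul_of_nonneg_left _ hp0.le
            exact one_le_pow₀ hp'
        _ = (p : ℝ) ^ 4 := by ring
    have h3 : (8 : ℝ) * p ≤ 2 ^ 36 * (p : ℝ) ^ 4 := by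
      calc (8 : ℝ) * p ≤ 8 * (p : ℝ) ^ 4 := by linarith
        _ ≤ 2 ^ 36 * (p : ℝ) ^ 4 := by
            apply mul_le_mul_of_nonneg_right _ (by positivity)
            norm_num
    linarith
  have k13 : lam * 2 ^ (p - a) * Real.log (4 * 2 ^ (p - a)) ≤ 1 := by
    have h3 : lam * 2 ^ (p - a) * 2 ^ a = lam * N := by rw [mul_assoc, hpaN]
    have h4 : lam * 2 ^ (p - a) * Real.log (4 * 2 ^ (p - a)) * 2 ^ a ≤ 1 * 2 ^ a := by
      calc lam * 2 ^ (p - a) * Real.log (4 * 2 ^ (p - a)) * 2 ^ a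
          = (lam * 2 ^ (p - a) * 2 ^ a) * Real.log (4 * 2 ^ (p - a)) := by ring
        _ = (lam * N) * Real.log (4 * 2 ^ (p - a)) := by rw [h3]
        _ ≤ (2 ^ 34 * (p : ℝ) ^ 3) * (21 / 10 * p) := by gcongr
        _ = (2 ^ 34 * (21 / 10)) * (p : ℝ) ^ 4 := by ring
        _ ≤ 2 ^ 36 * (p : ℝ) ^ 4 := by
            apply mul_le_mul_of_nonneg_right _ (by positivity)
            norm_num
        _ ≤ 1 * 2 ^ a := by linarith
    exact le_of_mul_le_mul_right h4 (by positivity)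
  have k14 : δ = 1 / 2 ^ p + ((256 * fin_J p * p * (fin_J p + 1) : ℕ) : ℝ) * Real.sqrt (2 * mu) := by
    rw [hM]
  have k15 : ε / 2 + 80 * ((δ + Real.sqrt (2 * lam * (Qp + 1))) * Real.sqrt (β * 2 ^ a)) ≤ ε := by
    linarith
  have k16 : ((256 * fin_J p * p * (fin_J p + 1) : ℕ) : ℝ) * Real.exp (-Q) + (Real.exp (-Qp)
      + 2 * Real.exp (-(ε / 2) ^ 2 * 2 ^ b / 1769472) + Real.exp (-2 * 2 ^ b)) ≤ P * (1 / 4) := by
    rw [hM]
    have e1 : (Jt : ℝ) * Real.exp (-Q) = P / 16 := by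
      rw [hQ, neg_add, Real.exp_add, heq, ← Real.log_inv, Real.exp_log (by positivity)]
      field_simp
    have e2 : Real.exp (-Qp) = P / 16 := by
      rw [hQp, neg_add, Real.exp_add, heq, ← Real.log_inv, Real.exp_log (by positivity)]
      ring
    have hqe : 2 ^ 27 * q ≤ ε ^ 2 * 2 ^ b := by
      have h3 := mul_le_mul_of_nonneg_left hb (by positivity : 0 ≤ ε ^ 2)
      calc 2 ^ 27 * q = ε ^ 2 * (2 ^ 27 * (q / ε ^ 2)) := by field_simp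
        _ ≤ ε ^ 2 * 2 ^ b := h3
    have e32 : Real.exp (-(7 / 2)) ≤ 1 / 32 := by
      have h4 : Real.log 2 * 5 ≤ 7 / 2 := by
        have := fin_log2u
        linarith
      have h5 : Real.exp (-(7 / 2)) ≤ Real.exp (-(Real.log 2 * 5)) := Real.exp_le_exp.2 (by linarith)
      have h6 : Real.exp (-(Real.log 2 * 5)) = 1 / 32 := by
        rw [Real.exp_neg, mul_comm, show (5 : ℝ) = ((5 : ℕ) : ℝ) by norm_num, Real.exp_nat_mul,
          Real.exp_log (by norm_num)]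
        norm_num
      linarith
    have e3 : 2 * Real.exp (-(ε / 2) ^ 2 * 2 ^ b / 1769472) ≤ P / 16 := by
      have h3 : -(ε / 2) ^ 2 * 2 ^ b / 1769472 ≤ -q + -(7 / 2) := by
        rw [div_le_iff₀ (by norm_num)]
        have e : -(ε / 2) ^ 2 * 2 ^ b = -(1 / 4) * (ε ^ 2 * 2 ^ b) := by ring
        rw [e]
        linarith
      calc 2 * Real.exp (-(ε / 2) ^ 2 * 2 ^ b / 1769472) ≤ 2 * Real.exp (-q + -(7 / 2)) := by
            apply mul_le_mul_of_nonneg_left _ (by norm_num)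
            exact Real.exp_le_exp.2 h3
        _ = 2 * (P * Real.exp (-(7 / 2))) := by rw [Real.exp_add, heq]
        _ ≤ 2 * (P * (1 / 32)) := by gcongr
        _ = P / 16 := by ring
    have e4 : Real.exp (-2 * 2 ^ b) ≤ P / 16 := by
      have h3 : (-2 : ℝ) * 2 ^ b ≤ -q + -(7 / 2) := by
        have h4 : ε ^ 2 * 2 ^ b ≤ 1 * 2 ^ b := mul_le_mul_of_nonneg_right hε2 (by positivity)
        linarith
      calc Real.exp (-2 * 2 ^ b) ≤ Real.exp (-q + -(7 / 2)) := Real.exp_le_exp.2 h3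
        _ = P * Real.exp (-(7 / 2)) := by rw [Real.exp_add, heq]
        _ ≤ P * (1 / 32) := by gcongr
        _ ≤ P / 16 := by linarith
    linarith
  have hk : ∃ (r : ℕ) (A : Fin r → Fin (2 ^ b) → Fin (2 ^ p) → ℝ), 0 < r ∧
      (∀ i, FastMap ((256 * fin_J p * p * (fin_J p + 1) + 5) * (p + 4) * 2 ^ p) (mv (A i))) ∧
      ∀ x : Fin (2 ^ p) → ℝ, nsq x = 1 → cnt (fun i => ε < |nsq (mv (A i) x) - 1|) ≤ P * r :=
    ensemble p a b cm (2 ^ 30 * p ^ 3) (fin_J p) s (256 * fin_J p * p) D τ0 τ1 lam Q mu β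
      Qp (ε / 2) ε P δ hab hp hD0 k1 k2 k3 (le_refl _) k4 k5 k6 k7 k8 k9 k10 (le_refl _) hQ0 hmu k11 hβ
      k12 k13 hQp0 (by positivity) hε1.le k14 k15 hP0.le k16
  obtain ⟨r, A, hr, hA1, hA2⟩ := hk
  refine ⟨r, A, hr, fun i => fast_mono (hA1 i) ?_, hA2⟩
  rw [hM]
  apply Nat.mul_le_mul_right
  have h3 := fin_Jt_le p hp
  have h9 : 1 ≤ p ^ 9 := Nat.one_le_pow _ _ hp
  calc (Jt + 5) * (p + 4) ≤ (2 ^ 71 * p ^ 9) * (5 * p) := by
        apply Nat.mul_le_mul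
        · rw [hJt]
          omega
        · omega
    _ = 5 * 2 ^ 71 * p ^ 10 := by ring
    _ ≤ 2 ^ 74 * p ^ 10 := by
        apply Nat.mul_le_mul_right
        norm_num

end Pool.Agent.Helper951_jl
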