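import Pool.Agent.Helper951_jl.GoodCount
import Pool.Agent.Helper951_jl.Flatten
import Pool.Agent.Helper951_jl.Compress
import Pool.Agent.Helper951_jl.Trans

/-!
Project JL (helper951, MP_fe497f_lc). Module Ensemble: the random matrices, general parameters.
-/

namespace Pool.Agent.Helper951_jl

open Finset Pool.Agent.Helper951_sr

theorem subfamily {Ω : Type} [Fintype Ω] [Nonempty Ω] (Gd : Ω → Prop) (c P : ℝ) (hP : 0 ≤ P) (hc : 0 < c)
    (hGd : c * Fintype.card Ω ≤ cnt Gd) :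
    ∃ (r : ℕ) (φ : Fin r → Ω), 0 < r ∧ (∀ i, Gd (φ i)) ∧
      ∀ bad : Ω → Prop, cnt (fun ω => Gd ω ∧ bad ω) ≤ P * (c * Fintype.card Ω) →
        cnt (fun i => bad (φ i)) ≤ P * r := by
  classical
  have hΩ : (0 : ℝ) < Fintype.card Ω := by exact_mod_cast Fintype.card_pos
  have hr : cnt Gd = (Fintype.card {ω // Gd ω} : ℝ) := by
    rw [cnt_eq, Fintype.card_subtype]
  let e : Fin (Fintype.card {ω // Gd ω}) ≃ {ω // Gd ω} := (Fintype.equivFin _).symm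
  refine ⟨Fintype.card {ω // Gd ω}, fun i => (e i).1, ?_, fun i => (e i).2, fun bad hbad => ?_⟩
  · have h1 : 0 < c * Fintype.card Ω := by positivity
    rw [hr] at hGd
    exact_mod_cast lt_of_lt_of_le h1 hGd
  · have h1 : cnt (fun i => bad (e i).1) = cnt (fun ω => Gd ω ∧ bad ω) := by
      rw [cnt_equiv e (fun ω : {ω // Gd ω} => bad ω.1), cnt_eq, cnt_eq]
      congr 1
      rw [← Fintype.card_subtype, ← Fintype.card_subtype]
      exact Fintype.card_congr (Equiv.subtypeSubtypeEquivSubtypeInter Gd bad)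
    rw [h1]
    refine hbad.trans ?_
    rw [← hr]
    exact mul_le_mul_of_nonneg_left hGd hP

theorem cnt_const_prod {α β : Type} [Fintype α] [Fintype β] (P : α → Prop) :
    cnt (fun ω : α × β => P ω.1) = cnt P * Fintype.card β := by
  classical
  rw [cnt_prod, cnt_eq, card_filter]
  push_cast
  rw [sum_mul]
  refine sum_congr rfl fun a _ => ?_
  by_cases h : P a
  · simp [h, cnt_eq]
  · simp [h, cnt_eq]

theorem cnt_const_prod' {α β : Type} [Fintype α] [Fintype β] (P : β → Prop) :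
    cnt (fun ω : α × β => P ω.2) = Fintype.card α * cnt P := by
  classical
  rw [cnt_prod]
  simp [card_univ]

/-- The probability space. -/
abbrev Sp (p rb b Jt : ℕ) : Type :=
  (Fin Jt → Fin (2 ^ p) → Bool) × ((Fin (2 ^ p) → Fin (2 ^ rb) × Fin (2 ^ b)) × (Fin (2 ^ p) → Bool))

/-- The random matrices, general parameters. -/
theorem ensemble (p a b cm w J s M : ℕ) (D τ0 τ1 lam Q mu β Qp t ε P δ : ℝ)
    (hab : a + b ≤ p) (hp : 1 ≤ p) (hD0 : 0 < D) (hD : D * (2 ^ 14 * p ^ 2) ≤ 1) (hs : 128 * 2 ^ cm * s ≤ 2 ^ p)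
    (hJ : p * w + 1 ≤ J) (hM : 256 * J * p ≤ M)
    (hg1 : ∀ c, cm < c → 64 * Real.log (4 * 2 ^ p) ≤ D * 2 ^ c)
    (hg2 : 16 * Real.log (2 * 2 ^ p) * s ≤ D * 2 ^ p) (hw : 65536 * p ≤ w * D)
    (hg3 : p * (M * (J + 1) : ℕ) * Real.exp (-1000 * p) ≤ 1 / 2)
    (hτ0 : 0 < τ0) (hτs : 1 / τ0 < s + 1) (hτ1 : 288 * Real.log (2 * 2 ^ p) ≤ τ1 * 2 ^ p)
    (hlam : 2 * (τ0 + τ1) ≤ lam) (hQ : 0 ≤ Q) (hmu : mu = 16 * lam * (Q + 2 * Real.log (2 * 2 ^ p)))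
    (hJmu : (M * (J + 1) : ℕ) * Real.sqrt (2 * mu) ≤ 1)
    (hβ : β = 240 * (b + 1) * Real.log (2 * 2 ^ (p - a)))
    (hload : 2 * Real.log (4 * 2 ^ (p - a)) ≤ 2 ^ a)
    (hmass : lam * 2 ^ (p - a) * Real.log (4 * 2 ^ (p - a)) ≤ 1)
    (hQp : 0 ≤ Qp) (ht : 0 < t) (hε1 : ε ≤ 1)
    (hδ : δ = 1 / 2 ^ p + (M * (J + 1) : ℕ) * Real.sqrt (2 * mu))
    (hγ : t + 80 * ((δ + Real.sqrt (2 * lam * (Qp + 1))) * Real.sqrt (β * 2 ^ a)) ≤ ε)
    (hP : 0 ≤ P)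
    (hprob : (M * (J + 1) : ℕ) * Real.exp (-Q) + (Real.exp (-Qp) + 2 * Real.exp (-t ^ 2 * 2 ^ b / 1769472)
      + Real.exp (-2 * 2 ^ b)) ≤ P * (1 / 4)) :
    ∃ (r : ℕ) (A : Fin r → Fin (2 ^ b) → Fin (2 ^ p) → ℝ), 0 < r ∧
      (∀ i, FastMap ((M * (J + 1) + 5) * (p + 4) * 2 ^ p) (mv (A i))) ∧
      ∀ x : Fin (2 ^ p) → ℝ, nsq x = 1 → cnt (fun i => ε < |nsq (mv (A i) x) - 1|) ≤ P * r := by
  classical
  obtain ⟨W, hW, hWf⟩ := exists_had p
  obtain ⟨Wb, hWb, hWbf⟩ := exists_had b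
  set rb : ℕ := p - a - b with hrb
  have hrbb : rb + b = p - a := by omega
  have hrba : rb + b + a = p := by omega
  obtain ⟨εb, hεb⟩ := exists_flat (I := Fin (2 ^ b)) (R := Fin (2 ^ rb)) b (by simp) Wb hWb
  set B := LM Wb εb with hB
  set Jt : ℕ := M * (J + 1) with hJt
  have hcQ : (Fintype.card (Fin (2 ^ rb) × Fin (2 ^ b)) : ℝ) = 2 ^ (p - a) := by
    rw [Fintype.card_prod, Fintype.card_fin, Fintype.card_fin, ← hrbb, pow_add]; push_cast; ring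
  have hcE : (Fintype.card (Fin (2 ^ p)) : ℝ) = 2 ^ p := by simp
  have hcM : (Fintype.card (Fin (2 ^ b)) : ℝ) = 2 ^ b := by simp
  have hcE' : Fintype.card (Fin (2 ^ p)) = 2 ^ p := by simp
  have hEQ : (2 : ℝ) ^ a = (Fintype.card (Fin (2 ^ p)) : ℝ) / Fintype.card (Fin (2 ^ rb) × Fin (2 ^ b)) := by
    rw [hcE, hcQ, eq_div_iff (by positivity), ← pow_add]
    congr 1
    omega
  have hβ1 : 1 ≤ β := by
    refine fr_beta_ge (p := b) (a := p - a - b) ?_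
    rw [hβ]
    congr 4
    omega
  have hflatB : ∀ (S : Finset (Fin (2 ^ rb) × Fin (2 ^ b))) (y : Fin (2 ^ b) → ℝ),
      ∑ s ∈ S, (mv B y s) ^ 2 ≤ β * (1 / (2 ^ rb : ℝ) + S.card / Fintype.card (Fin (2 ^ rb) × Fin (2 ^ b))) * nsq y := by
    intro S y
    refine (hεb S y).trans (le_of_eq ?_)
    have e1 : ((Fintype.card (Fin (2 ^ rb)) : ℕ) : ℝ) = 2 ^ rb := by simp
    have e2 : ((Fintype.card (Fin (2 ^ b)) : ℕ) : ℝ) = 2 ^ b := by simp
    rw [e1, e2, hcQ, hβ, ← hrbb, pow_add (2 : ℝ) rb b]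
  have hlam0 : 0 < lam := by
    have h1 : 0 ≤ τ1 := by
      have h2 : 0 ≤ Real.log (2 * 2 ^ p) := by
        apply Real.log_nonneg
        have : (1 : ℝ) ≤ 2 ^ p := one_le_pow₀ (by norm_num)
        linarith
      have h3 : (0 : ℝ) < 2 ^ p := by positivity
      by_contra hneg
      push Not at hneg
      have h4 : τ1 * 2 ^ p < 0 := mul_neg_of_neg_of_pos hneg h3
      linarith
    linarith
  -- the probability space
  set c1 : ℝ := ((Fintype.card (Fin Jt → Fin (2 ^ p) → Bool) : ℕ) : ℝ) with hc1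
  set c2 : ℝ := ((Fintype.card ((Fin (2 ^ p) → Fin (2 ^ rb) × Fin (2 ^ b)) × (Fin (2 ^ p) → Bool)) : ℕ) : ℝ) with hc2
  have hc1p : 0 < c1 := by rw [hc1]; exact_mod_cast Fintype.card_pos
  have hc2p : 0 < c2 := by rw [hc2]; exact_mod_cast Fintype.card_pos
  have hcΩ : (Fintype.card (Sp p rb b Jt) : ℝ) = c1 * c2 := by
    rw [hc1, hc2, Fintype.card_prod]; push_cast; rfl
  set Gd : Sp p rb b Jt → Prop := fun ω => Good W p cm w Jt s D (ex ω.1) ∧ Bal ω.2.1 with hGdd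
  have hgood := good_count W hW p cm w Jt s D hp hcE' hD0 hg1 hg2 hw
  have hbal := bal_count (E := Fin (2 ^ p)) (Q := Fin (2 ^ rb) × Fin (2 ^ b)) (by rw [← hEQ, hcQ]; exact hload)
  have hGd : 1 / 4 * (Fintype.card (Sp p rb b Jt) : ℝ) ≤ cnt Gd := by
    have h1 : cnt (fun ω => ¬ Gd ω) ≤ cnt (fun ω : Sp p rb b Jt => ¬ Good W p cm w Jt s D (ex ω.1) ∨ ¬ Bal ω.2.1) :=
      cnt_mono fun ω h => by
        rw [hGdd] at h
        tauto
    have h2 := cnt_or_le (fun ω : Sp p rb b Jt => ¬ Good W p cm w Jt s D (ex ω.1)) (fun ω : Sp p rb b Jt => ¬ Bal ω.2.1)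
    have h3 : cnt (fun ω : Sp p rb b Jt => ¬ Good W p cm w Jt s D (ex ω.1)) ≤ 1 / 2 * (c1 * c2) := by
      rw [cnt_const_prod (fun L : Fin Jt → Fin (2 ^ p) → Bool => ¬ Good W p cm w Jt s D (ex L))]
      calc cnt (fun L : Fin Jt → Fin (2 ^ p) → Bool => ¬ Good W p cm w Jt s D (ex L)) * c2
          ≤ (p * Jt * Real.exp (-1000 * p) * c1) * c2 := mul_le_mul_of_nonneg_right hgood hc2p.le
        _ = (p * Jt * Real.exp (-1000 * p)) * (c1 * c2) := by ring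
        _ ≤ 1 / 2 * (c1 * c2) := mul_le_mul_of_nonneg_right hg3 (by positivity)
    have h4 : cnt (fun ω : Sp p rb b Jt => ¬ Bal ω.2.1) ≤ 1 / 4 * (c1 * c2) := by
      rw [cnt_const_prod' (fun ω : (Fin (2 ^ p) → Fin (2 ^ rb) × Fin (2 ^ b)) × (Fin (2 ^ p) → Bool) => ¬ Bal ω.1),
        cnt_const_prod (fun h : Fin (2 ^ p) → Fin (2 ^ rb) × Fin (2 ^ b) => ¬ Bal h)]
      have h5 : c2 = (Fintype.card (Fin (2 ^ p) → Fin (2 ^ rb) × Fin (2 ^ b)) : ℝ)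
          * (Fintype.card (Fin (2 ^ p) → Bool) : ℝ) := by
        rw [hc2, Fintype.card_prod]; push_cast; rfl
      rw [h5]
      calc c1 * (cnt (fun h : Fin (2 ^ p) → Fin (2 ^ rb) × Fin (2 ^ b) => ¬ Bal h)
            * (Fintype.card (Fin (2 ^ p) → Bool) : ℝ))
          ≤ c1 * ((1 / 4 * (Fintype.card (Fin (2 ^ p) → Fin (2 ^ rb) × Fin (2 ^ b)) : ℝ))
            * (Fintype.card (Fin (2 ^ p) → Bool) : ℝ)) := by gcongr
        _ = _ := by ring
    have h5 := cnt_add_not Gd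
    rw [hcΩ] at h5 ⊢
    linarith
  obtain ⟨r, φ, hr, hφ, hbad⟩ := subfamily Gd (1 / 4) P hP (by norm_num) hGd
  choose R hR using fun L : ℕ → Fin (2 ^ p) → Bool => traj_mv W L Jt
  refine ⟨r, fun i => fr_V (Real.sqrt (2 ^ rb)) B (R (ex (φ i).1)) (φ i).2.1 (φ i).2.2, hr, fun i => ?_, fun x hx => ?_⟩
  · -- cost
    have c1 := traj_fast W (p * 2 ^ p) hWf (ex (φ i).1) Jt
    have c2 := GG_fast (φ i).2.1 (φ i).2.2
    have c3 := LM_fast_T Wb hWb (b * 2 ^ b) hWbf εb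
    have c4 := fr_scale_fast (I := Fin (2 ^ b)) (Real.sqrt (2 ^ rb))
    have c5 := fast_comp (fast_comp (fast_comp c1 c2) c3) c4
    have he : mv (fr_V (Real.sqrt (2 ^ rb)) B (R (ex (φ i).1)) (φ i).2.1 (φ i).2.2) =
        fun x => (fun (x : Fin (2 ^ b) → ℝ) (i : Fin (2 ^ b)) => Real.sqrt (2 ^ rb) * x i)
          (tv (LM Wb εb) (GG (φ i).2.1 (φ i).2.2 (traj W (ex (φ i).1) x Jt))) := by
      funext x j
      rw [fr_mv, hR]
    rw [he]
    refine fast_mono c5 ?_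
    simp only [Fintype.card_fin, Fintype.card_prod]
    have e2 : 2 ^ rb * 2 ^ b = 2 ^ (p - a) := by rw [← pow_add, hrbb]
    have e3 : 2 ^ (p - a) ≤ 2 ^ p := Nat.pow_le_pow_right (by norm_num) (by omega)
    have e4 : 2 ^ b ≤ 2 ^ p := Nat.pow_le_pow_right (by norm_num) (by omega)
    have e6 : 2 ^ rb * (b * 2 ^ b) ≤ p * 2 ^ p := by
      calc 2 ^ rb * (b * 2 ^ b) = b * 2 ^ (p - a) := by rw [← e2]; ring
        _ ≤ p * 2 ^ p := Nat.mul_le_mul (by omega) e3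
    rw [e2]
    calc Jt * (p * 2 ^ p + 4 * 2 ^ p) + (3 * 2 ^ p + 2 ^ (p - a))
          + (2 ^ rb * (b * 2 ^ b) + 8 * 2 ^ (p - a) + 2 ^ b) + 4 * 2 ^ b
        ≤ Jt * (p * 2 ^ p + 4 * 2 ^ p) + (3 * 2 ^ p + 2 ^ p) + (p * 2 ^ p + 8 * 2 ^ p + 2 ^ p) + 4 * 2 ^ p := by
          gcongr
      _ = (Jt * (p + 4) + (p + 17)) * 2 ^ p := by ring
      _ ≤ (Jt + 5) * (p + 4) * 2 ^ p := by
          apply Nat.mul_le_mul_right
          nlinarith
  · -- failure probability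
    have hnsq : ∀ ω : Sp p rb b Jt, nsq (mv (fr_V (Real.sqrt (2 ^ rb)) B (R (ex ω.1)) ω.2.1 ω.2.2) x)
        = 2 ^ rb * nsq (tv B (GG ω.2.1 ω.2.2 (traj W (ex ω.1) x Jt))) := by
      intro ω
      unfold nsq
      rw [Finset.mul_sum]
      refine Finset.sum_congr rfl (fun j _ => ?_)
      rw [fr_mv, mul_pow, Real.sq_sqrt (by positivity), hR]
    refine hbad (fun ω => ε < |nsq (mv (fr_V (Real.sqrt (2 ^ rb)) B (R (ex ω.1)) ω.2.1 ω.2.2) x) - 1|) ?_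
    set Fl : (Fin Jt → Fin (2 ^ p) → Bool) → Prop := fun L => ∃ f : Fin (2 ^ p) → ℝ, (∀ i, f i ^ 2 ≤ lam) ∧
          nm (fun i => traj W (ex L) x Jt i - f i)
            ≤ 1 / 2 ^ p + (Jt : ℕ) * Real.sqrt (2 * mu) with hFl
    have h1 := flatten W hW p cm w J s M D hp hcE' hD0 hD hs hJ hM τ0 τ1 lam Q mu hτ0 hτs hτ1 hlam hQ hmu hJmu x hx
    have h2 : ∀ L : Fin Jt → Fin (2 ^ p) → Bool, Fl L →
        cnt (fun hε : (Fin (2 ^ p) → Fin (2 ^ rb) × Fin (2 ^ b)) × (Fin (2 ^ p) → Bool) => Bal hε.1 ∧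
          ε < |2 ^ rb * nsq (tv B (GG hε.1 hε.2 (traj W (ex L) x Jt))) - 1|)
        ≤ (Real.exp (-Qp) + 2 * Real.exp (-t ^ 2 * 2 ^ b / 1769472) + Real.exp (-2 * 2 ^ b)) * c2 := by
      intro L hL
      obtain ⟨f, hf1, hf2⟩ := hL
      rw [← hδ] at hf2
      have hδ0 : 0 ≤ δ := (nm_nonneg _).trans hf2
      have hs0 : 0 ≤ 80 * ((δ + Real.sqrt (2 * lam * (Qp + 1))) * Real.sqrt (β * 2 ^ a)) := by positivity
      have h3 := compress (E := Fin (2 ^ p)) (Q := Fin (2 ^ rb) × Fin (2 ^ b)) (M := Fin (2 ^ b)) B (2 ^ rb) β (2 ^ a)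
        lam δ Qp t hβ1 (by positivity) (by rw [hcQ, hcM, ← hrbb, pow_add]) hEQ (fun y => LM_iso Wb hWb εb y)
        (fun q' => by rw [hB, LM_row Wb hWb εb q']; simp) hflatB (by rw [hcQ]; exact hload) hlam0
        (by rw [hcQ]; exact hmass) (traj W (ex L) x Jt) f (by rw [traj_nsq W hW, hx]) hf1 hf2 hQp ht
        (by linarith) (by linarith)
      rw [hcM, ← hc2] at h3
      refine le_trans (cnt_mono fun hε h => ?_) h3
      exact ⟨h.1, lt_of_le_of_lt hγ h.2⟩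
    calc cnt (fun ω : Sp p rb b Jt => Gd ω ∧ ε < |nsq (mv (fr_V (Real.sqrt (2 ^ rb)) B (R (ex ω.1)) ω.2.1 ω.2.2) x) - 1|)
        ≤ cnt (fun ω : Sp p rb b Jt => (Good W p cm w Jt s D (ex ω.1) ∧ ¬ Fl ω.1) ∨
            (Fl ω.1 ∧ (Bal ω.2.1 ∧ ε < |2 ^ rb * nsq (tv B (GG ω.2.1 ω.2.2 (traj W (ex ω.1) x Jt))) - 1|))) := by
          refine cnt_mono fun ω h => ?_
          rw [hnsq] at h
          rw [hGdd] at h
          by_cases hF : Fl ω.1
          · exact Or.inr ⟨hF, h.1.2, h.2⟩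
          · exact Or.inl ⟨h.1.1, hF⟩
      _ ≤ (Jt * Real.exp (-Q) * c1) * c2 + c1 * ((Real.exp (-Qp) + 2 * Real.exp (-t ^ 2 * 2 ^ b / 1769472)
          + Real.exp (-2 * 2 ^ b)) * c2) := by
          refine (cnt_or_le _ _).trans (add_le_add ?_ ?_)
          · rw [cnt_const_prod (fun L : Fin Jt → Fin (2 ^ p) → Bool => Good W p cm w Jt s D (ex L) ∧ ¬ Fl L)]
            exact mul_le_mul_of_nonneg_right h1 hc2p.le
          · rw [cnt_prod]
            refine (sum_le_sum (g := fun _ => (Real.exp (-Qp) + 2 * Real.exp (-t ^ 2 * 2 ^ b / 1769472)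
              + Real.exp (-2 * 2 ^ b)) * c2) fun L _ => ?_).trans (le_of_eq ?_)
            · by_cases hL : Fl L
              · exact (cnt_mono fun hε h => h.2).trans (h2 L hL)
              · have h3 : cnt (fun hε : (Fin (2 ^ p) → Fin (2 ^ rb) × Fin (2 ^ b)) × (Fin (2 ^ p) → Bool) =>
                    Fl L ∧ (Bal hε.1 ∧ ε < |2 ^ rb * nsq (tv B (GG hε.1 hε.2 (traj W (ex L) x Jt))) - 1|)) = 0 := by
                  rw [cnt_eq]
                  simp [hL]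
                rw [h3]
                positivity
            · rw [sum_const, card_univ, nsmul_eq_mul]
      _ = (Jt * Real.exp (-Q) + (Real.exp (-Qp) + 2 * Real.exp (-t ^ 2 * 2 ^ b / 1769472)
          + Real.exp (-2 * 2 ^ b))) * (c1 * c2) := by ring
      _ ≤ P * (1 / 4) * (c1 * c2) := mul_le_mul_of_nonneg_right hprob (by positivity)
      _ = P * (1 / 4 * (Fintype.card (Sp p rb b Jt) : ℝ)) := by rw [hcΩ]; ring

end Pool.Agent.Helper951_jl
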