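import Pool.Agent.Helper951_jl.Core

/-!
Project JL (helper951, MP_fe497f_lc). Module Final: all dimensions.
-/

namespace Pool.Agent.Helper951_jl

open Finset Pool.Agent.Helper951_sr

theorem final_mv_smul {J I : Type} [Fintype I] (A : J → I → ℝ) (c : ℝ) (x : I → ℝ) :
    mv A (fun i => c * x i) = fun j => c * mv A x j := by
  funext j
  unfold mv
  rw [mul_sum]
  exact sum_congr rfl fun i _ => by ring

theorem final_scale {J I : Type} [Fintype J] [Fintype I] (A : J → I → ℝ) (x : I → ℝ) (ε : ℝ) (h0 : 0 < ε)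
    (h1 : ε < 1) (hx : 0 < nm x)
    (h : ¬ ((1 - ε) * nm x ≤ nm (mv A x) ∧ nm (mv A x) ≤ (1 + ε) * nm x)) :
    ε < |nsq (mv A (fun i => (nm x)⁻¹ * x i)) - 1| := by
  by_contra hcon
  push Not at hcon
  apply h
  have h2 : nsq (mv A (fun i => (nm x)⁻¹ * x i)) = nm (mv A x) ^ 2 / nm x ^ 2 := by
    rw [final_mv_smul, nm_sq]
    unfold nsq
    rw [sum_div]
    refine sum_congr rfl fun j _ => ?_
    field_simp
  rw [h2, abs_le] at hcon
  have hx2 : 0 < nm x ^ 2 := by positivity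
  have h3 : (1 - ε) * nm x ^ 2 ≤ nm (mv A x) ^ 2 := by
    rw [← le_div_iff₀ hx2]
    linarith [hcon.1]
  have h4 : nm (mv A x) ^ 2 ≤ (1 + ε) * nm x ^ 2 := by
    rw [← div_le_iff₀ hx2]
    linarith [hcon.2]
  have hA := nm_nonneg (mv A x)
  constructor
  · apply le_of_sq_le_sq _ hA
    nlinarith [mul_nonneg h0.le (sub_nonneg.2 h1.le)]
  · apply le_of_sq_le_sq _ (by positivity)
    nlinarith [mul_nonneg h0.le h0.le]

/-- The main theorem. -/
theorem jl_main : ∃ (C c : ℝ) (e : ℕ), 0 < C ∧ 0 < c ∧ ∀ (d : ℕ) (ε P : ℝ), 1 ≤ d → 0 < ε → ε < 1 → 0 < P →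
    P ≤ 1 / 2 → ∃ (k T r : ℕ) (A : Fin r → Fin k → Fin d → ℝ), 0 < r ∧
      (k : ℝ) ≤ C * (Real.log (1 / P) / ε ^ 2) ∧ min (d : ℝ) (Real.log (1 / P) / ε ^ 2) ≤ k ∧
      (T : ℝ) ≤ c * (d * Real.log (d + 1) ^ e) ∧
      (∀ i, FastMap T (mv (A i))) ∧
      ∀ x : Fin d → ℝ, cnt (fun i => ¬ ((1 - ε) * nm x ≤ nm (mv (A i) x) ∧ nm (mv (A i) x) ≤ (1 + ε) * nm x))
        ≤ P * r := by
  obtain ⟨K, hK⟩ : ∃ K : ℕ, K = 700 := ⟨_, rfl⟩
  refine ⟨2 ^ 28, 2 ^ 75 * 731 ^ 10 * 2 * 2 ^ 30 * 2 ^ K * 4 ^ 40, 40, by positivity, by positivity, ?_⟩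
  intro d ε P hd hε0 hε1 hP0 hP
  have hq2 : 1 / 2 ≤ Real.log (1 / P) := by
    refine fin_log2l.trans (Real.log_le_log (by norm_num) ?_)
    rw [le_div_iff₀ hP0]
    linarith
  set q := Real.log (1 / P) with hq
  have hε2 : ε ^ 2 ≤ 1 := by nlinarith
  have hqe : 1 ≤ 2 ^ 27 * (q / ε ^ 2) := by
    have h3 : q ≤ q / ε ^ 2 := by
      rw [le_div_iff₀ (by positivity)]
      nlinarith
    linarith
  obtain ⟨b', hb'1, hb'2⟩ := exists_nat_pow_near hqe (show (1 : ℝ) < 2 by norm_num)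
  set b := b' + 1 with hb
  have hb1 : 2 ^ 27 * (q / ε ^ 2) ≤ (2 : ℝ) ^ b := hb'2.le
  have hb2 : (2 : ℝ) ^ b ≤ 2 ^ 28 * (q / ε ^ 2) := by
    rw [hb, pow_succ]
    linarith
  have hlogd : 0 ≤ Real.log ((d : ℝ) + 1) := Real.log_nonneg (by linarith [(Nat.cast_nonneg d : (0 : ℝ) ≤ d)])
  by_cases hdb : d ≤ 2 ^ b
  · -- identity
    refine ⟨d, 0, 1, fun _ i j => if i = j then 1 else 0, one_pos, ?_, min_le_left _ _, ?_, ?_, ?_⟩
    · have h3 : (d : ℝ) ≤ 2 ^ b := by exact_mod_cast hdb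
      linarith
    · rw [Nat.cast_zero]
      positivity
    · intro _
      have he : mv (fun (i j : Fin d) => if i = j then (1:ℝ) else 0) = fun (x : Fin d → ℝ) (i : Fin d) => x i := by
        funext x i; simp [mv]
      rw [he]
      exact fast_mono (fast_reindex (fun i : Fin d => i)) (Nat.zero_le _)
    · intro x
      have he : mv (fun (i j : Fin d) => if i = j then (1:ℝ) else 0) x = x := by
        funext i; simp [mv]
      beta_reduce
      rw [he]
      have hx := nm_nonneg x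
      have h3 : (1 - ε) * nm x ≤ nm x ∧ nm x ≤ (1 + ε) * nm x := by
        constructor <;> nlinarith
      rw [cnt_eq]
      simp only [h3, and_self, not_true_eq_false, filter_false, card_empty, Nat.cast_zero]
      positivity
  · push Not at hdb
    have hd2 : 2 ≤ d := by
      have : 1 ≤ 2 ^ b := Nat.one_le_two_pow
      omega
    have hd0 : (0 : ℝ) < d := by positivity
    set l := Nat.clog 2 d with hl
    have hl1 : d ≤ 2 ^ l := Nat.le_pow_clog (by norm_num) d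
    have hl0 : 1 ≤ l := Nat.clog_pos (by norm_num) hd2
    have hl2 : 2 ^ (l - 1) < d := Nat.pow_pred_clog_lt_self (by norm_num) (by omega)
    have hl3 : 2 ^ l ≤ 2 * d := by
      have h5 : 2 ^ l = 2 * 2 ^ (l - 1) := by
        rw [← pow_succ']; congr 1; omega
      omega
    have hbl : b < l := (Nat.pow_lt_pow_iff_right (by norm_num)).1 (lt_of_lt_of_le hdb hl1)
    set u := Nat.clog 2 (l + 1) with hu
    have hu1 : l + 1 ≤ 2 ^ u := Nat.le_pow_clog (by norm_num) _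
    have hu2 : 2 ^ u ≤ 2 * (l + 1) := by
      have h1 : 2 ^ (u - 1) < l + 1 := Nat.pow_pred_clog_lt_self (b := 2) (x := l + 1) (by norm_num) (by omega)
      have h0 : 1 ≤ u := Nat.clog_pos (b := 2) (n := l + 1) (by norm_num) (by omega)
      have h2 : 2 ^ u = 2 * 2 ^ (u - 1) := by
        rw [← pow_succ', Nat.sub_add_cancel h0]
      omega
    have hul : u ≤ l + 1 := by
      apply Nat.clog_le_of_le_pow
      exact (Nat.lt_two_pow_self).le
    set p := l + 30 * u + K with hp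
    have hp1 : 1 ≤ p := by omega
    have hpl : p ≤ 731 * (l + 1) := by omega
    have hpu : (p : ℝ) ≤ 2 ^ (10 + u) := by
      have h3 : p ≤ 2 ^ (10 + u) := by
        calc p ≤ 731 * (l + 1) := hpl
          _ ≤ 2 ^ 10 * 2 ^ u := Nat.mul_le_mul (by norm_num) hu1
          _ = 2 ^ (10 + u) := (pow_add _ _ _).symm
      exact_mod_cast h3
    have hdp : d ≤ 2 ^ p := hl1.trans (Nat.pow_le_pow_right (by norm_num) (by omega))
    have h1 : (2 : ℝ) ^ 40 * p ^ 4 * 2 ^ b ≤ 2 ^ p := by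
      calc (2 : ℝ) ^ 40 * p ^ 4 * 2 ^ b ≤ 2 ^ 40 * (2 ^ (10 + u)) ^ 4 * 2 ^ l := by
            gcongr
            norm_num
        _ = 2 ^ (40 + (10 + u) * 4 + l) := by rw [← pow_mul, pow_add, pow_add]
        _ ≤ 2 ^ p := pow_le_pow_right₀ (by norm_num) (by omega)
    have hql : q / ε ^ 2 ≤ 2 ^ l := by
      have h3 : (2 : ℝ) ^ b ≤ 2 ^ l := pow_le_pow_right₀ (by norm_num) hbl.le
      have h4 : 0 ≤ q / ε ^ 2 := by positivity
      linarith
    have h2 : (2 : ℝ) ^ 200 * 2 ^ 60 * p ^ 28 * (q / ε ^ 2) ≤ 2 ^ p := by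
      calc (2 : ℝ) ^ 200 * 2 ^ 60 * p ^ 28 * (q / ε ^ 2) ≤ 2 ^ 200 * 2 ^ 60 * (2 ^ (10 + u)) ^ 28 * 2 ^ l := by
            gcongr
        _ = 2 ^ (200 + 60 + (10 + u) * 28 + l) := by rw [← pow_mul, pow_add, pow_add, pow_add]
        _ ≤ 2 ^ p := pow_le_pow_right₀ (by norm_num) (by omega)
    obtain ⟨r, A, hr, hA1, hA2⟩ := jl_core p b q ε P hp1 hε0 hε1 hP0 hP hq hb1 (by omega) h1 h2
    refine ⟨2 ^ b, 3 * 2 ^ p + 2 ^ p + 2 ^ 74 * p ^ 10 * 2 ^ p, r, fun i j (t : Fin d) => A i j (Fin.castLE hdp t), hr,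
      ?_, ?_, ?_, ?_, ?_⟩
    · push_cast
      exact hb2
    · push_cast
      refine (min_le_right _ _).trans (le_trans ?_ hb1)
      have h4 : 0 ≤ q / ε ^ 2 := by positivity
      linarith
    · -- the number of operations
      have h3 : ((3 * 2 ^ p + 2 ^ p + 2 ^ 74 * p ^ 10 * 2 ^ p : ℕ) : ℝ) ≤ 2 ^ 75 * (p : ℝ) ^ 10 * 2 ^ p := by
        push_cast
        have h4 : (1 : ℝ) ≤ (p : ℝ) ^ 10 := one_le_pow₀ (by exact_mod_cast hp1)
        have h5 : (0 : ℝ) < 2 ^ p := by positivity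
        have h6 : (2 : ℝ) ^ p ≤ (p : ℝ) ^ 10 * 2 ^ p := by nlinarith
        linarith
      have hll : ((l : ℝ) + 1) ≤ 4 * Real.log ((d : ℝ) + 1) := by
        have h4 : Real.log ((2 : ℝ) ^ (l - 1)) ≤ Real.log d := by
          apply Real.log_le_log (by positivity)
          exact_mod_cast hl2.le
        rw [Real.log_pow] at h4
        have h5 : ((l - 1 : ℕ) : ℝ) = l - 1 := by
          rw [Nat.cast_sub hl0]; norm_num
        rw [h5] at h4
        have h6 : Real.log d ≤ Real.log ((d : ℝ) + 1) := Real.log_le_log hd0 (by linarith)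
        have h7 : 1 ≤ Real.log ((d : ℝ) + 1) := by
          rw [Real.le_log_iff_exp_le (by positivity)]
          have h8 : (2 : ℝ) ≤ d := by exact_mod_cast hd2
          linarith [Real.exp_one_lt_three]
        have h9 : (1 : ℝ) ≤ l := by exact_mod_cast hl0
        have h10 := fin_log2l
        nlinarith
      have hpl' : (p : ℝ) ≤ 731 * ((l : ℝ) + 1) := by exact_mod_cast hpl
      have h2u : (2 : ℝ) ^ u ≤ 2 * ((l : ℝ) + 1) := by exact_mod_cast hu2
      have h2l : (2 : ℝ) ^ l ≤ 2 * d := by exact_mod_cast hl3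
      have h2p : (2 : ℝ) ^ p = 2 ^ l * (2 ^ u) ^ 30 * 2 ^ K := by
        rw [hp, pow_add, pow_add, ← pow_mul, mul_comm u 30]
      have hl1' : (0 : ℝ) ≤ (l : ℝ) + 1 := by positivity
      have hK0 : (0 : ℝ) < 2 ^ K := by positivity
      calc ((3 * 2 ^ p + 2 ^ p + 2 ^ 74 * p ^ 10 * 2 ^ p : ℕ) : ℝ) ≤ 2 ^ 75 * (p : ℝ) ^ 10 * 2 ^ p := h3
        _ = 2 ^ 75 * (p : ℝ) ^ 10 * (2 ^ l * (2 ^ u) ^ 30 * 2 ^ K) := by rw [h2p]
        _ ≤ 2 ^ 75 * (731 * ((l : ℝ) + 1)) ^ 10 * ((2 * d) * (2 * ((l : ℝ) + 1)) ^ 30 * 2 ^ K) := by gcongr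
        _ = 2 ^ 75 * 731 ^ 10 * 2 * 2 ^ 30 * 2 ^ K * (d * ((l : ℝ) + 1) ^ 40) := by ring
        _ ≤ 2 ^ 75 * 731 ^ 10 * 2 * 2 ^ 30 * 2 ^ K * (d * (4 * Real.log ((d : ℝ) + 1)) ^ 40) := by gcongr
        _ = 2 ^ 75 * 731 ^ 10 * 2 * 2 ^ 30 * 2 ^ K * 4 ^ 40 * (d * Real.log ((d : ℝ) + 1) ^ 40) := by
            rw [mul_pow]; ring
    · intro i
      have he : mv (fun j (t : Fin d) => A i j (Fin.castLE hdp t)) = fun x => mv (A i) (fr_ext x) := by
        funext x; exact fr_mv_ext hdp (A i) x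
      rw [he]
      exact fast_comp (fr_ext_fast d (2 ^ p)) (hA1 i)
    · intro x
      rcases (nm_nonneg x).eq_or_lt with hx | hx
      · -- the zero vector
        have h3 : ∀ i, mv (fun j (t : Fin d) => A i j (Fin.castLE hdp t)) x = fun _ => 0 := by
          intro i
          funext j
          unfold mv
          refine sum_eq_zero fun t _ => ?_
          rw [nm_eq_zero x hx.symm t, mul_zero]
        rw [cnt_eq]
        have h4 : (univ.filter fun i => ¬ ((1 - ε) * nm x ≤ nm (mv (fun j (t : Fin d) => A i j (Fin.castLE hdp t)) x) ∧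
            nm (mv (fun j (t : Fin d) => A i j (Fin.castLE hdp t)) x) ≤ (1 + ε) * nm x)) = ∅ := by
          apply filter_eq_empty_iff.2
          intro i _
          rw [not_not, h3 i, nm_zero, ← hx]
          simp
        rw [h4, card_empty, Nat.cast_zero]
        positivity
      · set y : Fin (2 ^ p) → ℝ := fr_ext (fun i => (nm x)⁻¹ * x i) with hy
        have hy1 : nsq y = 1 := by
          rw [hy, fr_nsq_ext hdp]
          have h3 : nsq (fun i => (nm x)⁻¹ * x i) = (nm x)⁻¹ ^ 2 * nsq x := by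
            unfold nsq
            rw [mul_sum]
            exact sum_congr rfl fun i _ => by ring
          rw [h3, ← nm_sq x]
          field_simp
        refine (cnt_mono fun i hi => ?_).trans (hA2 y hy1)
        have h3 := final_scale (fun j (t : Fin d) => A i j (Fin.castLE hdp t)) x ε hε0 hε1 hx hi
        rw [fr_mv_ext hdp (A i)] at h3
        exact h3

end Pool.Agent.Helper951_jl
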