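import Pool.Agent.Helper951_jl.Basic

/-!
Project JL (helper951, MP_fe497f_lc). Module Grid: grid vectors.
-/

namespace Pool.Agent.Helper951_jl

open Finset Pool.Agent.Helper951_sr

/-- the vector coded by a finite list of positions and values -/
noncomputable def grid_dec {I : Type} (p K : ℕ) (f : Fin K → I × ℤ) : I → ℝ :=
  open Classical in
  fun i => if h : ∃ k, (f k).1 = i then ((f h.choose).2 : ℝ) / 2 ^ (2 * p + 4) else 0

theorem grid_cover {I : Type} [DecidableEq I] (K : ℕ) (S : Finset I) (hS : S.card ≤ K) (i0 : I) :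
    ∃ e : Fin K → I, ∀ i ∈ S, ∃ k, e k = i := by
  refine ⟨fun k => if h : (k : ℕ) < S.card then (S.equivFin.symm ⟨k, h⟩ : S).1 else i0, fun i hi => ?_⟩
  have h1 := (S.equivFin ⟨i, hi⟩).2
  refine ⟨⟨(S.equivFin ⟨i, hi⟩ : ℕ), h1.trans_le hS⟩, ?_⟩
  simp only
  rw [dif_pos h1]
  simp

theorem grid_abs {I : Type} [Fintype I] (p : ℕ) (u : I → ℝ) (hu : nsq u ≤ 1) (i : I) (z : ℤ)
    (hz : u i = z / 2 ^ (2 * p + 4)) : z ∈ Icc (-(2 : ℤ) ^ (2 * p + 4)) (2 ^ (2 * p + 4)) := by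
  have h1 : u i ^ 2 ≤ 1 := by
    refine le_trans ?_ hu
    exact single_le_sum (f := fun i => u i ^ 2) (fun j _ => sq_nonneg (u j)) (mem_univ i)
  have h2 : |u i| ≤ 1 := by
    rw [← sq_le_one_iff_abs_le_one]
    exact h1
  have hM : (0 : ℝ) < 2 ^ (2 * p + 4) := by positivity
  rw [hz, abs_div, abs_of_pos hM, div_le_one hM, abs_le] at h2
  rw [mem_Icc]
  constructor
  · have := h2.1
    exact_mod_cast this
  · have := h2.2
    exact_mod_cast this

theorem grid_count {I : Type} [Fintype I] [DecidableEq I] (p K : ℕ) (hI : Fintype.card I = 2 ^ p) (hp : 1 ≤ p)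
    (hK : 1 ≤ K) : ∃ G : Finset (I → ℝ), (∀ u, grid p K u → u ∈ G) ∧ (G.card : ℝ) ≤ Real.exp (16 * p * K) := by
  classical
  have hne : 0 < Fintype.card I := by rw [hI]; positivity
  obtain ⟨i0⟩ : Nonempty I := Fintype.card_pos_iff.1 hne
  set D : Finset (Fin K → I × ℤ) := Fintype.piFinset
    (fun _ => (univ : Finset I) ×ˢ Icc (-(2 : ℤ) ^ (2 * p + 4)) (2 ^ (2 * p + 4))) with hD
  refine ⟨D.image (grid_dec p K), fun u hu => ?_, ?_⟩
  · obtain ⟨h1, h2, h3⟩ := hu
    choose z hz using h3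
    obtain ⟨e, he⟩ := grid_cover K (univ.filter (fun i => u i ≠ 0)) h2 i0
    rw [mem_image]
    refine ⟨fun k => (e k, z (e k)), ?_, ?_⟩
    · rw [hD, Fintype.mem_piFinset]
      intro k
      rw [mem_product]
      exact ⟨mem_univ _, grid_abs p u h1 _ _ (hz _)⟩
    · funext i
      unfold grid_dec
      by_cases h : ∃ k, ((fun k => (e k, z (e k))) k : I × ℤ).1 = i
      · rw [dif_pos h]
        have h4 : e h.choose = i := h.choose_spec
        simp only
        rw [h4, hz i]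
      · rw [dif_neg h]
        by_contra h5
        apply h
        exact he i (by
          rw [mem_filter]
          exact ⟨mem_univ _, fun h6 => h5 h6.symm⟩)
  · have h1 : (D.image (grid_dec (I := I) p K)).card ≤ D.card := card_image_le
    have h2 : D.card = (2 ^ p * (2 * 2 ^ (2 * p + 4) + 1)) ^ K := by
      rw [hD, Fintype.card_piFinset_const, card_product, card_univ, hI, Int.card_Icc]
      congr 2
      have e : ((2 : ℤ) ^ (2 * p + 4) + 1 - -(2 : ℤ) ^ (2 * p + 4)) = ((2 * 2 ^ (2 * p + 4) + 1 : ℕ) : ℤ) := by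
        push_cast
        ring
      rw [e, Int.toNat_natCast]
    have h3 : 2 ^ p * (2 * 2 ^ (2 * p + 4) + 1) ≤ 2 ^ (9 * p) := by
      have h4 : 2 * 2 ^ (2 * p + 4) + 1 ≤ 2 ^ (2 * p + 6) := by
        have e : 2 ^ (2 * p + 6) = 4 * 2 ^ (2 * p + 4) := by ring
        have : 1 ≤ 2 ^ (2 * p + 4) := Nat.one_le_two_pow
        omega
      calc 2 ^ p * (2 * 2 ^ (2 * p + 4) + 1) ≤ 2 ^ p * 2 ^ (2 * p + 6) := Nat.mul_le_mul_left _ h4
        _ = 2 ^ (p + (2 * p + 6)) := by rw [pow_add 2 p]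
        _ ≤ 2 ^ (9 * p) := Nat.pow_le_pow_right (by norm_num) (by omega)
    have h5 : (D.card : ℝ) ≤ ((2 : ℝ) ^ (9 * p)) ^ K := by
      rw [h2]
      have := Nat.pow_le_pow_left h3 K
      exact_mod_cast this
    have h6 : (2 : ℝ) ≤ Real.exp 1 := by
      have := Real.add_one_le_exp (1 : ℝ)
      linarith
    calc (((D.image (grid_dec (I := I) p K)).card : ℕ) : ℝ) ≤ (D.card : ℝ) := by exact_mod_cast h1
      _ ≤ ((2 : ℝ) ^ (9 * p)) ^ K := h5
      _ = (2 : ℝ) ^ (9 * p * K) := by rw [← pow_mul]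
      _ ≤ (Real.exp 1) ^ (9 * p * K) := pow_le_pow_left₀ (by norm_num) h6 _
      _ = Real.exp (9 * p * K) := by
          rw [← Real.exp_nat_mul]
          congr 1
          push_cast
          ring
      _ ≤ Real.exp (16 * p * K) := by
          apply Real.exp_le_exp.2
          have : (0 : ℝ) ≤ (p : ℝ) * K := by positivity
          nlinarith

theorem grid_rnd (M x : ℝ) (hM : 0 < M) : ∃ z : ℤ, (z / M) ^ 2 ≤ x ^ 2 ∧ (x - z / M) ^ 2 ≤ (1 / M) ^ 2 ∧
    (x = 0 → z = 0) := by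
  rcases le_or_gt 0 x with h | h
  · have h1 : (0 : ℝ) ≤ (⌊x * M⌋ : ℝ) := by
      have : (0 : ℤ) ≤ ⌊x * M⌋ := Int.floor_nonneg.2 (by positivity)
      exact_mod_cast this
    have h2 := Int.floor_le (x * M)
    have h3 := Int.lt_floor_add_one (x * M)
    refine ⟨⌊x * M⌋, ?_, ?_, fun h0 => by simp [h0]⟩
    · apply pow_le_pow_left₀ (by positivity)
      rw [div_le_iff₀ hM]
      exact h2
    · have a1 : 0 ≤ x - ⌊x * M⌋ / M := by
        rw [sub_nonneg, div_le_iff₀ hM]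
        exact h2
      apply pow_le_pow_left₀ a1
      rw [sub_le_iff_le_add, ← add_div, le_div_iff₀ hM]
      linarith
  · have h1 : (⌈x * M⌉ : ℝ) ≤ 0 := by
      have : ⌈x * M⌉ ≤ (0 : ℤ) := Int.ceil_le.2 (by
        push_cast
        nlinarith)
      exact_mod_cast this
    have h2 := Int.le_ceil (x * M)
    have h3 := Int.ceil_lt_add_one (x * M)
    refine ⟨⌈x * M⌉, ?_, ?_, fun h0 => by simp [h0]⟩
    · rw [← neg_sq, ← neg_sq x]
      apply pow_le_pow_left₀
      · rw [neg_nonneg]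
        exact div_nonpos_of_nonpos_of_nonneg h1 hM.le
      · rw [neg_le_neg_iff, le_div_iff₀ hM]
        exact h2
    · rw [← neg_sq]
      have a1 : 0 ≤ -(x - ⌈x * M⌉ / M) := by
        rw [neg_nonneg, sub_nonpos, le_div_iff₀ hM]
        exact h2
      apply pow_le_pow_left₀ a1
      rw [neg_sub, sub_le_iff_le_add, div_le_iff₀ hM, add_mul, one_div, inv_mul_cancel₀ hM.ne']
      linarith

theorem grid_round {I : Type} [Fintype I] [DecidableEq I] (p K : ℕ) (hI : Fintype.card I = 2 ^ p) (x : I → ℝ)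
    (hx : nsq x ≤ 1) (hs : sz x ≤ K) : ∃ u, grid p K u ∧ nm (fun i => x i - u i) ≤ 1 / 2 ^ (p + 4) := by
  have hM : (0 : ℝ) < 2 ^ (2 * p + 4) := by positivity
  choose z h1 h2 h3 using fun i => grid_rnd (2 ^ (2 * p + 4)) (x i) hM
  refine ⟨fun i => z i / 2 ^ (2 * p + 4), ⟨?_, ?_, fun i => ⟨z i, rfl⟩⟩, ?_⟩
  · exact (sum_le_sum fun i _ => h1 i).trans hx
  · refine le_trans ?_ hs
    unfold sz
    apply card_le_card
    intro i hi
    rw [mem_filter] at hi ⊢
    refine ⟨hi.1, fun h0 => hi.2 ?_⟩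
    simp only
    rw [h3 i h0]
    simp
  · apply nm_le_of_nsq_le _ _ (by positivity)
    have h4 : nsq (fun i => x i - z i / 2 ^ (2 * p + 4)) ≤ ∑ _i : I, ((1 : ℝ) / 2 ^ (2 * p + 4)) ^ 2 :=
      sum_le_sum fun i _ => h2 i
    refine h4.trans ?_
    rw [sum_const, card_univ, hI, nsmul_eq_mul]
    push_cast
    rw [div_pow, div_pow, one_pow, ← pow_mul, ← pow_mul, mul_one_div, div_le_div_iff₀ (by positivity) (by positivity),
      one_mul, ← pow_add]
    exact pow_le_pow_right₀ (by norm_num) (by omega)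

end Pool.Agent.Helper951_jl
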