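import Pool.Agent.Helper951_jl.Layer
import Pool.Agent.Helper951_jl.Seq
import Pool.Agent.Helper951_jl.Grid

/-!
Project JL (helper951, MP_fe497f_lc). Module GoodCount: Lemma 3.
-/

namespace Pool.Agent.Helper951_jl

open Finset Pool.Agent.Helper951_sr

/-- one layer keeps mass of the small part with small probability -/
theorem goodcount_bev {I : Type} [Fintype I] [DecidableEq I] [Nonempty I] (W : I → I → ℝ) (hW : IsHad W)
    (p c s : ℕ) (D : ℝ) (hI : Fintype.card I = 2 ^ p) (hD : 0 < D)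
    (h1 : 64 * Real.log (4 * 2 ^ p) ≤ D * 2 ^ c) (h2 : 16 * Real.log (2 * 2 ^ p) * s ≤ D * 2 ^ p)
    (v : I → ℝ) (hv : nsq v ≤ 1) :
    cnt (fun ε : I → Bool => Bev W s D (2 / 2 ^ c) v ε)
      ≤ Real.exp (-(D * 2 ^ c / 64)) * 2 ^ Fintype.card I := by
  have hN : (Fintype.card I : ℝ) = 2 ^ p := by
    rw [hI]
    push_cast
    rfl
  have h3 := one_layer W hW (low (2 / 2 ^ c) v) 1 (2 / 2 ^ c) D s ((nsq_low_le _ v).trans hv) (by positivity)
    (low_sq_le _ (by positivity) v) hD (by rw [hN, mul_one]; exact h2)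
  refine le_trans h3 ?_
  apply mul_le_mul_of_nonneg_right _ (by positivity)
  have e1 : -D / (16 * (2 / 2 ^ c)) = -(D * 2 ^ c / 64) + -(D * 2 ^ c / 64) := by
    field_simp
    norm_num
  rw [e1, Real.exp_add, ← mul_assoc]
  have h4 : 2 * (Fintype.card I : ℝ) * Real.exp (-(D * 2 ^ c / 64)) ≤ 1 := by
    rw [hN]
    have h6 : Real.log (2 * 2 ^ p) ≤ D * 2 ^ c / 64 := by
      have h5 : Real.log (2 * 2 ^ p) ≤ Real.log (4 * 2 ^ p) := by
        apply Real.log_le_log (by positivity)
        have : (0 : ℝ) < 2 ^ p := by positivity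
        linarith
      linarith
    have h7 : (2 * 2 ^ p : ℝ) ≤ Real.exp (D * 2 ^ c / 64) := by
      rwa [← Real.log_le_iff_le_exp (by positivity)]
    rw [Real.exp_neg, ← div_eq_mul_inv, div_le_one (Real.exp_pos _)]
    exact h7
  have h8 := mul_le_mul_of_nonneg_right h4 (Real.exp_pos (-(D * 2 ^ c / 64))).le
  rw [one_mul] at h8
  exact h8

theorem good_count {I : Type} [Fintype I] [DecidableEq I] [Nonempty I] (W : I → I → ℝ) (hW : IsHad W)
    (p cm w J s : ℕ) (D : ℝ) (hp : 1 ≤ p) (hI : Fintype.card I = 2 ^ p) (hD : 0 < D)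
    (h1 : ∀ c, cm < c → 64 * Real.log (4 * 2 ^ p) ≤ D * 2 ^ c)
    (h2 : 16 * Real.log (2 * 2 ^ p) * s ≤ D * 2 ^ p) (hw : 65536 * p ≤ w * D) :
    cnt (fun L : Fin J → I → Bool => ¬ Good W p cm w J s D (ex L))
      ≤ p * J * Real.exp (-1000 * p) * Fintype.card (Fin J → I → Bool) := by
  classical
  have hG := fun c : ℕ => grid_count (I := I) p (2 ^ c) hI hp Nat.one_le_two_pow
  choose G hG1 hG2 using hG
  have hT : (0 : ℝ) ≤ Fintype.card (Fin J → I → Bool) := by positivity
  have hp1 : (1 : ℝ) ≤ p := by exact_mod_cast hp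
  -- the union bound
  have hsub : ∀ L : Fin J → I → Bool, ¬ Good W p cm w J s D (ex L) →
      ∃ c ∈ Ioc cm p, ∃ j ∈ (range J).filter (fun j => j + 1 + w ≤ J),
        ∃ u ∈ (G c).filter (fun u => grid p (2 ^ c) u),
          alive W s D (2 / 2 ^ c) w (UU W (ex L j) u) (fun i => ex L (j + 1 + i)) := by
    intro L hL
    unfold Good at hL
    push Not at hL
    obtain ⟨c, hc1, hc2, u, hu, j, hj, ha⟩ := hL
    refine ⟨c, mem_Ioc.2 ⟨hc1, hc2⟩, j, ?_, u, ?_, ha⟩
    · rw [mem_filter, mem_range]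
      exact ⟨by omega, hj⟩
    · rw [mem_filter]
      exact ⟨hG1 c u hu, hu⟩
  refine (cnt_mono hsub).trans ?_
  have hterm : ∀ c ∈ Ioc cm p, ∀ j ∈ (range J).filter (fun j => j + 1 + w ≤ J),
      cnt (fun L : Fin J → I → Bool => ∃ u ∈ (G c).filter (fun u => grid p (2 ^ c) u),
          alive W s D (2 / 2 ^ c) w (UU W (ex L j) u) (fun i => ex L (j + 1 + i))) ≤
        Real.exp (-1000 * p) * Fintype.card (Fin J → I → Bool) := by
    intro c hc j hj
    rw [mem_Ioc] at hc
    rw [mem_filter] at hj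
    have hK : (1 : ℝ) ≤ 2 ^ c := one_le_pow₀ (by norm_num)
    have h3 : ∀ u ∈ (G c).filter (fun u => grid p (2 ^ c) u),
        cnt (fun L : Fin J → I → Bool =>
          alive W s D (2 / 2 ^ c) w (UU W (ex L j) u) (fun i => ex L (j + 1 + i)))
        ≤ Real.exp (-(1024 * p * 2 ^ c)) * Fintype.card (Fin J → I → Bool) := by
      intro u hu
      rw [mem_filter] at hu
      have h4 := window_count W hW s D (2 / 2 ^ c) (Real.exp (-(D * 2 ^ c / 64))) (Real.exp_pos _).le
        (goodcount_bev W hW p c s D hI hD (h1 c hc.1) h2) J w j hj.2 u hu.2.1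
      refine h4.trans ?_
      apply mul_le_mul_of_nonneg_right _ hT
      rw [← Real.exp_nat_mul]
      apply Real.exp_le_exp.mpr
      have h5 : (65536 * p : ℝ) * 2 ^ c ≤ (w * D) * 2 ^ c := mul_le_mul_of_nonneg_right hw (by positivity)
      linarith
    refine (cnt_exists_le _ _).trans ((sum_le_sum h3).trans ?_)
    rw [sum_const, nsmul_eq_mul]
    have h6 : (((G c).filter (fun u => grid p (2 ^ c) u)).card : ℝ) ≤ Real.exp (16 * p * 2 ^ c) := by
      have h7 : (((G c).filter (fun u => grid p (2 ^ c) u)).card : ℝ) ≤ ((G c).card : ℝ) := by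
        exact_mod_cast card_filter_le _ _
      have h8 := hG2 c
      push_cast at h8
      exact h7.trans h8
    rw [← mul_assoc]
    apply mul_le_mul_of_nonneg_right _ hT
    refine (mul_le_mul_of_nonneg_right h6 (Real.exp_pos _).le).trans ?_
    rw [← Real.exp_add]
    apply Real.exp_le_exp.mpr
    nlinarith
  have hc1 : ∀ c ∈ Ioc cm p, cnt (fun L : Fin J → I → Bool =>
      ∃ j ∈ (range J).filter (fun j => j + 1 + w ≤ J),
        ∃ u ∈ (G c).filter (fun u => grid p (2 ^ c) u),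
          alive W s D (2 / 2 ^ c) w (UU W (ex L j) u) (fun i => ex L (j + 1 + i))) ≤
      J * (Real.exp (-1000 * p) * Fintype.card (Fin J → I → Bool)) := by
    intro c hc
    refine (cnt_exists_le _ _).trans ((sum_le_sum (hterm c hc)).trans ?_)
    rw [sum_const, nsmul_eq_mul]
    apply mul_le_mul_of_nonneg_right _ (by positivity)
    have : ((range J).filter (fun j => j + 1 + w ≤ J)).card ≤ J := by
      refine (card_filter_le _ _).trans ?_
      rw [card_range]
    exact_mod_cast this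
  refine (cnt_exists_le _ _).trans ((sum_le_sum hc1).trans ?_)
  rw [sum_const, nsmul_eq_mul, Nat.card_Ioc]
  have h9 : ((p - cm : ℕ) : ℝ) ≤ p := by exact_mod_cast Nat.sub_le p cm
  have h10 : (0 : ℝ) ≤ J * (Real.exp (-1000 * p) * Fintype.card (Fin J → I → Bool)) := by positivity
  refine (mul_le_mul_of_nonneg_right h9 h10).trans (le_of_eq ?_)
  ring

end Pool.Agent.Helper951_jl
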