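import Pool.Agent.Helper951_jl.Basic
import Pool.Agent.Helper951_sr.HW

/-!
Project JL (helper951, MP_fe497f_lc). Module HW2: Hanson-Wright without a factor (T3').
-/

namespace Pool.Agent.Helper951_jl

open Finset Pool.Agent.Helper951_sr

/-- two-sided tail -/
theorem hw2_tail {E : Type} [Fintype E] [DecidableEq E] (a : E → ℝ) (v s : ℝ) (hv : 0 < v) (hs : 0 ≤ s) (ha : nsq a ≤ v) :
    ((univ.filter (fun ε : E → Bool => s ≤ (∑ e, sg (ε e) * a e) ^ 2 / (8 * v))).card : ℝ)
      ≤ 2 * Real.exp (-(4 * s)) * 2 ^ Fintype.card E := by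
  classical
  have hsub : (univ.filter (fun ε : E → Bool => s ≤ (∑ e, sg (ε e) * a e) ^ 2 / (8 * v)))
      ⊆ (univ.filter (fun ε : E → Bool => Real.sqrt (8 * v * s) ≤ ∑ e, sg (ε e) * a e))
        ∪ (univ.filter (fun ε : E → Bool => Real.sqrt (8 * v * s) ≤ ∑ e, sg (ε e) * (-a e))) := by
    intro ε hε
    rw [Finset.mem_filter] at hε
    have h1 := hε.2
    rw [le_div_iff₀ (by positivity)] at h1
    have h2 : Real.sqrt (8 * v * s) ≤ |∑ e, sg (ε e) * a e| := by
      apply Real.sqrt_le_iff.2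
      refine ⟨abs_nonneg _, ?_⟩
      rw [sq_abs]
      linarith
    rw [Finset.mem_union, Finset.mem_filter, Finset.mem_filter]
    rcases le_total 0 (∑ e, sg (ε e) * a e) with h0 | h0
    · left
      rw [abs_of_nonneg h0] at h2
      exact ⟨Finset.mem_univ _, h2⟩
    · right
      rw [abs_of_nonpos h0] at h2
      refine ⟨Finset.mem_univ _, ?_⟩
      have h3 : ∑ e, sg (ε e) * (-a e) = -∑ e, sg (ε e) * a e := by
        rw [← Finset.sum_neg_distrib]
        apply Finset.sum_congr rfl
        intro e _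
        ring
      rw [h3]
      exact h2
  have hb2 : nsq (fun e => -a e) ≤ v := by
    have : nsq (fun e => -a e) = nsq a := by
      unfold nsq
      simp
    rw [this]
    exact ha
  have hH1 := hoeffding a v (Real.sqrt (8 * v * s)) hv (Real.sqrt_nonneg _) ha
  have hH2 := hoeffding (fun e => -a e) v (Real.sqrt (8 * v * s)) hv (Real.sqrt_nonneg _) hb2
  rw [Real.sq_sqrt (by positivity)] at hH1 hH2
  have hexp : -(8 * v * s) / (2 * v) = -(4 * s) := by
    field_simp
    ring
  rw [hexp] at hH1 hH2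
  have hc := (Finset.card_le_card hsub).trans (Finset.card_union_le _ _)
  have hc' : ((univ.filter (fun ε : E → Bool => s ≤ (∑ e, sg (ε e) * a e) ^ 2 / (8 * v))).card : ℝ)
      ≤ ((univ.filter (fun ε : E → Bool => Real.sqrt (8 * v * s) ≤ ∑ e, sg (ε e) * a e)).card : ℝ)
        + ((univ.filter (fun ε : E → Bool => Real.sqrt (8 * v * s) ≤ ∑ e, sg (ε e) * (-a e))).card : ℝ) := by
    exact_mod_cast hc
  linarith

/-- the layer decomposition of the exponential function -/
theorem hw2_layer (x : ℝ) (N : ℕ) (hN : x < Real.log (3 / 2) * (N + 1)) :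
    Real.exp x ≤ 3 / 2 + ∑ k ∈ range N, (if Real.log (3 / 2) * (k + 1) ≤ x then (1 / 2 : ℝ) * (3 / 2) ^ (k + 1) else 0) := by
  induction N with
  | zero =>
    simp only [Nat.cast_zero, zero_add, mul_one] at hN
    rw [Finset.sum_range_zero, add_zero]
    calc Real.exp x ≤ Real.exp (Real.log (3 / 2)) := Real.exp_le_exp.2 hN.le
      _ = 3 / 2 := Real.exp_log (by norm_num)
  | succ N ih =>
    rw [Finset.sum_range_succ]
    by_cases h : x < Real.log (3 / 2) * (N + 1)
    · have h1 := ih h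
      have h2 : ¬ Real.log (3 / 2) * (N + 1) ≤ x := not_le.2 h
      rw [if_neg h2, add_zero]
      exact h1
    · push Not at h
      rw [if_pos h]
      have h3 : ∀ k ∈ range N, (if Real.log (3 / 2) * ((k : ℝ) + 1) ≤ x then (1 / 2 : ℝ) * (3 / 2) ^ (k + 1) else 0)
          = (1 / 2 : ℝ) * (3 / 2) ^ (k + 1) := by
        intro k hk
        rw [Finset.mem_range] at hk
        rw [if_pos]
        refine le_trans ?_ h
        apply mul_le_mul_of_nonneg_left _ (Real.log_nonneg (by norm_num))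
        have : (k : ℝ) ≤ N := by exact_mod_cast hk.le
        linarith
      rw [Finset.sum_congr rfl h3]
      have h4 : ∀ n : ℕ, (3 / 2 : ℝ) + ∑ k ∈ range n, (1 / 2 : ℝ) * (3 / 2) ^ (k + 1) = (3 / 2) ^ (n + 1) := by
        intro n
        induction n with
        | zero => simp
        | succ n ihn =>
          rw [Finset.sum_range_succ, ← add_assoc, ihn, pow_succ _ (n + 1)]
          ring
      rw [← add_assoc, h4 N]
      have h5 : (3 / 2 : ℝ) ^ (N + 1) + 1 / 2 * (3 / 2) ^ (N + 1) = (3 / 2) ^ (N + 2) := by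
        rw [pow_succ _ (N + 1)]
        ring
      rw [h5]
      calc Real.exp x ≤ Real.exp (Real.log (3 / 2) * ((N + 1 : ℕ) + 1)) := Real.exp_le_exp.2 hN.le
        _ = (3 / 2) ^ (N + 2) := by
          have h6 : Real.log (3 / 2) * (((N + 1 : ℕ) : ℝ) + 1) = ((N + 2 : ℕ) : ℝ) * Real.log (3 / 2) := by
            push_cast
            ring
          rw [h6, Real.exp_nat_mul, Real.exp_log (by norm_num)]

theorem hw2_geom (N : ℕ) : ∑ k ∈ range N, (8 / 27 : ℝ) ^ (k + 1) ≤ 8 / 19 := by
  have h : ∀ n : ℕ, ∑ k ∈ range n, (8 / 27 : ℝ) ^ (k + 1) = 8 / 19 * (1 - (8 / 27) ^ n) := by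
    intro n
    induction n with
    | zero => simp
    | succ n ih =>
      rw [Finset.sum_range_succ, ih, pow_succ]
      ring
  rw [h N]
  have : (0 : ℝ) ≤ (8 / 27) ^ N := by positivity
  linarith

/-- exponential square moment of a Rademacher sum -/
theorem hw2_scalar {E : Type} [Fintype E] [DecidableEq E] (a : E → ℝ) (v : ℝ) (hv : 0 < v) (ha : nsq a ≤ v) :
    ∑ ε : E → Bool, Real.exp ((∑ e, sg (ε e) * a e) ^ 2 / (8 * v)) ≤ 2 * 2 ^ Fintype.card E := by
  classical
  set X : (E → Bool) → ℝ := fun ε => (∑ e, sg (ε e) * a e) ^ 2 / (8 * v) with hX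
  have hX0 : ∀ ε, 0 ≤ X ε := fun ε => by rw [hX]; positivity
  have hc : 0 < Real.log (3 / 2) := Real.log_pos (by norm_num)
  obtain ⟨N, hN⟩ : ∃ N : ℕ, ∀ ε, X ε < Real.log (3 / 2) * (N + 1) := by
    obtain ⟨N, hN⟩ := exists_nat_gt ((∑ ε, X ε) / Real.log (3 / 2))
    refine ⟨N, fun ε => ?_⟩
    have h1 : X ε ≤ ∑ ε, X ε := Finset.single_le_sum (fun i _ => hX0 i) (Finset.mem_univ ε)
    rw [div_lt_iff₀ hc] at hN
    nlinarith
  calc ∑ ε : E → Bool, Real.exp (X ε)
      ≤ ∑ ε : E → Bool, (3 / 2 + ∑ k ∈ range N, (if Real.log (3 / 2) * (k + 1) ≤ X ε then (1 / 2 : ℝ) * (3 / 2) ^ (k + 1) else 0)) :=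
        Finset.sum_le_sum (fun ε _ => hw2_layer (X ε) N (hN ε))
    _ = 3 / 2 * 2 ^ Fintype.card E + ∑ k ∈ range N, (1 / 2 : ℝ) * (3 / 2) ^ (k + 1) *
          ((univ.filter (fun ε : E → Bool => Real.log (3 / 2) * (k + 1) ≤ X ε)).card : ℝ) := by
        rw [Finset.sum_add_distrib, Finset.sum_comm]
        congr 1
        · simp only [Finset.sum_const, Finset.card_univ, Fintype.card_fun, Fintype.card_bool, nsmul_eq_mul]
          push_cast
          ring
        · apply Finset.sum_congr rfl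
          intro k _
          rw [← Finset.sum_filter, Finset.sum_const, nsmul_eq_mul]
          ring
    _ ≤ 3 / 2 * 2 ^ Fintype.card E + ∑ k ∈ range N, (8 / 27 : ℝ) ^ (k + 1) * 2 ^ Fintype.card E := by
        apply add_le_add le_rfl
        apply Finset.sum_le_sum
        intro k _
        have h1 := hw2_tail a v (Real.log (3 / 2) * (k + 1)) hv (by positivity) ha
        have h2 : Real.exp (-(4 * (Real.log (3 / 2) * ((k : ℝ) + 1)))) = (16 / 81 : ℝ) ^ (k + 1) := by
          have h3 : -(4 * (Real.log (3 / 2) * ((k : ℝ) + 1))) = ((k + 1 : ℕ) : ℝ) * (-(4 * Real.log (3 / 2))) := by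
            push_cast
            ring
          rw [h3, Real.exp_nat_mul]
          congr 1
          have h4 : -(4 * Real.log (3 / 2)) = Real.log (16 / 81) := by
            have h5 : (16 / 81 : ℝ) = ((3 / 2) ^ 4)⁻¹ := by norm_num
            rw [h5, Real.log_inv, Real.log_pow]
            norm_num
          rw [h4, Real.exp_log (by norm_num)]
        rw [h2] at h1
        calc (1 / 2 : ℝ) * (3 / 2) ^ (k + 1) * ((univ.filter (fun ε : E → Bool => Real.log (3 / 2) * (k + 1) ≤ X ε)).card : ℝ)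
            ≤ (1 / 2 : ℝ) * (3 / 2) ^ (k + 1) * (2 * (16 / 81 : ℝ) ^ (k + 1) * 2 ^ Fintype.card E) := by
              apply mul_le_mul_of_nonneg_left h1 (by positivity)
          _ = ((3 / 2) ^ (k + 1) * (16 / 81 : ℝ) ^ (k + 1)) * 2 ^ Fintype.card E := by ring
          _ = (8 / 27 : ℝ) ^ (k + 1) * 2 ^ Fintype.card E := by
              rw [← mul_pow]
              norm_num
    _ ≤ 3 / 2 * 2 ^ Fintype.card E + 8 / 19 * 2 ^ Fintype.card E := by
        rw [← Finset.sum_mul]
        have := hw2_geom N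
        gcongr
    _ ≤ 2 * 2 ^ Fintype.card E := by
        have : (0 : ℝ) < 2 ^ Fintype.card E := by positivity
        nlinarith

/-- exponential moment of the norm -/
theorem hw2_norm {E M : Type} [Fintype E] [DecidableEq E] [Fintype M] [Nonempty M] (Ψ : M → E → ℝ) (κ r : ℝ)
    (hκ : 0 < κ) (hr0 : 0 ≤ r) (hr : 32 * κ * r ≤ 1) (hΨ : ∀ η : E → ℝ, nsq (mv Ψ η) ≤ κ * nsq η)
    (I : E → Prop) [DecidablePred I] :
    ∑ ε : E → Bool, Real.exp (r * nsq (mv Ψ (fun e => if I e then 0 else sg (ε e))))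
      ≤ Real.exp (96 * r * κ * Fintype.card M) * 2 ^ Fintype.card E := by
  classical
  obtain ⟨Y, hY1, hY2, hY3⟩ := exists_net M
  set m : ℝ := (Fintype.card M : ℝ) with hm
  have hm1 : 1 ≤ m := by
    rw [hm]
    exact_mod_cast Fintype.card_pos
  set X : (E → Bool) → ℝ := fun ε => nsq (mv Ψ (fun e => if I e then 0 else sg (ε e))) / (32 * κ) with hX
  have hpt : ∀ ε : E → Bool, Real.exp (X ε) ≤
      ∑ y ∈ Y, Real.exp ((∑ e, sg (ε e) * (if I e then 0 else tv Ψ y e)) ^ 2 / (8 * κ)) := by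
    intro ε
    obtain ⟨y, hy, hyu⟩ := hY3 (mv Ψ (fun e => if I e then 0 else sg (ε e)))
    have h1 : ∑ e, sg (ε e) * (if I e then 0 else tv Ψ y e)
        = ∑ i, y i * mv Ψ (fun e => if I e then 0 else sg (ε e)) i := by
      unfold mv tv
      simp_rw [Finset.mul_sum]
      rw [Finset.sum_comm]
      apply Finset.sum_congr rfl
      intro e _
      by_cases h : I e
      · simp [h]
      · simp only [h, if_false]
        rw [Finset.mul_sum]
        apply Finset.sum_congr rfl
        intro j _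
        ring
    rw [← h1] at hyu
    set S := ∑ e, sg (ε e) * (if I e then 0 else tv Ψ y e) with hS
    have h2 : X ε ≤ S ^ 2 / (8 * κ) := by
      rw [hX]
      simp only
      rw [div_le_div_iff₀ (by positivity) (by positivity)]
      have h3 := Real.sqrt_nonneg (nsq (mv Ψ (fun e => if I e then 0 else sg (ε e))))
      have h4 : nsq (mv Ψ (fun e => if I e then 0 else sg (ε e))) ≤ (2 * S) ^ 2 := by
        rw [← Real.sq_sqrt (hw_nsq_nonneg (mv Ψ (fun e => if I e then 0 else sg (ε e))))]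
        exact pow_le_pow_left₀ h3 hyu 2
      nlinarith
    calc Real.exp (X ε) ≤ Real.exp (S ^ 2 / (8 * κ)) := Real.exp_le_exp.2 h2
      _ ≤ _ := Finset.single_le_sum (f := fun y => Real.exp ((∑ e, sg (ε e) * (if I e then 0 else tv Ψ y e)) ^ 2 / (8 * κ)))
          (fun y _ => (Real.exp_pos _).le) hy
  have hN : (0 : ℝ) < 2 ^ Fintype.card E := by positivity
  have hsumX : ∑ ε : E → Bool, Real.exp (X ε) ≤ Real.exp (3 * m) * 2 ^ Fintype.card E := by
    calc ∑ ε : E → Bool, Real.exp (X ε)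
        ≤ ∑ ε : E → Bool, ∑ y ∈ Y, Real.exp ((∑ e, sg (ε e) * (if I e then 0 else tv Ψ y e)) ^ 2 / (8 * κ)) :=
          Finset.sum_le_sum (fun ε _ => hpt ε)
      _ = ∑ y ∈ Y, ∑ ε : E → Bool, Real.exp ((∑ e, sg (ε e) * (if I e then 0 else tv Ψ y e)) ^ 2 / (8 * κ)) :=
          Finset.sum_comm
      _ ≤ ∑ _y ∈ Y, (2 * 2 ^ Fintype.card E : ℝ) := by
          apply Finset.sum_le_sum
          intro y hy
          apply hw2_scalar (fun e => if I e then 0 else tv Ψ y e) κ hκ
          calc nsq (fun e => if I e then 0 else tv Ψ y e) ≤ nsq (tv Ψ y) := by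
                unfold nsq
                apply Finset.sum_le_sum
                intro e _
                by_cases h : I e
                · simp only [h, if_true]
                  nlinarith [sq_nonneg (tv Ψ y e)]
                · simp [h]
            _ ≤ κ * nsq y := hw_tr Ψ κ hκ hΨ y
            _ ≤ κ * 1 := mul_le_mul_of_nonneg_left (hY2 y hy) hκ.le
            _ = κ := mul_one _
      _ = Y.card * (2 * 2 ^ Fintype.card E : ℝ) := by rw [Finset.sum_const, nsmul_eq_mul]
      _ ≤ (5 : ℝ) ^ Fintype.card M * (2 * 2 ^ Fintype.card E : ℝ) := by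
          apply mul_le_mul_of_nonneg_right _ (by positivity)
          exact_mod_cast hY1
      _ ≤ Real.exp (3 * m) * 2 ^ Fintype.card E := by
          rw [← mul_assoc]
          apply mul_le_mul_of_nonneg_right _ hN.le
          have h1 : (10 : ℝ) ≤ Real.exp 3 := by
            have h2 : Real.exp 3 = Real.exp 1 * Real.exp 1 * Real.exp 1 := by
              rw [← Real.exp_add, ← Real.exp_add]
              norm_num
            have h3 := Real.exp_one_gt_d9
            rw [h2]
            have h4 : (2.7 : ℝ) ≤ Real.exp 1 := by linarith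
            calc (10 : ℝ) ≤ 2.7 * 2.7 * 2.7 := by norm_num
              _ ≤ _ := by gcongr
          have h5 : Real.exp (3 * m) = Real.exp 3 ^ Fintype.card M := by
            rw [← Real.exp_nat_mul, hm]
            ring_nf
          rw [h5]
          calc (5 : ℝ) ^ Fintype.card M * 2 ≤ 5 ^ Fintype.card M * 2 ^ Fintype.card M := by
                apply mul_le_mul_of_nonneg_left _ (by positivity)
                calc (2 : ℝ) = 2 ^ 1 := by norm_num
                  _ ≤ 2 ^ Fintype.card M := pow_le_pow_right₀ (by norm_num) Fintype.card_pos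
            _ = 10 ^ Fintype.card M := by rw [← mul_pow]; norm_num
            _ ≤ _ := pow_le_pow_left₀ (by norm_num) h1 _
  -- Jensen
  set θ : ℝ := 32 * κ * r with hθ
  have hθ0 : 0 ≤ θ := by positivity
  have hconv : ∀ ε : E → Bool, Real.exp (θ * X ε) * Real.exp ((1 - θ) * (3 * m)) ≤
      θ * Real.exp (X ε) + (1 - θ) * Real.exp (3 * m) := by
    intro ε
    have h := convexOn_exp.2 (Set.mem_univ (X ε)) (Set.mem_univ (3 * m)) hθ0 (by linarith : 0 ≤ 1 - θ) (by ring)
    simp only [smul_eq_mul] at h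
    rw [← Real.exp_add]
    exact h
  have hrX : ∀ ε : E → Bool, r * nsq (mv Ψ (fun e => if I e then 0 else sg (ε e))) = θ * X ε := by
    intro ε
    rw [hθ, hX]
    field_simp
  simp_rw [hrX]
  have h1 : (∑ ε : E → Bool, Real.exp (θ * X ε)) * Real.exp ((1 - θ) * (3 * m)) ≤ Real.exp (3 * m) * 2 ^ Fintype.card E := by
    rw [Finset.sum_mul]
    refine (Finset.sum_le_sum (fun ε _ => hconv ε)).trans ?_
    rw [Finset.sum_add_distrib, ← Finset.mul_sum]
    simp only [Finset.sum_const, Finset.card_univ, Fintype.card_fun, Fintype.card_bool, nsmul_eq_mul]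
    push_cast
    have h2 := mul_le_mul_of_nonneg_left hsumX hθ0
    nlinarith
  have h3 : Real.exp (96 * r * κ * m) * 2 ^ Fintype.card E * Real.exp ((1 - θ) * (3 * m))
      = Real.exp (3 * m) * 2 ^ Fintype.card E := by
    have h4 : Real.exp (96 * r * κ * m) * Real.exp ((1 - θ) * (3 * m)) = Real.exp (3 * m) := by
      rw [← Real.exp_add]
      congr 1
      rw [hθ]
      ring
    calc _ = (Real.exp (96 * r * κ * m) * Real.exp ((1 - θ) * (3 * m))) * 2 ^ Fintype.card E := by ring
      _ = _ := by rw [h4]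
  rw [← h3] at h1
  exact le_of_mul_le_mul_right h1 (Real.exp_pos _)

/-- exponential moment of the decoupled form -/
theorem hw2_dec {E M : Type} [Fintype E] [DecidableEq E] [Fintype M] [Nonempty M] (Ψ : M → E → ℝ) (κ l : ℝ)
    (hκ : 0 < κ) (hl : 256 * κ ^ 2 * l ^ 2 ≤ 1) (hΨ : ∀ η : E → ℝ, nsq (mv Ψ η) ≤ κ * nsq η) (I : E → Prop) [DecidablePred I] :
    ∑ ε : E → Bool, Real.exp (l * (4 * ∑ j, mv Ψ (fun e => if I e then sg (ε e) else 0) j
          * mv Ψ (fun e => if I e then 0 else sg (ε e)) j))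
      ≤ Real.exp (768 * l ^ 2 * κ ^ 2 * Fintype.card M) * 2 ^ Fintype.card E := by
  classical
  have h1 := hw_merge_sum I (fun ε : E → Bool => Real.exp (l * (4 * ∑ j, mv Ψ (fun e => if I e then sg (ε e) else 0) j
          * mv Ψ (fun e => if I e then 0 else sg (ε e)) j)))
  have hN : (0 : ℝ) < 2 ^ Fintype.card E := by positivity
  have h2 : ∀ δ : E → Bool, ∑ ε : E → Bool, Real.exp (l * (4 * ∑ j, mv Ψ (fun e => if I e then sg (hwMerge I ε δ e) else 0) j
          * mv Ψ (fun e => if I e then 0 else sg (hwMerge I ε δ e)) j))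
      ≤ 2 ^ Fintype.card E * Real.exp (8 * l ^ 2 * κ * nsq (mv Ψ (fun e => if I e then 0 else sg (δ e)))) := by
    intro δ
    set u : M → ℝ := mv Ψ (fun e => if I e then 0 else sg (δ e)) with hu
    have hu1 : ∀ ε : E → Bool, mv Ψ (fun e => if I e then 0 else sg (hwMerge I ε δ e)) = u := by
      intro ε
      rw [hu]
      congr 1
      ext e
      by_cases h : I e
      · simp [h]
      · simp [h, hwMerge]
    have hu2 : ∀ ε : E → Bool, (fun e => if I e then sg (hwMerge I ε δ e) else 0)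
        = (fun e => if I e then sg (ε e) else 0) := by
      intro ε
      ext e
      by_cases h : I e
      · simp [h, hwMerge]
      · simp [h]
    set b : E → ℝ := fun e => if I e then tv Ψ u e else 0 with hb
    have hb1 : nsq b ≤ κ * nsq u := by
      calc nsq b ≤ nsq (tv Ψ u) := by
            unfold nsq
            apply Finset.sum_le_sum
            intro e _
            rw [hb]
            by_cases h : I e
            · simp [h]
            · simp only [h, if_false]
              nlinarith [sq_nonneg (tv Ψ u e)]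
        _ ≤ κ * nsq u := hw_tr Ψ κ hκ hΨ u
    have hsum : ∀ ε : E → Bool, ∑ j, mv Ψ (fun e => if I e then sg (ε e) else 0) j * u j
        = ∑ e, sg (ε e) * b e := by
      intro ε
      unfold mv
      simp_rw [Finset.sum_mul]
      rw [Finset.sum_comm]
      apply Finset.sum_congr rfl
      intro e _
      rw [hb]
      by_cases h : I e
      · simp only [h, if_true]
        unfold tv
        rw [Finset.mul_sum]
        apply Finset.sum_congr rfl
        intro j _
        ring
      · simp [h]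
    have h3 : ∀ ε : E → Bool, Real.exp (l * (4 * ∑ j, mv Ψ (fun e => if I e then sg (hwMerge I ε δ e) else 0) j
          * mv Ψ (fun e => if I e then 0 else sg (hwMerge I ε δ e)) j)) = Real.exp ((4 * l) * ∑ e, sg (ε e) * b e) := by
      intro ε
      rw [hu1, hu2, hsum]
      congr 1
      ring
    simp_rw [h3]
    refine (hoeff_mgf b (4 * l)).trans ?_
    apply mul_le_mul_of_nonneg_left _ hN.le
    apply Real.exp_le_exp.2
    have h4 : (0 : ℝ) ≤ 8 * l ^ 2 := by positivity
    have h5 := mul_le_mul_of_nonneg_left hb1 h4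
    nlinarith
  have h3 : ∑ δ : E → Bool, ∑ ε : E → Bool, Real.exp (l * (4 * ∑ j, mv Ψ (fun e => if I e then sg (hwMerge I ε δ e) else 0) j
          * mv Ψ (fun e => if I e then 0 else sg (hwMerge I ε δ e)) j))
      ≤ 2 ^ Fintype.card E * (Real.exp (768 * l ^ 2 * κ ^ 2 * Fintype.card M) * 2 ^ Fintype.card E) := by
    refine (Finset.sum_le_sum (fun δ _ => h2 δ)).trans ?_
    rw [← Finset.mul_sum]
    apply mul_le_mul_of_nonneg_left _ hN.le
    have h4 := hw2_norm Ψ κ (8 * l ^ 2 * κ) hκ (by positivity) (by nlinarith) hΨ I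
    refine h4.trans (le_of_eq ?_)
    congr 2
    ring
  rw [h1] at h3
  exact le_of_mul_le_mul_left h3 hN

/-- the decoupling identity -/
theorem hw2_ident {E M : Type} [Fintype E] [DecidableEq E] [Fintype M] (Ψ : M → E → ℝ) :
    ∃ (A : Type) (_ : Fintype A) (_ : Nonempty A) (I : A → E → Prop), ∀ (_ : ∀ a, DecidablePred (I a)) (ε : E → Bool),
      ∑ a, (4 * ∑ j, mv Ψ (fun e => if I a e then sg (ε e) else 0) j * mv Ψ (fun e => if I a e then 0 else sg (ε e)) j)
        = Fintype.card A * (nsq (mv Ψ (fun e => sg (ε e))) - ∑ j, ∑ e, Ψ j e ^ 2) := by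
  classical
  set P : ℕ := Fintype.card E with hPdef
  have hP : Fintype.card E ≤ 2 ^ P := Nat.lt_two_pow_self.le
  obtain ⟨W, hW, -⟩ := exists_had P
  obtain ⟨hW1, hW2, hW3⟩ := hW
  have hemb : Nonempty (E ↪ Fin (2 ^ P)) := by
    rw [Function.Embedding.nonempty_iff_card_le]
    simpa using hP
  obtain ⟨f⟩ := hemb
  set χ : Fin (2 ^ P) → E → ℝ := fun a e => W a (f e) with hχ
  have hχsum : ∀ e e' : E, ∑ a, χ a e * χ a e' = if e = e' then (2 : ℝ) ^ P else 0 := by
    intro e e'
    have h1 : ∑ a, χ a e * χ a e' = ∑ l, W (f e) l * W (f e') l := by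
      apply Finset.sum_congr rfl
      intro a _
      rw [hχ]
      simp only
      rw [hW2 a (f e), hW2 a (f e')]
    rw [h1, hW3]
    by_cases h : e = e'
    · subst h
      simp
    · have h2 : f e ≠ f e' := fun h3 => h (f.injective h3)
      simp [h, h2]
  have hkey : ∀ x : E → ℝ, ∑ a, nsq (mv Ψ (fun e => χ a e * x e)) = 2 ^ P * ∑ j, ∑ e, Ψ j e ^ 2 * x e ^ 2 := by
    intro x
    have h1 : ∀ a : Fin (2 ^ P), nsq (mv Ψ (fun e => χ a e * x e))
        = ∑ j, ∑ e, ∑ e', (Ψ j e * x e) * (Ψ j e' * x e') * (χ a e * χ a e') := by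
      intro a
      unfold nsq mv
      apply Finset.sum_congr rfl
      intro j _
      rw [sq, Finset.sum_mul_sum]
      apply Finset.sum_congr rfl
      intro e _
      apply Finset.sum_congr rfl
      intro e' _
      ring
    simp_rw [h1]
    rw [Finset.sum_comm, Finset.mul_sum]
    apply Finset.sum_congr rfl
    intro j _
    rw [Finset.sum_comm, Finset.mul_sum]
    apply Finset.sum_congr rfl
    intro e _
    rw [Finset.sum_comm]
    simp_rw [← Finset.mul_sum, hχsum]
    simp only [mul_ite, mul_zero, Finset.sum_ite_eq, Finset.mem_univ, if_true]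
    ring
  have hsgsq : ∀ b : Bool, sg b ^ 2 = 1 := by
    intro b
    cases b <;> simp [sg]
  refine ⟨Fin (2 ^ P), inferInstance, ⟨⟨0, by positivity⟩⟩, fun a e => χ a e = -1, fun dec ε => ?_⟩
  have h2 : ∀ a : Fin (2 ^ P), nsq (mv Ψ (fun e => sg (ε e))) - nsq (mv Ψ (fun e => χ a e * sg (ε e)))
      = 4 * ∑ j, mv Ψ (fun e => if χ a e = -1 then sg (ε e) else 0) j
        * mv Ψ (fun e => if χ a e = -1 then 0 else sg (ε e)) j := by
    intro a
    unfold nsq
    rw [← Finset.sum_sub_distrib, Finset.mul_sum]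
    apply Finset.sum_congr rfl
    intro j _
    have h3 : mv Ψ (fun e => sg (ε e)) j = mv Ψ (fun e => if χ a e = -1 then sg (ε e) else 0) j
        + mv Ψ (fun e => if χ a e = -1 then 0 else sg (ε e)) j := by
      unfold mv
      rw [← Finset.sum_add_distrib]
      apply Finset.sum_congr rfl
      intro e _
      by_cases h : χ a e = -1 <;> simp [h]
    have h4 : mv Ψ (fun e => χ a e * sg (ε e)) j = mv Ψ (fun e => if χ a e = -1 then 0 else sg (ε e)) j
        - mv Ψ (fun e => if χ a e = -1 then sg (ε e) else 0) j := by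
      unfold mv
      rw [← Finset.sum_sub_distrib]
      apply Finset.sum_congr rfl
      intro e _
      rcases hW1 a (f e) with h | h
      · have h5 : χ a e = 1 := h
        have h6 : ¬ (χ a e = -1) := by
          rw [h5]
          norm_num
        simp only [if_neg h6]
        rw [h5]
        ring
      · have h5 : χ a e = -1 := h
        simp [h5]
    rw [h3, h4]
    ring
  have h7 : ∑ a : Fin (2 ^ P), (nsq (mv Ψ (fun e => sg (ε e))) - nsq (mv Ψ (fun e => χ a e * sg (ε e))))
      = 2 ^ P * (nsq (mv Ψ (fun e => sg (ε e))) - ∑ j, ∑ e, Ψ j e ^ 2) := by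
    rw [Finset.sum_sub_distrib, hkey (fun e => sg (ε e))]
    simp only [hsgsq, mul_one]
    rw [Finset.sum_const, Finset.card_univ, Fintype.card_fin, nsmul_eq_mul]
    push_cast
    ring
  rw [Fintype.card_fin]
  push_cast
  rw [← h7]
  apply Finset.sum_congr rfl
  intro a _
  rw [h2]

/-- exponential moment of the quadratic form -/
theorem hw2_mgf {E M : Type} [Fintype E] [DecidableEq E] [Fintype M] [Nonempty M] (Ψ : M → E → ℝ) (κ l : ℝ)
    (hκ : 0 < κ) (hl : 256 * κ ^ 2 * l ^ 2 ≤ 1) (hΨ : ∀ η : E → ℝ, nsq (mv Ψ η) ≤ κ * nsq η) :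
    ∑ ε : E → Bool, Real.exp (l * (nsq (mv Ψ (fun e => sg (ε e))) - ∑ j, ∑ e, Ψ j e ^ 2))
      ≤ Real.exp (768 * l ^ 2 * κ ^ 2 * Fintype.card M) * 2 ^ Fintype.card E := by
  classical
  obtain ⟨A, hA, hA', I, hI⟩ := hw2_ident Ψ
  have hI' := hI (fun a => Classical.decPred _)
  have hc : (0 : ℝ) < Fintype.card A := by exact_mod_cast Fintype.card_pos
  set Z : A → (E → Bool) → ℝ := fun a ε => 4 * ∑ j, mv Ψ (fun e => if I a e then sg (ε e) else 0) j
      * mv Ψ (fun e => if I a e then 0 else sg (ε e)) j with hZ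
  have h1 : ∀ ε : E → Bool, Real.exp (l * (nsq (mv Ψ (fun e => sg (ε e))) - ∑ j, ∑ e, Ψ j e ^ 2))
      ≤ ∑ a : A, (Fintype.card A : ℝ)⁻¹ * Real.exp (l * Z a ε) := by
    intro ε
    have h2 := convexOn_exp.map_sum_le (t := (univ : Finset A)) (w := fun _ => (Fintype.card A : ℝ)⁻¹)
      (p := fun a => l * Z a ε) (fun _ _ => by positivity) (by
        rw [Finset.sum_const, Finset.card_univ, nsmul_eq_mul]
        field_simp) (fun _ _ => Set.mem_univ _)
    simp only [smul_eq_mul] at h2
    refine le_trans (le_of_eq ?_) h2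
    congr 1
    rw [← Finset.mul_sum, ← Finset.mul_sum]
    have h3 : ∑ a, Z a ε = Fintype.card A * (nsq (mv Ψ (fun e => sg (ε e))) - ∑ j, ∑ e, Ψ j e ^ 2) := hI' ε
    rw [h3]
    field_simp
  refine (Finset.sum_le_sum (fun ε _ => h1 ε)).trans ?_
  rw [Finset.sum_comm]
  have h2 : ∀ a ∈ (univ : Finset A), ∑ ε : E → Bool, (Fintype.card A : ℝ)⁻¹ * Real.exp (l * Z a ε)
      ≤ (Fintype.card A : ℝ)⁻¹ * (Real.exp (768 * l ^ 2 * κ ^ 2 * Fintype.card M) * 2 ^ Fintype.card E) := by
    intro a _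
    rw [← Finset.mul_sum]
    apply mul_le_mul_of_nonneg_left _ (by positivity)
    exact hw2_dec Ψ κ l hκ hl hΨ (I a)
  refine (Finset.sum_le_sum h2).trans ?_
  rw [Finset.sum_const, Finset.card_univ, nsmul_eq_mul, ← mul_assoc, mul_inv_cancel₀ hc.ne', one_mul]

theorem hw2 {E M : Type} [Fintype E] [DecidableEq E] [Fintype M] [Nonempty M] (Ψ : M → E → ℝ) (κ t : ℝ)
    (hκ : 0 < κ) (ht : 0 ≤ t) (htκ : t ≤ 96 * κ * Fintype.card M) (hΨ : ∀ η : E → ℝ, nsq (mv Ψ η) ≤ κ * nsq η) :
    cnt (fun ε : E → Bool => t < |nsq (mv Ψ (fun e => sg (ε e))) - ∑ j, ∑ e, Ψ j e ^ 2|)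
      ≤ 2 * Real.exp (-t ^ 2 / (3072 * κ ^ 2 * Fintype.card M)) * 2 ^ Fintype.card E := by
  classical
  set m : ℝ := (Fintype.card M : ℝ) with hm
  have hm0 : 0 < m := by
    rw [hm]
    exact_mod_cast Fintype.card_pos
  set X : (E → Bool) → ℝ := fun ε => nsq (mv Ψ (fun e => sg (ε e))) - ∑ j, ∑ e, Ψ j e ^ 2 with hX
  set l : ℝ := t / (1536 * κ ^ 2 * m) with hl
  have hl0 : 0 ≤ l := by positivity
  have hl1 : l ≤ 1 / (16 * κ) := by
    rw [hl, div_le_div_iff₀ (by positivity) (by positivity)]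
    nlinarith [mul_le_mul_of_nonneg_right htκ hκ.le]
  have hl2 : 256 * κ ^ 2 * l ^ 2 ≤ 1 := by
    have h1 : 16 * κ * l ≤ 1 := by
      rw [le_div_iff₀ (by positivity)] at hl1
      linarith
    have h2 : 0 ≤ 16 * κ * l := by positivity
    nlinarith
  have hexp : 768 * l ^ 2 * κ ^ 2 * m - l * t = -t ^ 2 / (3072 * κ ^ 2 * m) := by
    rw [hl]
    field_simp
    ring
  have key : ∀ s : ℝ, (s = 1 ∨ s = -1) → cnt (fun ε : E → Bool => t < s * X ε) ≤
      Real.exp (-t ^ 2 / (3072 * κ ^ 2 * m)) * 2 ^ Fintype.card E := by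
    intro s hs
    have hs2 : s ^ 2 = 1 := by rcases hs with rfl | rfl <;> norm_num
    have h1 := hw2_mgf Ψ κ (l * s) hκ (by rw [mul_pow, hs2, mul_one]; exact hl2) hΨ
    rw [mul_pow, hs2, mul_one] at h1
    have h2 : cnt (fun ε : E → Bool => t < s * X ε) * Real.exp (l * t) ≤ ∑ ε : E → Bool, Real.exp (l * s * X ε) := by
      rw [cnt_eq, ← nsmul_eq_mul, ← Finset.sum_const]
      refine (Finset.sum_le_sum (fun ε hε => ?_)).trans
        (Finset.sum_le_univ_sum_of_nonneg (fun ε => (Real.exp_pos _).le))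
      rw [Finset.mem_filter] at hε
      apply Real.exp_le_exp.mpr
      rw [mul_assoc]
      exact mul_le_mul_of_nonneg_left hε.2.le hl0
    have h3 := h2.trans h1
    have h4 : Real.exp (-t ^ 2 / (3072 * κ ^ 2 * m)) * 2 ^ Fintype.card E * Real.exp (l * t)
        = Real.exp (768 * l ^ 2 * κ ^ 2 * m) * 2 ^ Fintype.card E := by
      rw [← hexp]
      have h5 : Real.exp (768 * l ^ 2 * κ ^ 2 * m - l * t) * Real.exp (l * t) = Real.exp (768 * l ^ 2 * κ ^ 2 * m) := by
        rw [← Real.exp_add]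
        congr 1
        ring
      calc _ = (Real.exp (768 * l ^ 2 * κ ^ 2 * m - l * t) * Real.exp (l * t)) * 2 ^ Fintype.card E := by ring
        _ = _ := by rw [h5]
    rw [← h4] at h3
    exact le_of_mul_le_mul_right h3 (Real.exp_pos _)
  have h1 : cnt (fun ε : E → Bool => t < |X ε|) ≤ cnt (fun ε : E → Bool => t < 1 * X ε ∨ t < (-1) * X ε) := by
    apply cnt_mono
    intro ε h
    rcases lt_abs.1 h with h | h
    · left; linarith
    · right; linarith
  refine h1.trans ((cnt_or_le _ _).trans ?_)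
  have h2 := key 1 (Or.inl rfl)
  have h3 := key (-1) (Or.inr rfl)
  linarith

end Pool.Agent.Helper951_jl
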