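import Pool.Agent.Helper951_sr.Defs

/-!
Project JL (helper951, MP_fe497f_lc): definitions.
-/

namespace Pool.Agent.Helper951_jl

open Finset Pool.Agent.Helper951_sr

/-- Number of elements with a property, as a real number. -/
noncomputable def cnt {α : Type} [Fintype α] (P : α → Prop) : ℝ :=
  ((@Finset.filter α P (Classical.decPred P) univ).card : ℝ)

/-- Euclidean norm. -/
noncomputable def nm {I : Type} [Fintype I] (x : I → ℝ) : ℝ := Real.sqrt (nsq x)

/-- Number of nonzero coordinates. -/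
noncomputable def sz {I : Type} [Fintype I] (x : I → ℝ) : ℕ := (univ.filter (fun i => x i ≠ 0)).card

/-- Signed Hadamard layer `x ↦ N^{-1/2} W (ε x)`. -/
noncomputable def UU {I : Type} [Fintype I] (W : I → I → ℝ) (ε : I → Bool) (x : I → ℝ) : I → ℝ :=
  fun j => (Real.sqrt (Fintype.card I))⁻¹ * ∑ i, W j i * (sg (ε i) * x i)

/-- The inverse (= transpose) of the layer: `z ↦ ε N^{-1/2} W z`. -/
noncomputable def UI {I : Type} [Fintype I] (W : I → I → ℝ) (ε : I → Bool) (z : I → ℝ) : I → ℝ :=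
  fun i => sg (ε i) * ((Real.sqrt (Fintype.card I))⁻¹ * ∑ j, W i j * z j)

/-- Restriction to a set. -/
def cut {I : Type} [DecidableEq I] (S : Finset I) (x : I → ℝ) : I → ℝ := fun i => if i ∈ S then x i else 0

/-- The small coordinates. -/
noncomputable def low {I : Type} (τ : ℝ) (v : I → ℝ) : I → ℝ := fun i => if v i ^ 2 ≤ τ then v i else 0

/-- The large coordinates. -/
noncomputable def high {I : Type} (τ : ℝ) (v : I → ℝ) : I → ℝ := fun i => if v i ^ 2 ≤ τ then 0 else v i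

/-- The layer `ε` keeps mass more than `D` of the small part of `v` on some set of size `s`. -/
def Bev {I : Type} [Fintype I] [DecidableEq I] (W : I → I → ℝ) (s : ℕ) (D τ : ℝ) (v : I → ℝ) (ε : I → Bool) : Prop :=
  ∃ S : Finset I, S.card ≤ s ∧ D < nsq (cut S (UU W ε (low τ v)))

/-- `Bev` happens for `n` consecutive layers, `v` moving with the layers. -/
def alive {I : Type} [Fintype I] [DecidableEq I] (W : I → I → ℝ) (s : ℕ) (D τ : ℝ) :
    ℕ → (I → ℝ) → (ℕ → I → Bool) → Prop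
  | 0, _, _ => True
  | n + 1, v, L => Bev W s D τ v (L 0) ∧ alive W s D τ n (UU W (L 0) v) (fun i => L (i + 1))

/-- Extension of a finite sequence of sign vectors. -/
def ex {I : Type} {J : ℕ} (L : Fin J → I → Bool) : ℕ → I → Bool :=
  fun i => if h : i < J then L ⟨i, h⟩ else fun _ => true

/-- Grid vectors with at most `K` nonzero coordinates. -/
def grid {I : Type} [Fintype I] (p K : ℕ) (u : I → ℝ) : Prop :=
  nsq u ≤ 1 ∧ sz u ≤ K ∧ ∀ i, ∃ z : ℤ, u i = z / 2 ^ (2 * p + 4)

/-- No grid vector of size `2^c` stays alive for `w` layers. -/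
def Good {I : Type} [Fintype I] [DecidableEq I] (W : I → I → ℝ) (p cm w J s : ℕ) (D : ℝ) (L : ℕ → I → Bool) :
    Prop :=
  ∀ c, cm < c → c ≤ p → ∀ u : I → ℝ, grid p (2 ^ c) u → ∀ j, j + 1 + w ≤ J →
    ¬ alive W s D (2 / 2 ^ c) w (UU W (L j) u) (fun i => L (j + 1 + i))

/-- The trajectory of a vector. -/
noncomputable def traj {I : Type} [Fintype I] (W : I → I → ℝ) (L : ℕ → I → Bool) (x : I → ℝ) : ℕ → I → ℝ
  | 0 => x
  | j + 1 => UU W (L j) (traj W L x j)

/-- The part which is spiky at all times. -/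
noncomputable def gS {I : Type} [Fintype I] (W : I → I → ℝ) (τ0 : ℝ) (L : ℕ → I → Bool) (x : I → ℝ) : ℕ → I → ℝ
  | 0 => x
  | j + 1 => high τ0 (UU W (L j) (gS W τ0 L x j))

/-- The flat part. -/
noncomputable def fS {I : Type} [Fintype I] (W : I → I → ℝ) (τ0 τ1 : ℝ) (L : ℕ → I → Bool) (x : I → ℝ) :
    ℕ → I → ℝ
  | 0 => fun _ => 0
  | j + 1 => fun i => low τ0 (UU W (L j) (gS W τ0 L x j)) i + low τ1 (UU W (L j) (fS W τ0 τ1 L x j)) i

/-- The error part. -/
noncomputable def eS {I : Type} [Fintype I] (W : I → I → ℝ) (τ0 τ1 : ℝ) (L : ℕ → I → Bool) (x : I → ℝ) :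
    ℕ → I → ℝ
  | 0 => fun _ => 0
  | j + 1 => fun i => UU W (L j) (eS W τ0 τ1 L x j) i + high τ1 (UU W (L j) (fS W τ0 τ1 L x j)) i

end Pool.Agent.Helper951_jl
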