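import Pool.Agent.Helper951_jl.Basic
import Pool.Agent.Helper951_sr.Hoeff
import Pool.Agent.Helper951_sr.Maurey
import Pool.Agent.Helper951_sr.Flat1

/-!
Project JL (helper951, MP_fe497f_lc). Module Layer: Lemma 1 and Corollary 2.
-/

namespace Pool.Agent.Helper951_jl

open Finset Pool.Agent.Helper951_sr

/-- the matrix of the variance seminorm -/
noncomputable def layer_M {I : Type} [Fintype I] (W : I → I → ℝ) (w : I → ℝ) : I → I → ℝ :=
  fun k e => w k * ((Real.sqrt (Fintype.card I))⁻¹ * W k e)

theorem layer_M_col {I : Type} [Fintype I] [DecidableEq I] [Nonempty I] (W : I → I → ℝ) (hW : IsHad W) (w : I → ℝ)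
    (om : ℝ) (hw : nsq w ≤ om) (e : I) : ∑ k, layer_M W w k e ^ 2 ≤ om / Fintype.card I := by
  obtain ⟨hW1, -, -⟩ := hW
  have hN : (0 : ℝ) < Fintype.card I := by exact_mod_cast Fintype.card_pos
  have h1 : ∀ k, layer_M W w k e ^ 2 = w k ^ 2 / Fintype.card I := by
    intro k
    unfold layer_M
    rw [mul_pow, mul_pow, inv_pow, Real.sq_sqrt hN.le]
    rcases hW1 k e with h | h <;> rw [h] <;> field_simp
  simp_rw [h1]
  rw [← sum_div]
  exact div_le_div_of_nonneg_right hw hN.le

theorem layer_M_le {I : Type} [Fintype I] [DecidableEq I] [Nonempty I] (W : I → I → ℝ) (hW : IsHad W) (w : I → ℝ)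
    (lam : ℝ) (hwl : ∀ i, w i ^ 2 ≤ lam) (x : I → ℝ) : nsq (mv (layer_M W w) x) ≤ lam * nsq x := by
  have h1 : ∀ k, mv (layer_M W w) x k = w k * UI W (fun _ => true) x k := by
    intro k
    unfold mv layer_M UI
    simp only [sg, if_true, one_mul, mul_sum]
    exact sum_congr rfl fun i _ => by ring
  rw [← UI_nsq W hW (fun _ => true) x]
  unfold nsq
  rw [mul_sum]
  refine sum_le_sum fun k _ => ?_
  rw [h1, mul_pow]
  exact mul_le_mul_of_nonneg_right (hwl k) (sq_nonneg _)

/-- the Rademacher sum of a test vector -/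
theorem layer_sum {I : Type} [Fintype I] [DecidableEq I] [Nonempty I] (W : I → I → ℝ) (hW : IsHad W) (w y : I → ℝ)
    (ε : I → Bool) : ∑ j, y j * UU W ε w j = ∑ i, sg (ε i) * mv (layer_M W w) y i := by
  rw [UU_adj W hW]
  refine sum_congr rfl fun i _ => ?_
  unfold UI mv layer_M
  simp only [mul_sum, sum_mul]
  exact sum_congr rfl fun j _ => by ring

/-- one test vector -/
theorem layer_test {I : Type} [Fintype I] [DecidableEq I] [Nonempty I] (W : I → I → ℝ) (hW : IsHad W) (w y : I → ℝ)
    (K : ℝ) (hK : 0 ≤ K) :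
    cnt (fun ε : I → Bool => 0 < ∑ j, y j * UU W ε w j ∧
        K * nsq (mv (layer_M W w) y) ≤ (∑ j, y j * UU W ε w j) ^ 2)
      ≤ Real.exp (-K / 2) * 2 ^ Fintype.card I := by
  set a : I → ℝ := mv (layer_M W w) y with ha
  have hsum : ∀ ε : I → Bool, ∑ j, y j * UU W ε w j = ∑ i, sg (ε i) * a i := layer_sum W hW w y
  simp_rw [hsum]
  by_cases h0 : nsq a = 0
  · have hz : ∀ i, a i = 0 := by
      apply nm_eq_zero
      unfold nm
      rw [h0, Real.sqrt_zero]
    have h1 : cnt (fun ε : I → Bool => 0 < ∑ i, sg (ε i) * a i ∧ K * nsq a ≤ (∑ i, sg (ε i) * a i) ^ 2)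
        ≤ cnt (fun _ : I → Bool => False) := by
      apply cnt_mono
      rintro ε ⟨h2, -⟩
      simp [hz] at h2
    refine h1.trans ?_
    rw [cnt_eq]
    simp only [filter_false, card_empty, Nat.cast_zero]
    positivity
  · have hpos : 0 < nsq a := lt_of_le_of_ne (nsq_nonneg a) (Ne.symm h0)
    have h2 := hoeffding a (nsq a) (Real.sqrt (K * nsq a)) hpos (Real.sqrt_nonneg _) le_rfl
    have h3 : -Real.sqrt (K * nsq a) ^ 2 / (2 * nsq a) = -K / 2 := by
      rw [Real.sq_sqrt (by positivity)]
      field_simp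
    rw [h3] at h2
    refine le_trans ?_ h2
    rw [← cnt_eq]
    apply cnt_mono
    rintro ε ⟨h4, h5⟩
    calc Real.sqrt (K * nsq a) ≤ Real.sqrt ((∑ i, sg (ε i) * a i) ^ 2) := Real.sqrt_le_sqrt h5
      _ = _ := Real.sqrt_sq h4.le

/-- Lemma 1. -/
theorem one_layer {I : Type} [Fintype I] [DecidableEq I] [Nonempty I] (W : I → I → ℝ) (hW : IsHad W) (w : I → ℝ)
    (om lam D : ℝ) (s : ℕ) (hw : nsq w ≤ om) (hlam : 0 < lam) (hwl : ∀ i, w i ^ 2 ≤ lam) (hD : 0 < D)
    (hDs : 16 * Real.log (2 * Fintype.card I) * om * s ≤ D * Fintype.card I) :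
    cnt (fun ε : I → Bool => ∃ S : Finset I, S.card ≤ s ∧ D < nsq (cut S (UU W ε w)))
      ≤ 2 * Fintype.card I * Real.exp (-D / (16 * lam)) * 2 ^ Fintype.card I := by
  have hN : (0 : ℝ) < Fintype.card I := by exact_mod_cast Fintype.card_pos
  have hom : 0 ≤ om := (nsq_nonneg w).trans hw
  set N : ℝ := (Fintype.card I : ℝ) with hNdef
  set r : ℝ := s * om / (N * lam) with hr
  have hr0 : 0 ≤ r := by positivity
  set l : ℕ := ⌊r⌋₊ + 1 with hl
  have hlr : r ≤ l := by
    rw [hl]
    push_cast
    exact (Nat.lt_floor_add_one r).le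
  have hlr2 : (l : ℝ) ≤ r + 1 := by
    rw [hl]
    push_cast
    linarith [Nat.floor_le hr0]
  have hl0 : 0 < l := by omega
  set K : ℝ := D / (4 * lam) with hK
  -- the event is contained in a union
  have h1 : cnt (fun ε : I → Bool => ∃ S : Finset I, S.card ≤ s ∧ D < nsq (cut S (UU W ε w)))
      ≤ cnt (fun ε : I → Bool => ∃ idx ∈ (univ : Finset (Fin l → I × Bool)),
          0 < ∑ j, flat1_U idx j * UU W ε w j ∧
          K * nsq (mv (layer_M W w) (flat1_U idx)) ≤ (∑ j, flat1_U idx j * UU W ε w j) ^ 2) := by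
    apply cnt_mono
    rintro ε ⟨S, hS, hS2⟩
    set v := UU W ε w with hv
    have hms : nsq (cut S v) = ∑ e ∈ S, v e ^ 2 := by
      unfold nsq cut
      rw [← sum_filter_add_sum_filter_not univ (fun e => e ∈ S)]
      rw [sum_eq_zero (s := univ.filter (fun e => e ∉ S)), add_zero]
      · rw [filter_mem_eq_inter, univ_inter]
        exact sum_congr rfl fun e he => by rw [if_pos he]
      · intro e he
        rw [mem_filter] at he
        rw [if_neg he.2]
        ring
    have hcut : (fun e => if e ∈ S then v e else 0) = cut S v := rfl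
    obtain ⟨idx, h2, h3⟩ := flat1_det (layer_M W w) v S (om / N) lam hlam l hl0
      (layer_M_col W hW w om hw) (by
        rw [hcut, ← hms]
        exact layer_M_le W hW w lam hwl (cut S v)) (by
        have h4 : (S.card : ℝ) ≤ s := by exact_mod_cast hS
        calc (S.card : ℝ) * (om / N) ≤ s * (om / N) := mul_le_mul_of_nonneg_right h4 (by positivity)
          _ = r * lam := by rw [hr]; field_simp
          _ ≤ l * lam := mul_le_mul_of_nonneg_right hlr hlam.le) (by
        rw [← hms]
        exact hD.trans hS2)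
    refine ⟨idx, mem_univ _, h2, ?_⟩
    refine le_trans ?_ h3
    apply mul_le_mul_of_nonneg_right _ (nsq_nonneg _)
    rw [hK, ← hms]
    exact div_le_div_of_nonneg_right hS2.le (by positivity)
  refine h1.trans ((cnt_exists_le _ _).trans ?_)
  have h2 : ∀ idx ∈ (univ : Finset (Fin l → I × Bool)), cnt (fun ε : I → Bool => 0 < ∑ j, flat1_U idx j * UU W ε w j ∧
          K * nsq (mv (layer_M W w) (flat1_U idx)) ≤ (∑ j, flat1_U idx j * UU W ε w j) ^ 2)
        ≤ Real.exp (-K / 2) * 2 ^ Fintype.card I :=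
    fun idx _ => layer_test W hW w (flat1_U idx) K (by positivity)
  refine (sum_le_sum h2).trans ?_
  rw [sum_const, nsmul_eq_mul, card_univ]
  have h3 : (Fintype.card (Fin l → I × Bool) : ℝ) = (2 * N) ^ l := by
    rw [Fintype.card_fun, Fintype.card_prod, Fintype.card_bool, Fintype.card_fin]
    push_cast
    rw [mul_comm N 2]
  rw [h3, ← mul_assoc]
  apply mul_le_mul_of_nonneg_right _ (by positivity)
  -- numerical part
  have hN1 : (1 : ℝ) ≤ N := by
    rw [hNdef]
    exact_mod_cast Fintype.card_pos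
  have hlog : 0 ≤ Real.log (2 * N) := Real.log_nonneg (by linarith)
  have h4 : (2 * N) ^ l ≤ 2 * N * Real.exp (D / (16 * lam)) := by
    have h5 : (2 * N) ^ l = Real.exp (Real.log (2 * N) * l) := by
      rw [← Real.rpow_natCast, Real.rpow_def_of_pos (by positivity)]
    have h6 : 2 * N * Real.exp (D / (16 * lam)) = Real.exp (Real.log (2 * N) + D / (16 * lam)) := by
      rw [Real.exp_add, Real.exp_log (by positivity)]
    rw [h5, h6]
    apply Real.exp_le_exp.2
    have h7 : Real.log (2 * N) * r ≤ D / (16 * lam) := by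
      rw [hr, le_div_iff₀ (by positivity)]
      have h8 : Real.log (2 * N) * (s * om / (N * lam)) * (16 * lam) = (16 * Real.log (2 * N) * om * s) / N := by
        field_simp
      rw [h8, div_le_iff₀ hN]
      exact hDs
    have h9 : Real.log (2 * N) * l ≤ Real.log (2 * N) * (r + 1) := mul_le_mul_of_nonneg_left hlr2 hlog
    linarith
  calc (2 * N) ^ l * Real.exp (-K / 2) ≤ (2 * N * Real.exp (D / (16 * lam))) * Real.exp (-K / 2) :=
        mul_le_mul_of_nonneg_right h4 (Real.exp_pos _).le
    _ = 2 * N * Real.exp (-D / (16 * lam)) := by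
        rw [mul_assoc, ← Real.exp_add]
        congr 2
        rw [hK]
        field_simp
        ring

/-- Corollary 2. -/
theorem flat_layer {I : Type} [Fintype I] [DecidableEq I] [Nonempty I] (W : I → I → ℝ) (hW : IsHad W) (w : I → ℝ)
    (om lam Q th : ℝ) (hw : nsq w ≤ om) (hom : 0 < om) (hlam : 0 < lam) (hwl : ∀ i, w i ^ 2 ≤ lam) (hQ : 0 ≤ Q)
    (hth : 32 * om * Real.log (2 * Fintype.card I) ≤ th * Fintype.card I) :
    cnt (fun ε : I → Bool => 2 * (16 * lam * (Q + 2 * Real.log (2 * Fintype.card I))) < nsq (high th (UU W ε w)))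
      ≤ Real.exp (-Q) * 2 ^ Fintype.card I := by
  have hN : (0 : ℝ) < Fintype.card I := by exact_mod_cast Fintype.card_pos
  have hN1 : (1 : ℝ) ≤ Fintype.card I := by exact_mod_cast Fintype.card_pos
  set N : ℝ := (Fintype.card I : ℝ) with hNdef
  have hlog : 0 < Real.log (2 * N) := Real.log_pos (by linarith)
  set F : ℝ := 16 * om * Real.log (2 * N) with hF
  set mu : ℝ := 16 * lam * (Q + 2 * Real.log (2 * N)) with hmu
  have hF0 : 0 < F := by positivity
  have hmu0 : 0 < mu := by positivity
  have hth0 : 0 < th := by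
    by_contra hneg
    push Not at hneg
    have h1 : 0 < 32 * om * Real.log (2 * N) := by positivity
    have h2 : th * N ≤ 0 := mul_nonpos_of_nonpos_of_nonneg hneg hN.le
    linarith
  -- inclusion
  have h1 : cnt (fun ε : I → Bool => 2 * mu < nsq (high th (UU W ε w)))
      ≤ cnt (fun ε : I → Bool => ∃ s ∈ Finset.range (Fintype.card I), ∃ S : Finset I, S.card ≤ s + 1 ∧
          mu + F * ((s + 1 : ℕ) : ℝ) / N < nsq (cut S (UU W ε w))) := by
    apply cnt_mono
    intro ε hε
    obtain ⟨S, hS1, -, hS4⟩ := high_eq_cut' th hth0 (UU W ε w)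
    rw [hS1] at hε hS4
    have hSpos : 0 < S.card := by
      rw [Nat.pos_iff_ne_zero]
      intro h0
      rw [card_eq_zero] at h0
      have : nsq (cut S (UU W ε w)) = 0 := by
        rw [h0]
        unfold nsq cut
        simp
      linarith
    refine ⟨S.card - 1, ?_, S, ?_, ?_⟩
    · rw [mem_range]
      have := card_le_univ S
      omega
    · omega
    · have e1 : S.card - 1 + 1 = S.card := by omega
      rw [e1]
      set m : ℝ := nsq (cut S (UU W ε w)) with hm
      have h2 : F * (S.card : ℝ) / N ≤ m / 2 := by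
        have h3 : (S.card : ℝ) * (32 * om * Real.log (2 * N)) ≤ m * N := by
          calc (S.card : ℝ) * (32 * om * Real.log (2 * N)) ≤ S.card * (th * N) :=
                mul_le_mul_of_nonneg_left hth (by positivity)
            _ = (S.card * th) * N := by ring
            _ ≤ m * N := mul_le_mul_of_nonneg_right hS4 hN.le
        rw [div_le_iff₀ hN, hF]
        linarith
      linarith
  refine h1.trans ((cnt_exists_le _ _).trans ?_)
  have h2 : ∀ s ∈ Finset.range (Fintype.card I), cnt (fun ε : I → Bool => ∃ S : Finset I, S.card ≤ s + 1 ∧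
          mu + F * ((s + 1 : ℕ) : ℝ) / N < nsq (cut S (UU W ε w)))
        ≤ Real.exp (-Q) / N * 2 ^ Fintype.card I := by
    intro s _
    have hD : 0 < mu + F * ((s + 1 : ℕ) : ℝ) / N := by positivity
    refine (one_layer W hW w om lam _ (s + 1) hw hlam hwl hD ?_).trans ?_
    · have e1 : (mu + F * ((s + 1 : ℕ) : ℝ) / N) * (Fintype.card I : ℝ) = mu * N + F * ((s + 1 : ℕ) : ℝ) := by
        rw [← hNdef]
        field_simp
      rw [e1, ← hNdef, hF]
      have : 0 ≤ mu * N := by positivity
      linarith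
    · apply mul_le_mul_of_nonneg_right _ (by positivity)
      rw [← hNdef]
      have h3 : Real.exp (-(mu + F * ((s + 1 : ℕ) : ℝ) / N) / (16 * lam)) ≤ Real.exp (-(Q + 2 * Real.log (2 * N))) := by
        apply Real.exp_le_exp.2
        have h4 : 0 ≤ F * ((s + 1 : ℕ) : ℝ) / N := by positivity
        rw [div_le_iff₀ (by positivity)]
        rw [hmu]
        nlinarith
      have h5 : Real.exp (-(Q + 2 * Real.log (2 * N))) = Real.exp (-Q) / (2 * N) ^ 2 := by
        rw [neg_add, Real.exp_add, Real.exp_neg (2 * Real.log (2 * N))]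
        have h6 : Real.exp (2 * Real.log (2 * N)) = (2 * N) ^ 2 := by
          rw [two_mul, Real.exp_add, Real.exp_log (by positivity)]
          ring
        rw [h6]
        rfl
      calc 2 * N * Real.exp (-(mu + F * ((s + 1 : ℕ) : ℝ) / N) / (16 * lam))
          ≤ 2 * N * (Real.exp (-Q) / (2 * N) ^ 2) := by
            rw [← h5]
            exact mul_le_mul_of_nonneg_left h3 (by positivity)
        _ = Real.exp (-Q) / N / 2 := by field_simp
        _ ≤ Real.exp (-Q) / N := by
            have : 0 ≤ Real.exp (-Q) / N := by positivity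
            linarith
  refine (sum_le_sum h2).trans (le_of_eq ?_)
  rw [sum_const, card_range, nsmul_eq_mul, ← hNdef]
  field_simp

end Pool.Agent.Helper951_jl
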