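import Pool.Agent.Helper951_jl.Basic
import Pool.Agent.Helper951_jl.Grid

/-!
Project JL (helper951, MP_fe497f_lc). Module Persist: Lemma 4, there are no sparse pseudo-orbits.
-/

namespace Pool.Agent.Helper951_jl

open Finset Pool.Agent.Helper951_sr

theorem traj_shift {I : Type} [Fintype I] (W : I → I → ℝ) (L : ℕ → I → Bool) (x : I → ℝ) (n : ℕ) :
    traj W L x (n + 1) = traj W (fun k => L (k + 1)) (UU W (L 0) x) n := by
  induction n with
  | zero => rfl
  | succ n ih =>
    change UU W (L (n + 1)) (traj W L x (n + 1)) = _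
    rw [ih]
    rfl

theorem not_alive {I : Type} [Fintype I] [DecidableEq I] (W : I → I → ℝ) (s : ℕ) (D τ : ℝ) (n : ℕ) (v : I → ℝ)
    (L : ℕ → I → Bool) (h : ¬ alive W s D τ n v L) : ∃ i < n, ¬ Bev W s D τ (traj W L v i) (L i) := by
  induction n generalizing v L with
  | zero => exact absurd trivial h
  | succ n ih =>
    by_cases hb : Bev W s D τ v (L 0)
    · have h2 : ¬ alive W s D τ n (UU W (L 0) v) (fun i => L (i + 1)) := fun h3 => h ⟨hb, h3⟩
      obtain ⟨i, hi, h3⟩ := ih _ _ h2
      refine ⟨i + 1, by omega, ?_⟩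
      rw [traj_shift]
      exact h3
    · exact ⟨0, by omega, hb⟩

theorem traj_norm {I : Type} [Fintype I] [DecidableEq I] [Nonempty I] (W : I → I → ℝ) (hW : IsHad W)
    (L : ℕ → I → Bool) (x : I → ℝ) (n : ℕ) : nsq (traj W L x n) = nsq x := by
  induction n with
  | zero => rfl
  | succ n ih =>
    change nsq (UU W (L n) (traj W L x n)) = _
    rw [UU_nsq W hW, ih]

/-- the pseudo-orbit stays close to the orbit of an approximation -/
theorem persist_track {I : Type} [Fintype I] [DecidableEq I] [Nonempty I] (W : I → I → ℝ) (hW : IsHad W)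
    (L : ℕ → I → Bool) (y : ℕ → I → ℝ) (u : I → ℝ) (a m : ℕ) :
    nm (fun i => y (a + m) i - traj W (fun k => L (a + k)) u m i) ≤ nm (fun i => y a i - u i)
      + ∑ k ∈ range m, nm (fun i => y (a + k + 1) i - UU W (L (a + k)) (y (a + k)) i) := by
  induction m with
  | zero => simp [traj]
  | succ m ih =>
    rw [sum_range_succ]
    have h1 := nm_tri (y (a + (m + 1))) (UU W (L (a + m)) (y (a + m)))
      (traj W (fun k => L (a + k)) u (m + 1))
    have h2 : nm (fun i => UU W (L (a + m)) (y (a + m)) i - traj W (fun k => L (a + k)) u (m + 1) i)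
        = nm (fun i => y (a + m) i - traj W (fun k => L (a + k)) u m i) :=
      UU_dist W hW (L (a + m)) (y (a + m)) (traj W (fun k => L (a + k)) u m)
    rw [h2] at h1
    have e : a + (m + 1) = a + m + 1 := by ring
    rw [e] at h1 ⊢
    linarith

theorem persist_sqrt (x t κ : ℝ) (hx : 0 ≤ x) (ht : 0 ≤ t) (hκ : 0 ≤ κ) :
    Real.sqrt ((x + t) ^ 2 + κ) ≤ Real.sqrt (x ^ 2 + κ) + t := by
  rw [Real.sqrt_le_left (by positivity)]
  have h1 : Real.sqrt (x ^ 2 + κ) ^ 2 = x ^ 2 + κ := Real.sq_sqrt (by positivity)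
  have h2 : x ≤ Real.sqrt (x ^ 2 + κ) := by
    apply Real.le_sqrt_of_sq_le
    linarith
  nlinarith

/-- vectors which agree with their restriction to the support -/
theorem cut_supp {I : Type} [Fintype I] [DecidableEq I] (x : I → ℝ) :
    cut (univ.filter (fun i => x i ≠ 0)) x = x := by
  funext i
  unfold cut
  by_cases h : x i = 0
  · simp [h]
  · simp [h]

theorem nm_sub_cut {I : Type} [Fintype I] [DecidableEq I] (S : Finset I) (x : I → ℝ) :
    (fun i => x i - cut S x i) = cut Sᶜ x := by
  funext i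
  unfold cut
  by_cases h : i ∈ S <;> simp [h]

theorem cut_sub {I : Type} [DecidableEq I] (S : Finset I) (x y : I → ℝ) :
    cut S (fun i => x i - y i) = fun i => cut S x i - cut S y i := by
  funext i
  unfold cut
  split_ifs <;> ring

theorem cut_add {I : Type} [DecidableEq I] (S : Finset I) (x y : I → ℝ) :
    cut S (fun i => x i + y i) = fun i => cut S x i + cut S y i := by
  funext i
  unfold cut
  split_ifs <;> ring

/-- one stage at a layer where `Bev` fails -/
theorem persist_step {I : Type} [Fintype I] [DecidableEq I] [Nonempty I] (W : I → I → ℝ) (hW : IsHad W)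
    (c s : ℕ) (hc : 1 ≤ c) (D : ℝ) (ε : I → Bool) (v y0 y1 : I → ℝ) (hv : nsq v ≤ 1) (hy1 : nsq y1 = 1)
    (hs1 : sz y1 ≤ s) (hB : ¬ Bev W s D (2 / 2 ^ c) v ε) (A : ℝ)
    (hA : nm (fun i => UI W ε y1 i - v i) ≤ A) :
    ∃ T : Finset I, T.card ≤ 2 ^ (c - 1) ∧ nm (fun i => y0 i - cut T y0 i) ≤ Real.sqrt (A ^ 2 + 2 * Real.sqrt D)
      + nm (fun i => y1 i - UU W ε y0 i) := by
  have hτ : (0 : ℝ) < 2 / 2 ^ c := by positivity
  obtain ⟨T, h1, h2, h3⟩ := high_eq_cut (2 / 2 ^ c) hτ v
  refine ⟨T, ?_, ?_⟩
  · have h4 : (T.card : ℝ) ≤ 2 ^ (c - 1) := by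
      obtain ⟨c', rfl⟩ : ∃ c', c = c' + 1 := ⟨c - 1, by omega⟩
      have h5 := h3.trans hv
      rw [pow_succ] at h5
      have h6 : (2 : ℝ) / (2 ^ c' * 2) = 1 / 2 ^ c' := by field_simp
      rw [h6, mul_one_div, div_le_one (by positivity)] at h5
      simpa using h5
    exact_mod_cast h4
  · set yy : I → ℝ := UI W ε y1 with hyy
    have hdist : nm (fun i => yy i - y0 i) = nm (fun i => y1 i - UU W ε y0 i) := by
      rw [← UU_dist W hW ε yy y0]
      congr 1
      funext i
      rw [hyy, UU_UI W hW]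
    -- the correlation
    have hcorr : ∑ i, yy i * low (2 / 2 ^ c) v i ≤ Real.sqrt D := by
      rw [hyy, ← UU_adj W hW]
      set S := univ.filter (fun i => y1 i ≠ 0) with hS
      have h4 : ∑ j, y1 j * UU W ε (low (2 / 2 ^ c) v) j = ∑ j, y1 j * cut S (UU W ε (low (2 / 2 ^ c) v)) j := by
        rw [← inner_cut, hS, cut_supp]
      rw [h4]
      refine (inner_le _ _).trans ?_
      have h5 : nm y1 = 1 := by
        unfold nm
        rw [hy1, Real.sqrt_one]
      rw [h5, one_mul]
      unfold nm
      apply Real.sqrt_le_sqrt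
      by_contra h6
      push Not at h6
      exact hB ⟨S, hs1, h6⟩
    rw [h2] at hcorr
    have h4 : nsq (cut Tᶜ yy) ≤ A ^ 2 + 2 * Real.sqrt D := by
      have h5 : nsq (cut Tᶜ (fun i => yy i - v i)) ≤ A ^ 2 := by
        refine (nsq_cut_le _ _).trans ?_
        rw [← nm_sq]
        exact pow_le_pow_left₀ (nm_nonneg _) hA 2
      rw [cut_sub, nsq_sub] at h5
      have h6 : ∑ i, cut Tᶜ yy i * cut Tᶜ v i = ∑ i, yy i * cut Tᶜ v i := by
        refine sum_congr rfl fun i _ => ?_
        unfold cut
        split_ifs <;> ring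
      rw [h6] at h5
      have h7 := nsq_nonneg (cut Tᶜ v)
      linarith
    have h5 : nm (cut Tᶜ yy) ≤ Real.sqrt (A ^ 2 + 2 * Real.sqrt D) := Real.sqrt_le_sqrt h4
    rw [nm_sub_cut]
    have h6 := nm_le_add (cut Tᶜ y0) (cut Tᶜ yy)
    have h7 : nm (fun i => cut Tᶜ y0 i - cut Tᶜ yy i) ≤ nm (fun i => yy i - y0 i) := by
      rw [← cut_sub, nm_sub_comm yy y0]
      exact nm_cut_le _ _
    rw [hdist] at h7
    linarith

theorem persist {I : Type} [Fintype I] [DecidableEq I] [Nonempty I] (W : I → I → ℝ) (hW : IsHad W)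
    (p cm w J s : ℕ) (D : ℝ) (hp : 1 ≤ p) (hI : Fintype.card I = 2 ^ p) (hD0 : 0 < D) (hD : D * (2 ^ 14 * p ^ 2) ≤ 1)
    (hs : 128 * 2 ^ cm * s ≤ 2 ^ p) (hJ : p * w + 1 ≤ J) (L : ℕ → I → Bool) (hG : Good W p cm w J s D L)
    (y : ℕ → I → ℝ) (hy : ∀ j ≤ J, nsq (y j) = 1) (hys : ∀ j ≤ J, sz (y j) ≤ s) :
    1 / 8 ≤ ∑ j ∈ range J, nm (fun i => y (j + 1) i - UU W (L j) (y j) i) := by
  by_contra hcon
  push Not at hcon
  set η : ℕ → ℝ := fun j => nm (fun i => y (j + 1) i - UU W (L j) (y j) i) with hη
  have hη0 : ∀ j, 0 ≤ η j := fun j => nm_nonneg _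
  set κ : ℝ := 2 * Real.sqrt D with hκ
  have hκ0 : 0 ≤ κ := by positivity
  set dq : ℝ := 1 / 2 ^ (p + 4) with hdq
  have hdq0 : 0 ≤ dq := by positivity
  -- the stages
  have hstage : ∀ k ≤ p - cm, ∃ j ≤ k * w, ∃ T : Finset I, T.card ≤ 2 ^ (p - k) ∧
      nm (fun i => y j i - cut T (y j) i) ≤ Real.sqrt (k * κ) + k * dq + 3 * (∑ i ∈ range j, η i) + 2 * η j := by
    intro k
    induction k with
    | zero =>
      intro _
      refine ⟨0, by simp, univ, ?_, ?_⟩
      · rw [card_univ, hI]
        simp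
      · have h1 : (fun i => y 0 i - cut univ (y 0) i) = fun _ => (0 : ℝ) := by
          funext i
          simp [cut]
        rw [h1, nm_zero]
        have := hη0 0
        simp
        linarith
    | succ k ih =>
      intro hk
      obtain ⟨a, ha, T, hT1, hT2⟩ := ih (by omega)
      have hkp : k + 1 ≤ p := by omega
      have haw : a + 1 + w ≤ J := by
        have h1 : (k + 1) * w ≤ p * w := Nat.mul_le_mul_right w hkp
        have h2 : (k + 1) * w = k * w + w := by ring
        omega
      have haJ : a ≤ J := by omega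
      obtain ⟨u, hu1, hu2⟩ := grid_round p (2 ^ (p - k)) hI (cut T (y a))
        ((nsq_cut_le _ _).trans (hy a haJ).le) ((sz_cut_le _ _).trans hT1)
      obtain ⟨i, hi, hB⟩ := not_alive W s D _ w _ _ (hG (p - k) (by omega) (by omega) u hu1 a haw)
      have htr : traj W (fun i => L (a + 1 + i)) (UU W (L a) u) i = traj W (fun k => L (a + k)) u (i + 1) := by
        rw [traj_shift]
        have e1 : (fun k => L (a + (k + 1))) = fun i => L (a + 1 + i) := by
          funext k
          congr 1
          ring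
        rw [e1]
        rfl
      rw [htr] at hB
      set j := a + (i + 1) with hj
      have ej : a + 1 + i = j := by omega
      have hB' : ¬ Bev W s D (2 / 2 ^ (p - k)) (traj W (fun k => L (a + k)) u (i + 1)) (L j) := by
        have e2 : L (a + 1 + i) = L j := by rw [ej]
        have hB2 := hB
        rw [e2] at hB2
        exact hB2
      have hjJ : j + 1 ≤ J := by omega
      -- distance
      have hdist := persist_track W hW L y u a (i + 1)
      rw [← hj] at hdist
      have hya : nm (fun i => y a i - u i) ≤ nm (fun i => y a i - cut T (y a) i) + dq :=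
        (nm_tri (y a) (cut T (y a)) u).trans (by linarith)
      set A : ℝ := (Real.sqrt (k * κ)) + (k * dq + 3 * (∑ i ∈ range a, η i) + 2 * η a + dq
        + (∑ k ∈ range (i + 1), η (a + k)) + η j) with hA
      have hAle : nm (fun i' => UI W (L j) (y (j + 1)) i' - traj W (fun k => L (a + k)) u (i + 1) i') ≤ A := by
        have h1 := nm_tri (UI W (L j) (y (j + 1))) (y j) (traj W (fun k => L (a + k)) u (i + 1))
        have h2 : nm (fun i => UI W (L j) (y (j + 1)) i - y j i) = η j := by
          rw [hη]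
          simp only []
          rw [← UU_dist W hW (L j) (UI W (L j) (y (j + 1))) (y j)]
          congr 1
          funext i
          rw [UU_UI W hW]
        rw [h2] at h1
        have h3 : ∑ k ∈ range (i + 1), nm (fun i => y (a + k + 1) i - UU W (L (a + k)) (y (a + k)) i)
            = ∑ k ∈ range (i + 1), η (a + k) := rfl
        rw [h3] at hdist
        linarith
      obtain ⟨T', hT1', hT2'⟩ := persist_step W hW (p - k) s (by omega) D (L j)
        (traj W (fun k => L (a + k)) u (i + 1)) (y j) (y (j + 1))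
        (by rw [traj_norm W hW]; exact hu1.1) (hy (j + 1) hjJ) (hys (j + 1) hjJ) hB' A hAle
      refine ⟨j, ?_, T', ?_, ?_⟩
      · have h2 : (k + 1) * w = k * w + w := by ring
        omega
      · have e3 : p - (k + 1) = p - k - 1 := by omega
        rw [e3]
        exact hT1'
      · refine hT2'.trans ?_
        have hsum : ∑ i ∈ range j, η i = (∑ i ∈ range a, η i) + ∑ k ∈ range (i + 1), η (a + k) := by
          rw [hj, sum_range_add]
        have hηj : nm (fun i => y (j + 1) i - UU W (L j) (y j) i) = η j := rfl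
        rw [hηj, hsum]
        have ht0 : 0 ≤ k * dq + 3 * (∑ i ∈ range a, η i) + 2 * η a + dq
            + (∑ k ∈ range (i + 1), η (a + k)) + η j := by
          have h1 : 0 ≤ ∑ i ∈ range a, η i := sum_nonneg fun i _ => hη0 i
          have h2 : 0 ≤ ∑ k ∈ range (i + 1), η (a + k) := sum_nonneg fun k _ => hη0 _
          have h3 := hη0 a
          have h4 := hη0 j
          positivity
        have h5 := persist_sqrt (Real.sqrt (k * κ)) _ κ (Real.sqrt_nonneg _) ht0 hκ0
        rw [← hA, Real.sq_sqrt (by positivity)] at h5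
        have h6 : (k : ℝ) * κ + κ = ((k + 1 : ℕ) : ℝ) * κ := by
          push_cast
          ring
        rw [h6] at h5
        have h7 : η a ≤ ∑ k ∈ range (i + 1), η (a + k) := by
          have h8 : η a = η (a + 0) := by simp
          rw [h8]
          exact single_le_sum (f := fun k => η (a + k)) (fun k _ => hη0 _) (mem_range.2 (Nat.succ_pos i))
        push_cast
        push_cast at h5
        linarith
  obtain ⟨j, hj, T, hT1, hT2⟩ := hstage (p - cm) le_rfl
  have hjJ : j + 1 ≤ J := by
    have h1 : (p - cm) * w ≤ p * w := Nat.mul_le_mul_right w (Nat.sub_le _ _)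
    omega
  have hTc : T.card ≤ 2 ^ cm := by
    refine hT1.trans (Nat.pow_le_pow_right (by norm_num) ?_)
    by_cases h : cm ≤ p
    · omega
    · -- here `s = 0`, so this case is impossible
      exfalso
      have h1 : 2 ^ p < 2 ^ cm := Nat.pow_lt_pow_right (by norm_num) (by omega)
      have h2 : s = 0 := by
        by_contra h3
        have h4 : 1 ≤ s := Nat.one_le_iff_ne_zero.2 h3
        have h5 : 2 ^ cm ≤ 128 * 2 ^ cm * s := by nlinarith
        omega
      have h3 := hys 0 (by omega)
      rw [h2] at h3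
      have h4 : cut (univ.filter (fun i => y 0 i ≠ 0)) (y 0) = y 0 := cut_supp (y 0)
      have h5 : univ.filter (fun i => y 0 i ≠ 0) = ∅ := card_eq_zero.1 (Nat.le_zero.1 h3)
      rw [h5] at h4
      have h6 : nsq (y 0) = 0 := by
        rw [← h4]
        unfold nsq cut
        simp
      have h7 := hy 0 (by omega)
      linarith
  -- numerical bounds
  have hp0 : (0 : ℝ) < p := by exact_mod_cast hp
  have hsD : Real.sqrt D ≤ 1 / (2 ^ 7 * p) := by
    rw [Real.sqrt_le_left (by positivity), div_pow, one_pow, le_div_iff₀ (by positivity)]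
    calc D * (2 ^ 7 * (p : ℝ)) ^ 2 = D * (2 ^ 14 * p ^ 2) := by ring
      _ ≤ 1 := hD
  have hk1 : Real.sqrt (((p - cm : ℕ) : ℝ) * κ) ≤ 1 / 8 := by
    rw [Real.sqrt_le_left (by norm_num)]
    have h1 : ((p - cm : ℕ) : ℝ) ≤ p := by exact_mod_cast Nat.sub_le _ _
    calc ((p - cm : ℕ) : ℝ) * κ ≤ p * κ := mul_le_mul_of_nonneg_right h1 hκ0
      _ ≤ p * (2 * (1 / (2 ^ 7 * p))) := by
          rw [hκ]
          gcongr
      _ = (1 / 8) ^ 2 := by
          field_simp
          norm_num
  have hk2 : ((p - cm : ℕ) : ℝ) * dq ≤ 1 / 16 := by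
    have h1 : ((p - cm : ℕ) : ℝ) ≤ 2 ^ p := by
      have h2 : p - cm ≤ 2 ^ p := (Nat.sub_le _ _).trans Nat.lt_two_pow_self.le
      exact_mod_cast h2
    calc ((p - cm : ℕ) : ℝ) * dq ≤ 2 ^ p * dq := mul_le_mul_of_nonneg_right h1 hdq0
      _ = 1 / 16 := by
          rw [hdq, pow_add]
          field_simp
          norm_num
  -- the last step
  set S := univ.filter (fun i => y (j + 1) i ≠ 0) with hS
  have hSc : S.card ≤ s := hys (j + 1) hjJ
  have h1 : nm (y (j + 1)) = 1 := by
    unfold nm
    rw [hy (j + 1) hjJ, Real.sqrt_one]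
  have h2 : nm (y (j + 1)) ≤ nm (cut S (UU W (L j) (y j))) + η j := by
    have h3 := nm_le_add (cut S (y (j + 1))) (cut S (UU W (L j) (y j)))
    rw [← cut_sub] at h3
    have h4 := nm_cut_le S (fun i => y (j + 1) i - UU W (L j) (y j) i)
    have h5 : cut S (y (j + 1)) = y (j + 1) := cut_supp _
    rw [h5] at h3
    have h6 : nm (fun i => y (j + 1) i - UU W (L j) (y j) i) = η j := rfl
    linarith
  have h3 : nm (cut S (UU W (L j) (y j))) ≤ 1 / 8 + nm (fun i => y j i - cut T (y j) i) := by
    have h4 : cut S (UU W (L j) (y j)) = fun i => cut S (UU W (L j) (cut T (y j))) i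
        + cut S (UU W (L j) (fun i => y j i - cut T (y j) i)) i := by
      rw [← cut_add]
      congr 1
      funext i
      rw [← UU_add]
      congr 1
      funext i
      ring
    rw [h4]
    refine (nm_add_le _ _).trans (add_le_add ?_ ?_)
    · apply nm_le_of_nsq_le _ _ (by norm_num)
      have h5 : nsq (cut S (UU W (L j) (cut T (y j)))) ≤ ∑ i ∈ S, (2 ^ cm : ℝ) / Fintype.card I := by
        have h6 : nsq (cut S (UU W (L j) (cut T (y j)))) = ∑ i ∈ S, UU W (L j) (cut T (y j)) i ^ 2 := by
          unfold nsq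
          rw [← sum_filter_add_sum_filter_not univ (fun e => e ∈ S)]
          rw [sum_eq_zero (s := univ.filter (fun e => e ∉ S)), add_zero]
          · rw [filter_mem_eq_inter, univ_inter]
            exact sum_congr rfl fun e he => by unfold cut; rw [if_pos he]
          · intro e he
            rw [mem_filter] at he
            unfold cut
            rw [if_neg he.2]
            ring
        rw [h6]
        refine sum_le_sum fun i _ => ?_
        refine (UU_sup W hW (L j) (cut T (y j)) i).trans ?_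
        have hN : (0 : ℝ) < Fintype.card I := by exact_mod_cast Fintype.card_pos
        apply div_le_div_of_nonneg_right _ hN.le
        have h7 : (sz (cut T (y j)) : ℝ) ≤ 2 ^ cm := by
          have := (sz_cut_le T (y j)).trans hTc
          exact_mod_cast this
        have h8 : nsq (cut T (y j)) ≤ 1 := (nsq_cut_le _ _).trans (hy j (by omega)).le
        calc (sz (cut T (y j)) : ℝ) * nsq (cut T (y j)) ≤ 2 ^ cm * 1 :=
              mul_le_mul h7 h8 (nsq_nonneg _) (by positivity)
          _ = 2 ^ cm := mul_one _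
      refine h5.trans ?_
      rw [sum_const, nsmul_eq_mul, hI]
      have h6 : (S.card : ℝ) ≤ s := by exact_mod_cast hSc
      have h7 : (128 : ℝ) * 2 ^ cm * s ≤ 2 ^ p := by exact_mod_cast hs
      push_cast
      rw [← mul_div_assoc, div_le_iff₀ (by positivity)]
      have h8 : (S.card : ℝ) * 2 ^ cm ≤ s * 2 ^ cm := mul_le_mul_of_nonneg_right h6 (by positivity)
      have h9 : (0 : ℝ) < 2 ^ p := by positivity
      linarith
    · refine (nm_cut_le _ _).trans (le_of_eq (UU_nm W hW _ _))
  have h4 : (∑ i ∈ range j, η i) + η j ≤ ∑ i ∈ range J, η i := by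
    rw [← sum_range_succ]
    exact sum_le_sum_of_subset_of_nonneg (range_mono hjJ) fun i _ _ => hη0 i
  linarith

end Pool.Agent.Helper951_jl
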