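import Pool.Agent.Helper951_jl.Basic

/-!
Project JL (helper951, MP_fe497f_lc). Module Sketch: second moment of the signed hashing (count sketch).
-/

namespace Pool.Agent.Helper951_jl

open Finset Pool.Agent.Helper951_sr

/-- a sign which occurs once kills the average -/
theorem sketch_odd {E : Type} [Fintype E] [DecidableEq E] (a : E) (g : (E → Bool) → ℝ)
    (hg : ∀ ε, g (Function.update ε a (!(ε a))) = g ε) :
    ∑ ε : E → Bool, sg (ε a) * g ε = 0 := by
  have h1 : ∑ ε : E → Bool, sg (ε a) * g ε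
      = ∑ ε : E → Bool, sg ((Function.update ε a (!(ε a))) a) * g (Function.update ε a (!(ε a))) := by
    have hinv : Function.Involutive (fun ε : E → Bool => Function.update ε a (!(ε a))) := by
      intro ε
      simp
    exact (Equiv.sum_comp hinv.toPerm (fun ε : E → Bool => sg (ε a) * g ε)).symm
  have h2 : ∀ ε : E → Bool, sg ((Function.update ε a (!(ε a))) a) * g (Function.update ε a (!(ε a)))
      = -(sg (ε a) * g ε) := by
    intro ε
    rw [hg, Function.update_self]
    cases ε a <;> simp [sg]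
  rw [sum_congr rfl fun ε _ => h2 ε, sum_neg_distrib] at h1
  linarith

theorem sketch_four {E : Type} [Fintype E] [DecidableEq E] (a b c d : E) (hab : a ≠ b) (hac : a ≠ c) (had : a ≠ d) :
    ∑ ε : E → Bool, sg (ε a) * (sg (ε b) * (sg (ε c) * sg (ε d))) = 0 := by
  apply sketch_odd a (fun ε => sg (ε b) * (sg (ε c) * sg (ε d)))
  intro ε
  rw [Function.update_of_ne hab.symm, Function.update_of_ne hac.symm, Function.update_of_ne had.symm]

/-- Second moment of a Rademacher chaos. -/
theorem sketch_chaos {E : Type} [Fintype E] [DecidableEq E] (c : E → E → ℝ) (hc : ∀ e f, c e f = c f e)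
    (hd : ∀ e, c e e = 0) :
    ∑ ε : E → Bool, (∑ e, ∑ f, sg (ε e) * sg (ε f) * c e f) ^ 2
      = 2 * (∑ e, ∑ f, c e f ^ 2) * 2 ^ Fintype.card E := by
  have hcard : ∑ _ε : E → Bool, (1 : ℝ) = 2 ^ Fintype.card E := by
    rw [sum_const, card_univ, Fintype.card_fun, Fintype.card_bool]
    simp
  have h1 : ∀ ε : E → Bool, (∑ e, ∑ f, sg (ε e) * sg (ε f) * c e f) ^ 2
      = ∑ e, ∑ f, ∑ e', ∑ f', (c e f * c e' f') * (sg (ε e) * (sg (ε f) * (sg (ε e') * sg (ε f')))) := by
    intro ε
    rw [sq, sum_mul_sum]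
    simp only [sum_mul_sum]
    refine sum_congr rfl fun e _ => ?_
    rw [sum_comm]
    refine sum_congr rfl fun f _ => ?_
    refine sum_congr rfl fun e' _ => sum_congr rfl fun f' _ => ?_
    ring
  rw [sum_congr rfl fun ε _ => h1 ε]
  rw [sum_comm, mul_sum, sum_mul]
  refine sum_congr rfl fun e _ => ?_
  rw [sum_comm, mul_sum, sum_mul]
  refine sum_congr rfl fun f _ => ?_
  by_cases hef : e = f
  · subst hef
    rw [hd]
    simp
  rw [sum_comm]
  -- sum over e', then ε, f'
  have h2 : ∀ e', (∑ ε : E → Bool, ∑ f', (c e f * c e' f') * (sg (ε e) * (sg (ε f) * (sg (ε e') * sg (ε f')))))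
      = (if e' = e then c e f * c e f * 2 ^ Fintype.card E else 0)
        + (if e' = f then c e f * c f e * 2 ^ Fintype.card E else 0) := by
    intro e'
    rw [sum_comm]
    have h3 : ∀ f', ∑ ε : E → Bool, (c e f * c e' f') * (sg (ε e) * (sg (ε f) * (sg (ε e') * sg (ε f'))))
        = if (e' = e ∧ f' = f) ∨ (e' = f ∧ f' = e) then c e f * c e' f' * 2 ^ Fintype.card E else 0 := by
      intro f'
      rw [← mul_sum]
      by_cases hef' : e' = f'
      · subst hef'
        rw [hd]
        simp
      by_cases h4 : (e' = e ∧ f' = f) ∨ (e' = f ∧ f' = e)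
      · rw [if_pos h4]
        congr 1
        rw [← hcard]
        refine sum_congr rfl fun ε _ => ?_
        rcases h4 with ⟨rfl, rfl⟩ | ⟨rfl, rfl⟩
        · have a1 := basic_sg_sq (ε e')
          have a2 := basic_sg_sq (ε f')
          calc sg (ε e') * (sg (ε f') * (sg (ε e') * sg (ε f')))
              = (sg (ε e') * sg (ε e')) * (sg (ε f') * sg (ε f')) := by ring
            _ = 1 := by rw [a1, a2, one_mul]
        · have a1 := basic_sg_sq (ε e')
          have a2 := basic_sg_sq (ε f')
          calc sg (ε f') * (sg (ε e') * (sg (ε e') * sg (ε f')))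
              = (sg (ε e') * sg (ε e')) * (sg (ε f') * sg (ε f')) := by ring
            _ = 1 := by rw [a1, a2, one_mul]
      · rw [if_neg h4]
        by_cases h5 : e = e' ∨ e = f'
        · -- then f is alone
          have h6 : f ≠ e' ∧ f ≠ f' := by
            rcases h5 with h5 | h5
            · refine ⟨fun h => hef (h5.trans h.symm), fun h => h4 (Or.inl ⟨h5.symm, h.symm⟩)⟩
            · refine ⟨fun h => h4 (Or.inr ⟨h.symm, h5.symm⟩), fun h => hef (h5.trans h.symm)⟩
          have h7 := sketch_four f e e' f' (Ne.symm hef) h6.1 h6.2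
          have h8 : ∑ ε : E → Bool, sg (ε e) * (sg (ε f) * (sg (ε e') * sg (ε f')))
              = ∑ ε : E → Bool, sg (ε f) * (sg (ε e) * (sg (ε e') * sg (ε f'))) :=
            sum_congr rfl fun ε _ => by ring
          rw [h8, h7, mul_zero]
        · push Not at h5
          rw [sketch_four e f e' f' hef h5.1 h5.2, mul_zero]
    rw [sum_congr rfl fun f' _ => h3 f']
    by_cases he : e' = e
    · subst he
      have hne : ¬ e' = f := hef
      simp only [hne, false_and, or_false, true_and, if_true, if_false, add_zero]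
      rw [sum_ite_eq' univ f]
      simp
    · by_cases hf : e' = f
      · subst hf
        simp only [he, false_and, false_or, true_and, if_true, if_false, zero_add]
        rw [sum_ite_eq' univ e]
        simp
      · simp [he, hf]
  rw [sum_congr rfl fun e' _ => h2 e', sum_add_distrib, sum_ite_eq' univ e, sum_ite_eq' univ f]
  simp only [mem_univ, if_true]
  rw [hc f e]
  ring

/-- two elements collide with probability at most `1 / |Q|` -/
theorem sketch_collide {E Q : Type} [Fintype E] [DecidableEq E] [Fintype Q] [DecidableEq Q] (e f : E) (hef : e ≠ f) :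
    (univ.filter (fun h : E → Q => h e = h f)).card * Fintype.card Q ≤ Fintype.card (E → Q) := by
  rw [← Fintype.card_subtype, ← Fintype.card_prod]
  refine Fintype.card_le_of_injective
    (fun z : {h : E → Q // h e = h f} × Q => Function.update z.1.1 e z.2) ?_
  rintro ⟨⟨h, hh⟩, q⟩ ⟨⟨h', hh'⟩, q'⟩ heq
  simp only [] at heq
  have h1 : q = q' := by
    have := congrFun heq e
    simpa using this
  have h2 : ∀ t, t ≠ e → h t = h' t := by
    intro t ht
    have := congrFun heq t
    simpa [Function.update_of_ne ht] using this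
  have h3 : h = h' := by
    funext t
    by_cases ht : t = e
    · subst ht
      rw [hh, hh', h2 f (Ne.symm hef)]
    · exact h2 t ht
  subst h1 h3
  rfl

theorem sketch_nsq {E Q : Type} [Fintype E] [DecidableEq E] [Fintype Q] [DecidableEq Q] (h : E → Q) (ε : E → Bool)
    (x : E → ℝ) : nsq (GG h ε x) - nsq x
      = ∑ e, ∑ f, sg (ε e) * sg (ε f) * (if e ≠ f ∧ h e = h f then x e * x f else 0) := by
  have h1 : nsq (GG h ε x) = ∑ e, ∑ f, (if h e = h f then sg (ε e) * sg (ε f) * (x e * x f) else 0) := by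
    unfold nsq GG
    have h2 : ∀ q : Q, (∑ e, if h e = q then sg (ε e) * x e else 0) ^ 2
        = ∑ e, ∑ f, (if h e = q then (if h f = q then sg (ε e) * sg (ε f) * (x e * x f) else 0) else 0) := by
      intro q
      rw [sq, sum_mul_sum]
      refine sum_congr rfl fun e _ => sum_congr rfl fun f _ => ?_
      split_ifs <;> ring
    rw [sum_congr rfl fun q _ => h2 q, sum_comm]
    refine sum_congr rfl fun e _ => ?_
    rw [sum_comm]
    refine sum_congr rfl fun f _ => ?_
    rw [sum_ite_eq univ (h e)]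
    simp only [mem_univ, if_true]
    by_cases hh : h e = h f
    · rw [if_pos hh, if_pos hh.symm]
    · rw [if_neg hh, if_neg (fun h' => hh h'.symm)]
  rw [h1]
  unfold nsq
  rw [← sum_sub_distrib]
  refine sum_congr rfl fun e _ => ?_
  have h3 : x e ^ 2 = ∑ f, if e = f then x f ^ 2 else 0 := by
    rw [sum_ite_eq univ e]
    simp
  rw [h3, ← sum_sub_distrib]
  refine sum_congr rfl fun f _ => ?_
  by_cases hef : e = f
  · subst hef
    have := basic_sg_sq (ε e)
    simp only [if_true, ne_eq, not_true_eq_false, false_and, if_false, mul_zero]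
    rw [this]
    ring
  · by_cases hh : h e = h f
    · simp [hef, hh]
    · simp [hef, hh]

/-- Second moment. -/
theorem sketch_moment {E Q : Type} [Fintype E] [DecidableEq E] [Fintype Q] [DecidableEq Q] [Nonempty Q] (x : E → ℝ) :
    ∑ h : E → Q, ∑ ε : E → Bool, (nsq (GG h ε x) - nsq x) ^ 2
      ≤ 2 / Fintype.card Q * nsq x ^ 2 * (Fintype.card (E → Q) * 2 ^ Fintype.card E) := by
  have hQ : (0 : ℝ) < Fintype.card Q := by exact_mod_cast Fintype.card_pos
  have h1 : ∀ h : E → Q, ∑ ε : E → Bool, (nsq (GG h ε x) - nsq x) ^ 2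
      = 2 * (∑ e, ∑ f, (if e ≠ f ∧ h e = h f then x e ^ 2 * x f ^ 2 else 0)) * 2 ^ Fintype.card E := by
    intro h
    rw [sum_congr rfl fun ε _ => by rw [sketch_nsq h ε x]]
    rw [sketch_chaos (fun e f => if e ≠ f ∧ h e = h f then x e * x f else 0)]
    · congr 2
      refine sum_congr rfl fun e _ => sum_congr rfl fun f _ => ?_
      split_ifs <;> ring
    · intro e f
      by_cases hef : e = f
      · subst hef; rfl
      · by_cases hh : h e = h f
        · rw [if_pos ⟨hef, hh⟩, if_pos ⟨Ne.symm hef, hh.symm⟩, mul_comm]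
        · rw [if_neg (fun h' => hh h'.2), if_neg (fun h' => hh h'.2.symm)]
    · intro e
      simp
  rw [sum_congr rfl fun h _ => h1 h, ← sum_mul, ← mul_sum]
  have h2 : ∑ h : E → Q, ∑ e, ∑ f, (if e ≠ f ∧ h e = h f then x e ^ 2 * x f ^ 2 else 0)
      ≤ (Fintype.card (E → Q) : ℝ) / Fintype.card Q * nsq x ^ 2 := by
    rw [sum_comm]
    have h3 : nsq x ^ 2 = ∑ e, ∑ f, x e ^ 2 * x f ^ 2 := by
      unfold nsq
      rw [sq, sum_mul_sum]
    rw [h3, mul_sum]
    refine sum_le_sum fun e _ => ?_
    rw [sum_comm, mul_sum]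
    refine sum_le_sum fun f _ => ?_
    by_cases hef : e = f
    · simp only [hef, ne_eq, not_true_eq_false, false_and, if_false, sum_const_zero]
      positivity
    · have h4 : ∑ h : E → Q, (if e ≠ f ∧ h e = h f then x e ^ 2 * x f ^ 2 else 0)
          = ((univ.filter (fun h : E → Q => h e = h f)).card : ℝ) * (x e ^ 2 * x f ^ 2) := by
        simp only [ne_eq, hef, not_false_eq_true, true_and]
        rw [← sum_filter, sum_const, nsmul_eq_mul]
      rw [h4]
      apply mul_le_mul_of_nonneg_right _ (by positivity)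
      rw [le_div_iff₀ hQ]
      exact_mod_cast sketch_collide e f hef
  calc 2 * (∑ h : E → Q, ∑ e, ∑ f, (if e ≠ f ∧ h e = h f then x e ^ 2 * x f ^ 2 else 0)) * 2 ^ Fintype.card E
      ≤ 2 * ((Fintype.card (E → Q) : ℝ) / Fintype.card Q * nsq x ^ 2) * 2 ^ Fintype.card E := by gcongr
    _ = _ := by ring

/-- Chebyshev. -/
theorem sketch_prob {E Q : Type} [Fintype E] [DecidableEq E] [Fintype Q] [DecidableEq Q] [Nonempty Q] (x : E → ℝ)
    (hx : nsq x = 1) (θ : ℝ) (hθ : 0 < θ) :
    cnt (fun z : (E → Q) × (E → Bool) => θ < |nsq (GG z.1 z.2 x) - 1|)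
      ≤ 2 / (Fintype.card Q * θ ^ 2) * Fintype.card ((E → Q) × (E → Bool)) := by
  classical
  have hQ : (0 : ℝ) < Fintype.card Q := by exact_mod_cast Fintype.card_pos
  have h1 := sketch_moment (Q := Q) x
  rw [hx] at h1
  have hcard : (Fintype.card ((E → Q) × (E → Bool)) : ℝ) = Fintype.card (E → Q) * 2 ^ Fintype.card E := by
    rw [Fintype.card_prod, Fintype.card_fun (α := E) (β := Bool), Fintype.card_bool]
    push_cast
    ring
  have h2 : θ ^ 2 * cnt (fun z : (E → Q) × (E → Bool) => θ < |nsq (GG z.1 z.2 x) - 1|)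
      ≤ ∑ h : E → Q, ∑ ε : E → Bool, (nsq (GG h ε x) - 1) ^ 2 := by
    rw [← Fintype.sum_prod_type (fun z : (E → Q) × (E → Bool) => (nsq (GG z.1 z.2 x) - 1) ^ 2), cnt_eq, mul_comm,
      ← nsmul_eq_mul, ← sum_const]
    refine (sum_le_sum fun z hz => ?_).trans (sum_le_sum_of_subset_of_nonneg (filter_subset _ _)
      fun z _ _ => sq_nonneg _)
    rw [mem_filter] at hz
    rw [← sq_abs (nsq (GG z.1 z.2 x) - 1)]
    exact pow_le_pow_left₀ hθ.le hz.2.le 2
  rw [hcard]
  have h3 : 0 < θ ^ 2 := by positivity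
  rw [show 2 / ((Fintype.card Q : ℝ) * θ ^ 2) * (Fintype.card (E → Q) * 2 ^ Fintype.card E)
    = (2 / Fintype.card Q * 1 ^ 2 * (Fintype.card (E → Q) * 2 ^ Fintype.card E)) / θ ^ 2 by field_simp]
  rw [le_div_iff₀ h3, mul_comm]
  exact h2.trans h1

end Pool.Agent.Helper951_jl
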