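import Pool.Agent.Helper951_jl.Final
import Pool.Agent.Helper951_jl.Sketch

/-!
Project JL (helper951, MP_fe497f_lc). Module Sparse: sparse inputs; a hashing step first when the failure probability
is large.
-/

namespace Pool.Agent.Helper951_jl

open Finset Pool.Agent.Helper951_sr

/-- Extension by zero. -/
def sp_ext {d : ℕ} (S : Finset (Fin d)) (y : S → ℝ) : Fin d → ℝ := fun i => if h : i ∈ S then y ⟨i, h⟩ else 0

theorem sp_ext_sum {d : ℕ} (S : Finset (Fin d)) (y : S → ℝ) (g : Fin d → ℝ) :
    ∑ i, g i * sp_ext S y i = ∑ t : S, g t * y t := by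
  rw [← sum_subset (subset_univ S)]
  · rw [← sum_coe_sort S]
    refine sum_congr rfl fun t _ => ?_
    unfold sp_ext
    rw [dif_pos t.2]
  · intro i _ hi
    unfold sp_ext
    rw [dif_neg hi, mul_zero]

theorem sp_ext_fast {d : ℕ} (S : Finset (Fin d)) : FastMap 1 (sp_ext S) := by
  intro α P x hx
  refine ⟨[fun _ => 0], SLP.cons [] _ SLP.nil (Instr.const 0), le_rfl, ?_⟩
  rintro f ⟨j, rfl⟩
  by_cases hj : j ∈ S
  · left
    have h1 : (fun a => sp_ext S (x a) j) = fun a => x a ⟨j, hj⟩ := by
      funext a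
      unfold sp_ext
      rw [dif_pos hj]
    rw [h1]
    exact hx _
  · right
    have h1 : (fun a => sp_ext S (x a) j) = fun _ => (0 : ℝ) := by
      funext a
      unfold sp_ext
      rw [dif_neg hj]
    rw [h1]
    exact List.mem_singleton.2 rfl

/-- matrix after hashing -/
theorem sp_mv {E Q J : Type} [Fintype E] [Fintype Q] [DecidableEq Q] (A : J → Q → ℝ) (h : E → Q) (ε : E → Bool)
    (x : E → ℝ) : mv (fun j t => A j (h t) * sg (ε t)) x = mv A (GG h ε x) := by
  funext j
  unfold mv GG
  have h1 : ∀ q, A j q * (∑ e, if h e = q then sg (ε e) * x e else 0)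
      = ∑ e, if h e = q then A j (h e) * sg (ε e) * x e else 0 := by
    intro q
    rw [mul_sum]
    refine sum_congr rfl fun e _ => ?_
    split_ifs with hq
    · rw [hq]; ring
    · ring
  rw [sum_congr rfl fun q _ => h1 q, sum_comm]
  refine sum_congr rfl fun e _ => ?_
  rw [sum_ite_eq univ (h e)]
  simp

theorem sp_GG {d : ℕ} {Q : Type} [Fintype Q] [DecidableEq Q] (h : Fin d → Q) (ε : Fin d → Bool) (S : Finset (Fin d))
    (y : S → ℝ) : GG h ε (sp_ext S y) = GG (fun t : S => h t) (fun t : S => ε t) y := by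
  funext q
  unfold GG
  have h1 := sp_ext_sum S y (fun e => if h e = q then sg (ε e) else 0)
  have h2 : ∀ e, (if h e = q then sg (ε e) * sp_ext S y e else 0) = (if h e = q then sg (ε e) else 0) * sp_ext S y e := by
    intro e
    split_ifs <;> ring
  rw [sum_congr rfl fun e _ => h2 e, h1]
  refine sum_congr rfl fun t _ => ?_
  split_ifs <;> ring

/-- combination of the two distortions -/
theorem sp_combine {ε a z w : ℝ} (h0 : 0 < ε) (h1 : ε < 1) (ha : 0 ≤ a) (hz : 0 ≤ z)
    (hz1 : (1 - ε / 3) * a ≤ z) (hz2 : z ≤ (1 + ε / 3) * a) (hw1 : (1 - ε / 3) * z ≤ w)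
    (hw2 : w ≤ (1 + ε / 3) * z) : (1 - ε) * a ≤ w ∧ w ≤ (1 + ε) * a := by
  constructor
  · have h2 : (1 - ε / 3) * ((1 - ε / 3) * a) ≤ (1 - ε / 3) * z := mul_le_mul_of_nonneg_left hz1 (by linarith)
    nlinarith [mul_nonneg (sq_nonneg ε) ha, mul_nonneg h0.le ha]
  · have h2 : (1 + ε / 3) * z ≤ (1 + ε / 3) * ((1 + ε / 3) * a) := mul_le_mul_of_nonneg_left hz2 (by linarith)
    have h3 : ε ^ 2 * a ≤ ε * a := by
      apply mul_le_mul_of_nonneg_right _ ha
      nlinarith
    nlinarith [mul_nonneg h0.le ha]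

/-- The main theorem for sparse inputs. -/
theorem jl_sparse : ∃ (C c : ℝ) (e : ℕ), 0 < C ∧ 0 < c ∧ ∀ (d : ℕ) (ε P : ℝ), 1 ≤ d → 0 < ε → ε < 1 → 0 < P →
    P ≤ 1 / 2 → ∃ (k r : ℕ) (A : Fin r → Fin k → Fin d → ℝ), 0 < r ∧
      (k : ℝ) ≤ C * (Real.log (1 / P) / ε ^ 2) ∧
      (∀ x : Fin d → ℝ, cnt (fun i => ¬ ((1 - ε) * nm x ≤ nm (mv (A i) x) ∧ nm (mv (A i) x) ≤ (1 + ε) * nm x))
        ≤ P * r) ∧
      ∀ (i : Fin r) (S : Finset (Fin d)), ∃ T : ℕ,
        (T : ℝ) ≤ c * ((S.card + min (d : ℝ) (k / P)) * Real.log (d + 1) ^ e) ∧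
        FastMap T (fun y : S → ℝ => mv (A i) (sp_ext S y)) := by
  classical
  obtain ⟨C, c, e, hC, hc, hmain⟩ := jl_main
  refine ⟨18 * C, 2 * (2 ^ e + 37 * c + 40), e, by positivity, by positivity, ?_⟩
  intro d ε P hd hε0 hε1 hP0 hP
  have hεP : 0 < ε ^ 2 * P := by positivity
  have hεP1 : ε ^ 2 * P ≤ 1 := by nlinarith
  have hinv : 1 ≤ 1 / (ε ^ 2 * P) := by rw [le_div_iff₀ hεP]; linarith
  set q := Real.log (1 / P) with hq
  have hq2 : Real.log 2 ≤ q := by
    refine Real.log_le_log (by norm_num) ?_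
    rw [le_div_iff₀ hP0]
    linarith
  have hq0 : 0 < q := lt_of_lt_of_le (Real.log_pos (by norm_num)) hq2
  set N0 := ⌈36 / (ε ^ 2 * P)⌉₊ with hN0
  have hN1 : 36 / (ε ^ 2 * P) ≤ N0 := Nat.le_ceil _
  have hN2 : (N0 : ℝ) ≤ 37 * (1 / (ε ^ 2 * P)) := by
    have h1 := Nat.ceil_lt_add_one (show 0 ≤ 36 / (ε ^ 2 * P) by positivity)
    rw [← hN0] at h1
    have h2 : 36 / (ε ^ 2 * P) = 36 * (1 / (ε ^ 2 * P)) := by ring
    linarith
  have hd1 : (1 : ℝ) ≤ d := by exact_mod_cast hd
  set m : ℝ := min (d : ℝ) (1 / (ε ^ 2 * P)) with hm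
  have hm1 : 1 ≤ m := le_min hd1 hinv
  set L : ℝ := Real.log ((d : ℝ) + 1) with hL
  have hL2 : 1 / 2 ≤ L := fin_log2l.trans (Real.log_le_log (by norm_num) (by linarith))
  have hLe : 1 ≤ 2 ^ e * L ^ e := by
    rw [← mul_pow]
    exact one_le_pow₀ (by linarith)
  have hLe0 : 0 < L ^ e := by positivity
  -- the final bound
  have hfin : ∀ (k n : ℕ), min (d : ℝ) (q / ε ^ 2) ≤ k → (2 ^ e + 37 * c + 40) * ((n + m) * L ^ e)
      ≤ 2 * (2 ^ e + 37 * c + 40) * ((n + min (d : ℝ) (k / P)) * L ^ e) := by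
    intro k n hk
    have hn : (0 : ℝ) ≤ n := Nat.cast_nonneg n
    have h1 : m ≤ 2 * min (d : ℝ) (k / P) := by
      have h2 : m ≤ d := min_le_left _ _
      have h3 : m ≤ 1 / (ε ^ 2 * P) := min_le_right _ _
      rw [mul_min_of_nonneg _ _ (by norm_num)]
      refine le_min (by linarith) ?_
      rw [← mul_div_assoc, le_div_iff₀ hP0]
      rcases min_le_iff.1 hk with h4 | h4
      · have : m * P ≤ d * 1 := mul_le_mul h2 (by linarith) hP0.le (by linarith)
        linarith
      · have h5 : m * P ≤ 1 / (ε ^ 2 * P) * P := mul_le_mul_of_nonneg_right h3 hP0.le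
        have h6 : 1 / (ε ^ 2 * P) * P = 1 / ε ^ 2 := by field_simp
        have h7 : 1 / ε ^ 2 ≤ 2 * (q / ε ^ 2) := by
          rw [← mul_div_assoc]
          apply div_le_div_of_nonneg_right _ (by positivity)
          linarith [fin_log2l]
        linarith
    have h8 : (n : ℝ) + m ≤ 2 * (n + min (d : ℝ) (k / P)) := by linarith
    calc (2 ^ e + 37 * c + 40) * ((n + m) * L ^ e)
        ≤ (2 ^ e + 37 * c + 40) * ((2 * (n + min (d : ℝ) (k / P))) * L ^ e) := by gcongr
      _ = _ := by ring
  by_cases hdN : d ≤ N0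
  · obtain ⟨k, T, r, A, hr, hk, hkl, hT, hf, hjl⟩ := hmain d ε P hd hε0 hε1 hP0 hP
    refine ⟨k, r, A, hr, hk.trans ?_, hjl, fun i S => ⟨1 + T, ?_, fast_comp (sp_ext_fast S) (hf i)⟩⟩
    · have : 0 ≤ C * (q / ε ^ 2) := by positivity
      linarith
    · refine le_trans ?_ (hfin k S.card hkl)
      have h1 : (d : ℝ) ≤ 37 * m := by
        have h2 : (d : ℝ) ≤ N0 := by exact_mod_cast hdN
        rw [hm, mul_min_of_nonneg _ _ (by norm_num)]
        exact le_min (by linarith) (h2.trans hN2)
      push_cast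
      have h3 : (T : ℝ) ≤ c * (37 * m * L ^ e) := hT.trans (by gcongr)
      have h4 : 1 ≤ 2 ^ e * (m * L ^ e) := by
        calc (1 : ℝ) ≤ 2 ^ e * L ^ e := hLe
          _ = 2 ^ e * (1 * L ^ e) := by ring
          _ ≤ 2 ^ e * (m * L ^ e) := by gcongr
      have h5 : 0 ≤ (S.card : ℝ) * L ^ e := by positivity
      have h6 : 0 ≤ m * L ^ e := by positivity
      calc 1 + (T : ℝ) ≤ 2 ^ e * (m * L ^ e) + c * (37 * m * L ^ e) := add_le_add h4 h3
        _ ≤ (2 ^ e + 37 * c + 40) * (S.card * L ^ e) + (2 ^ e + 37 * c + 40) * (m * L ^ e) := by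
            have h7 : 0 ≤ (2 ^ e + 37 * c + 40) * ((S.card : ℝ) * L ^ e) := by positivity
            nlinarith
        _ = _ := by ring
  · push Not at hdN
    have hN0' : 1 ≤ N0 := by
      have h1 : (36 : ℝ) ≤ N0 := by
        have h2 : 36 / (ε ^ 2 * P) = 36 * (1 / (ε ^ 2 * P)) := by ring
        linarith
      have h3 : (1 : ℝ) ≤ N0 := by linarith
      exact_mod_cast h3
    haveI : Nonempty (Fin N0) := ⟨⟨0, by omega⟩⟩
    obtain ⟨k, T, r, A, hr, hk, hkl, hT, hf, hjl⟩ := hmain N0 (ε / 3) (P / 2) hN0' (by positivity) (by linarith)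
      (by positivity) (by linarith)
    have hkl' : min (d : ℝ) (q / ε ^ 2) ≤ k := by
      refine (min_le_right _ _).trans (le_trans (le_min ?_ ?_) hkl)
      · refine le_trans ?_ hN1
        have h1 : q ≤ 1 / P := by
          have h2 := Real.log_le_sub_one_of_pos (show 0 < 1 / P by positivity)
          rw [hq]
          linarith
        have h2 : 36 / (ε ^ 2 * P) = 36 * (1 / P) / ε ^ 2 := by field_simp
        rw [h2]
        apply div_le_div_of_nonneg_right _ (by positivity)
        have h3 : 0 < 1 / P := by positivity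
        linarith
      · have h1 : Real.log (1 / (P / 2)) = Real.log 2 + q := by
          rw [hq, ← Real.log_mul (by norm_num) (by positivity)]
          congr 1
          field_simp
        have h2 : Real.log (1 / (P / 2)) / (ε / 3) ^ 2 = 9 * (Real.log 2 + q) / ε ^ 2 := by
          rw [h1]
          ring
        rw [h2]
        apply div_le_div_of_nonneg_right _ (by positivity)
        linarith [fin_log2l]
    set Ω := ((Fin d → Fin N0) × (Fin d → Bool)) × Fin r with hΩ
    have hcard : Fintype.card Ω = Fintype.card ((Fin d → Fin N0) × (Fin d → Bool)) * r := by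
      have h := Fintype.card_prod ((Fin d → Fin N0) × (Fin d → Bool)) (Fin r)
      rw [Fintype.card_fin r] at h
      exact h
    let eΩ : Fin (Fintype.card Ω) ≃ Ω := (Fintype.equivFin Ω).symm
    have hrΩ : 0 < Fintype.card Ω := by
      rw [hcard]
      exact Nat.mul_pos Fintype.card_pos hr
    refine ⟨k, Fintype.card Ω, fun i j t => A (eΩ i).2 j ((eΩ i).1.1 t) * sg ((eΩ i).1.2 t), hrΩ, ?_, ?_, ?_⟩
    · refine hk.trans ?_
      have h1 : Real.log (1 / (P / 2)) = Real.log 2 + q := by
        rw [hq, ← Real.log_mul (by norm_num) (by positivity)]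
        congr 1
        field_simp
      rw [h1]
      have h2 : (Real.log 2 + q) / (ε / 3) ^ 2 = 9 * ((Real.log 2 + q) / ε ^ 2) := by
        ring
      rw [h2]
      have h3 : (Real.log 2 + q) / ε ^ 2 ≤ 2 * (q / ε ^ 2) := by
        rw [← mul_div_assoc]
        apply div_le_div_of_nonneg_right _ (by positivity)
        linarith
      nlinarith
    · intro x
      rcases (nm_nonneg x).eq_or_lt with hx | hx
      · -- the zero vector
        have h4 : cnt (fun i => ¬ ((1 - ε) * nm x ≤ nm (mv (fun j t => A (eΩ i).2 j ((eΩ i).1.1 t) * sg ((eΩ i).1.2 t)) x) ∧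
            nm (mv (fun j t => A (eΩ i).2 j ((eΩ i).1.1 t) * sg ((eΩ i).1.2 t)) x) ≤ (1 + ε) * nm x)) = 0 := by
          rw [cnt_eq]
          norm_cast
          rw [card_eq_zero]
          apply filter_eq_empty_iff.2
          intro i _
          have h3 : mv (fun j t => A (eΩ i).2 j ((eΩ i).1.1 t) * sg ((eΩ i).1.2 t)) x = fun _ => 0 := by
            funext j
            unfold mv
            refine sum_eq_zero fun t _ => ?_
            rw [nm_eq_zero x hx.symm t, mul_zero]
          rw [not_not, h3, nm_zero, ← hx]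
          simp
        rw [h4]
        positivity
      · set y : Fin d → ℝ := fun i => (nm x)⁻¹ * x i with hy
        have hy1 : nsq y = 1 := by
          have h3 : nsq y = (nm x)⁻¹ ^ 2 * nsq x := by
            rw [hy]
            unfold nsq
            rw [mul_sum]
            exact sum_congr rfl fun i _ => by ring
          rw [h3, ← nm_sq x]
          field_simp
        have hstage1 := sketch_prob (Q := Fin N0) y hy1 (ε / 3) (by positivity)
        rw [Fintype.card_fin] at hstage1
        set c2 : ℝ := (Fintype.card ((Fin d → Fin N0) × (Fin d → Bool)) : ℝ) with hc2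
        have hp1 : 2 / ((N0 : ℝ) * (ε / 3) ^ 2) ≤ P / 2 := by
          have hN0p : (0 : ℝ) < N0 := by exact_mod_cast hN0'
          rw [div_le_iff₀ hεP] at hN1
          rw [div_le_iff₀ (by positivity)]
          nlinarith
        have hscale : ∀ z : (Fin d → Fin N0) × (Fin d → Bool), ¬ (ε / 3 < |nsq (GG z.1 z.2 y) - 1|) →
            (1 - ε / 3) * nm x ≤ nm (GG z.1 z.2 x) ∧ nm (GG z.1 z.2 x) ≤ (1 + ε / 3) * nm x := by
          intro z hz
          by_contra hcon
          apply hz
          have h5 := final_scale (fun (q : Fin N0) (t : Fin d) => if z.1 t = q then sg (z.2 t) else 0) x (ε / 3)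
            (by positivity) (by linarith) hx
          have h6 : ∀ v : Fin d → ℝ, mv (fun (q : Fin N0) (t : Fin d) => if z.1 t = q then sg (z.2 t) else 0) v
              = GG z.1 z.2 v := by
            intro v
            funext q
            unfold mv GG
            refine sum_congr rfl fun t _ => ?_
            beta_reduce
            by_cases hq : z.1 t = q
            · rw [if_pos hq, if_pos hq]
            · rw [if_neg hq, if_neg hq, zero_mul]
          rw [h6, h6] at h5
          exact h5 hcon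
        calc cnt (fun i => ¬ ((1 - ε) * nm x ≤ nm (mv (fun j t => A (eΩ i).2 j ((eΩ i).1.1 t) * sg ((eΩ i).1.2 t)) x) ∧
            nm (mv (fun j t => A (eΩ i).2 j ((eΩ i).1.1 t) * sg ((eΩ i).1.2 t)) x) ≤ (1 + ε) * nm x))
            = cnt (fun ω : ((Fin d → Fin N0) × (Fin d → Bool)) × Fin r =>
                ¬ ((1 - ε) * nm x ≤ nm (mv (fun j t => A ω.2 j (ω.1.1 t) * sg (ω.1.2 t)) x) ∧
            nm (mv (fun j t => A ω.2 j (ω.1.1 t) * sg (ω.1.2 t)) x) ≤ (1 + ε) * nm x)) :=
              cnt_equiv eΩ (fun ω : ((Fin d → Fin N0) × (Fin d → Bool)) × Fin r =>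
                ¬ ((1 - ε) * nm x ≤ nm (mv (fun j t => A ω.2 j (ω.1.1 t) * sg (ω.1.2 t)) x) ∧
            nm (mv (fun j t => A ω.2 j (ω.1.1 t) * sg (ω.1.2 t)) x) ≤ (1 + ε) * nm x))
          _ ≤ cnt (fun ω : ((Fin d → Fin N0) × (Fin d → Bool)) × Fin r =>
                (ε / 3 < |nsq (GG ω.1.1 ω.1.2 y) - 1|) ∨
                ¬ ((1 - ε / 3) * nm (GG ω.1.1 ω.1.2 x) ≤ nm (mv (A ω.2) (GG ω.1.1 ω.1.2 x)) ∧
                  nm (mv (A ω.2) (GG ω.1.1 ω.1.2 x)) ≤ (1 + ε / 3) * nm (GG ω.1.1 ω.1.2 x))) := by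
              refine cnt_mono fun ω hω => ?_
              by_contra hcon
              rw [not_or, not_not] at hcon
              apply hω
              rw [sp_mv]
              obtain ⟨h7, h8⟩ := hscale ω.1 hcon.1
              exact sp_combine hε0 hε1 hx.le (nm_nonneg _) h7 h8 hcon.2.1 hcon.2.2
          _ ≤ (P / 2) * c2 * r + c2 * (P / 2 * r) := by
              refine (cnt_or_le _ _).trans (add_le_add ?_ ?_)
              · rw [cnt_const_prod (β := Fin r) (fun z : (Fin d → Fin N0) × (Fin d → Bool) =>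
                  ε / 3 < |nsq (GG z.1 z.2 y) - 1|), Fintype.card_fin]
                apply mul_le_mul_of_nonneg_right _ (Nat.cast_nonneg r)
                refine hstage1.trans ?_
                exact mul_le_mul_of_nonneg_right hp1 (Nat.cast_nonneg _)
              · rw [cnt_prod]
                refine (sum_le_sum (g := fun _ => P / 2 * (r : ℝ)) fun z _ => hjl (GG z.1 z.2 x)).trans (le_of_eq ?_)
                rw [sum_const, card_univ, nsmul_eq_mul]
          _ = P * (Fintype.card Ω : ℕ) := by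
              rw [hcard]
              push_cast
              ring
    · intro i S
      refine ⟨(3 * S.card + N0) + T, ?_, ?_⟩
      · refine le_trans ?_ (hfin k S.card hkl')
        have h1 : (N0 : ℝ) ≤ 37 * m := by
          have h2 : (N0 : ℝ) ≤ d := by exact_mod_cast hdN.le
          rw [hm, mul_min_of_nonneg _ _ (by norm_num)]
          exact le_min (by linarith) hN2
        have hd2 : 2 ≤ d := by omega
        have hL1 : 1 ≤ L := by
          rw [hL, Real.le_log_iff_exp_le (by positivity)]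
          have h8 : (2 : ℝ) ≤ d := by exact_mod_cast hd2
          linarith [Real.exp_one_lt_three]
        have hL1e : 1 ≤ L ^ e := one_le_pow₀ hL1
        have hLN : Real.log ((N0 : ℝ) + 1) ≤ L := by
          apply Real.log_le_log (by positivity)
          have h2 : (N0 : ℝ) ≤ d := by exact_mod_cast hdN.le
          linarith
        have hLN0 : 0 ≤ Real.log ((N0 : ℝ) + 1) := Real.log_nonneg (by linarith [(Nat.cast_nonneg N0 : (0 : ℝ) ≤ N0)])
        have h3 : (T : ℝ) ≤ c * (37 * m * L ^ e) := hT.trans (by gcongr)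
        push_cast
        have h4 : (S.card : ℝ) ≤ S.card * L ^ e := by
          have : (0 : ℝ) ≤ S.card := Nat.cast_nonneg _
          nlinarith
        have h5 : (N0 : ℝ) ≤ 37 * (m * L ^ e) := by
          have : m ≤ m * L ^ e := by nlinarith
          linarith
        have h6 : 0 ≤ (S.card : ℝ) * L ^ e := by positivity
        have h7 : 0 ≤ m * L ^ e := by positivity
        have h8 : (0 : ℝ) < 2 ^ e := by positivity
        calc 3 * (S.card : ℝ) + N0 + T ≤ 3 * (S.card * L ^ e) + 37 * (m * L ^ e) + c * (37 * m * L ^ e) := by linarith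
          _ ≤ (2 ^ e + 37 * c + 40) * (S.card * L ^ e) + (2 ^ e + 37 * c + 40) * (m * L ^ e) := by
              have a1 : 3 * ((S.card : ℝ) * L ^ e) ≤ (2 ^ e + 37 * c + 40) * (S.card * L ^ e) := by
                apply mul_le_mul_of_nonneg_right _ h6
                linarith
              have a2 : (37 + 37 * c) * (m * L ^ e) ≤ (2 ^ e + 37 * c + 40) * (m * L ^ e) := by
                apply mul_le_mul_of_nonneg_right _ h7
                linarith
              linarith
          _ = _ := by ring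
      · have h1 := fast_comp (GG_fast (fun t : S => (eΩ i).1.1 t) (fun t : S => (eΩ i).1.2 t)) (hf (eΩ i).2)
        have h2 : (fun y : S → ℝ => mv (fun j t => A (eΩ i).2 j ((eΩ i).1.1 t) * sg ((eΩ i).1.2 t)) (sp_ext S y))
            = fun y => mv (A (eΩ i).2) (GG (fun t : S => (eΩ i).1.1 t) (fun t : S => (eΩ i).1.2 t) y) := by
          funext y
          rw [sp_mv, sp_GG]
        rw [h2]
        refine fast_mono h1 ?_
        rw [Fintype.card_coe, Fintype.card_fin]

end Pool.Agent.Helper951_jl
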